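import Mathlib

/-!
# Exchange of transcendental elements
-/

set_option autoImplicit false

open MvPolynomial

namespace Pool.Agent.R847.SB

variable {k E : Type} [Field k] [Field E] [Algebra k E]

open IntermediateField.algebraAdjoinAdjoin in
lemma alg_iff (S : Set E) (g : E) : IsAlgebraic (IntermediateField.adjoin k S) g ↔
    g ∈ (AlgebraicIndependent.matroid k E).closure S := by
  rw [AlgebraicIndependent.matroid_closure_eq]
  have h1 := IsFractionRing.isAlgebraic_iff (Algebra.adjoin k S) (IntermediateField.adjoin k S) E
    (x := g)
  rw [← h1]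
  rfl

/-- exchange -/
lemma exch (t t' g : E) (hg : IsAlgebraic (IntermediateField.adjoin k {t}) g)
    (ht' : IsAlgebraic (IntermediateField.adjoin k {t}) t') (htr : Transcendental k t') :
    IsAlgebraic (IntermediateField.adjoin k {t'}) g := by
  rw [alg_iff] at hg ht' ⊢
  set M := AlgebraicIndependent.matroid k E with hM
  have h0 : t' ∉ M.closure ∅ := by
    rw [hM, ← alg_iff]
    intro h1
    apply htr
    rw [IntermediateField.adjoin_empty] at h1
    obtain ⟨q, hq0, hq⟩ := h1
    let φ : (⊥ : IntermediateField k E) →+* k := (IntermediateField.botEquiv k E).toRingHom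
    refine ⟨q.map φ, (Polynomial.map_ne_zero_iff φ.injective).2 hq0, ?_⟩
    rw [Polynomial.aeval_def, Polynomial.eval₂_map]
    rw [Polynomial.aeval_def] at hq
    rw [← hq]
    congr 1
    ext x
    rw [RingHom.comp_apply]
    obtain ⟨y, rfl⟩ := (IntermediateField.botEquiv k E).symm.surjective x
    show algebraMap k E ((IntermediateField.botEquiv k E) ((IntermediateField.botEquiv k E).symm y)) = _
    rw [AlgEquiv.apply_symm_apply, IntermediateField.botEquiv_symm]
    rfl
  have h1 : t ∈ M.closure {t'} := by
    have h2 := Matroid.closure_exchange (M := M) (X := ∅) (e := t') (f := t)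
      ⟨by rwa [insert_empty_eq], h0⟩
    rw [insert_empty_eq] at h2
    exact h2.1
  have h2 : M.closure {t} ⊆ M.closure {t'} :=
    M.closure_subset_closure_of_subset_closure (Set.singleton_subset_iff.2 h1)
  exact h2 hg

/-- transitivity -/
lemma alg_trans (S : Set E) (t g : E) (hS : ∀ x ∈ S, IsAlgebraic (IntermediateField.adjoin k {t}) x)
    (hg : IsAlgebraic (IntermediateField.adjoin k S) g) :
    IsAlgebraic (IntermediateField.adjoin k {t}) g := by
  rw [alg_iff] at hg ⊢
  have h2 : (AlgebraicIndependent.matroid k E).closure S ⊆
      (AlgebraicIndependent.matroid k E).closure {t} := by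
    apply Matroid.closure_subset_closure_of_subset_closure
    intro x hx
    rw [← alg_iff]
    exact hS x hx
  exact h2 hg

/-- A pair on which a polynomial vanishes. -/
lemma alg_of_pair (t g : E) (ht : Transcendental k t) (P : MvPolynomial (Fin 2) k) (hP : P ≠ 0)
    (h : aeval ![t, g] P = 0) : IsAlgebraic (IntermediateField.adjoin k {t}) g := by
  by_contra hno
  have h1 : AlgebraicIndependent k (fun _ : Unit => t) := by
    rw [algebraicIndependent_unique_type_iff]
    exact ht
  have h2 : Transcendental (Algebra.adjoin k (Set.range fun _ : Unit => t)) g := by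
    intro h3
    apply hno
    rw [alg_iff, AlgebraicIndependent.matroid_closure_eq]
    rw [Set.range_const] at h3
    exact h3
  have h3 := (h1.option_iff_transcendental g).2 h2
  let φ : Fin 2 → Option Unit := ![some (), none]
  have hφ : Function.Injective φ := by
    intro a b hab
    fin_cases a <;> fin_cases b <;> simp_all [φ]
  apply hP
  apply rename_injective φ hφ
  rw [map_zero]
  apply (algebraicIndependent_iff_injective_aeval.1 h3)
  rw [map_zero, aeval_rename, ← h]
  congr 2
  funext i
  fin_cases i <;> rfl

end Pool.Agent.R847.SB
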