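import Mathlib
import Pool.Agent.R847.SN.Int

/-!
# Growth of unbounded orbits of regular polynomial maps
-/

set_option autoImplicit false

open MvPolynomial Filter Topology Asymptotics

namespace Pool.Agent.R847.SB

open Pool.Agent.R847.SN

variable {k : Type} [Field k] {N d : ℕ} {Ω : Type} [NormedField Ω] [Algebra k Ω]

lemma grow_low (hd : d ≠ 0) (f : Fin (N + 1) → MvPolynomial (Fin (N + 1)) k)
    (hdeg : ∀ i, (f i).totalDegree ≤ d) (hreg : Reg d f) :
    ∃ c : ℝ, 0 < c ∧ ∃ R : ℝ, 1 ≤ R ∧ ∀ z : Fin (N + 1) → Ω, R ≤ ‖z‖ →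
      c * ‖z‖ ^ d ≤ ‖fun i => aeval z (f i)‖ := by
  classical
  set F : Fin (N + 1) → MvPolynomial (Fin (N + 1)) k := fun i => homogeneousComponent d (f i)
    with hFdef
  have hF : ∀ i, (F i).IsHomogeneous d := fun i => homogeneousComponent_isHomogeneous d (f i)
  obtain ⟨M, q, hq, h⟩ := Pool.Agent.R847.HG.exists_cert (K := k) F hF hreg
  choose A hA0 hA using fun a => poly_bound (Ω := Ω) (q a) M (hq a).totalDegree_le
  choose A' hA'0 hA' using fun (i : Fin (N + 1)) (j : ℕ) =>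
    poly_bound (Ω := Ω) (homogeneousComponent j (f i)) j
      (homogeneousComponent_isHomogeneous j (f i)).totalDegree_le
  set a : ℝ := ∑ e, A e with ha
  set b : ℝ := ∑ i, ∑ j ∈ Finset.range d, A' i j with hb
  have ha0 : 0 ≤ a := Finset.sum_nonneg fun e _ => hA0 e
  have hb0 : 0 ≤ b := Finset.sum_nonneg fun i _ => Finset.sum_nonneg fun j _ => hA'0 i j
  set a' : ℝ := ((N : ℝ) + 1) * (a + 1) with ha'
  have ha'0 : 0 < a' := by positivity
  refine ⟨1 / (2 * a'), by positivity, max 1 (2 * a' * b), le_max_left _ _, fun z hz => ?_⟩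
  set r := ‖z‖ with hr
  have hr1 : 1 ≤ r := (le_max_left _ _).trans hz
  have hr2 : 2 * a' * b ≤ r := (le_max_right _ _).trans hz
  have hzi : ∀ i, ‖z i‖ ≤ r := fun i => norm_le_pi_norm z i
  obtain ⟨i0, _, hi0⟩ := Finset.exists_max_image Finset.univ (fun i => ‖z i‖) Finset.univ_nonempty
  have hri0 : r = ‖z i0‖ := by
    apply le_antisymm
    · rw [hr, pi_norm_le_iff_of_nonneg (norm_nonneg _)]
      exact fun i => hi0 i (Finset.mem_univ i)
    · exact hzi i0
  obtain ⟨j0, _, hj0⟩ := Finset.exists_max_image Finset.univ (fun j => ‖aeval z (F j)‖)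
    Finset.univ_nonempty
  have h1 : r ^ (M + d) ≤ a' * r ^ M * ‖aeval z (F j0)‖ := by
    have h2 := congrArg (fun g => ‖aeval z g‖) (h i0)
    simp only [map_sum, map_mul, map_pow, aeval_X, norm_pow] at h2
    rw [← hri0] at h2
    rw [← h2]
    refine (norm_sum_le _ _).trans ?_
    have h3 : ∀ j ∈ (Finset.univ : Finset (Fin (N + 1))),
        ‖aeval z (q (i0, j)) * aeval z (F j)‖ ≤ (a + 1) * r ^ M * ‖aeval z (F j0)‖ := by
      intro j _
      rw [norm_mul]
      apply mul_le_mul _ (hj0 j (Finset.mem_univ j)) (norm_nonneg _) (by positivity)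
      refine (hA (i0, j) z r hr1 hzi).trans ?_
      apply mul_le_mul_of_nonneg_right _ (by positivity)
      have := Finset.single_le_sum (f := A) (fun e _ => hA0 e) (Finset.mem_univ (i0, j))
      linarith
    refine (Finset.sum_le_sum h3).trans ?_
    rw [Finset.sum_const, Finset.card_univ, Fintype.card_fin, nsmul_eq_mul, ha']
    push_cast
    exact le_of_eq (by ring)
  have h2 : r ^ d ≤ a' * ‖aeval z (F j0)‖ := by
    rw [pow_add] at h1
    have hM : 0 < r ^ M := by positivity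
    have h3 : r ^ M * r ^ d ≤ r ^ M * (a' * ‖aeval z (F j0)‖) := by linarith
    exact le_of_mul_le_mul_left h3 hM
  have h3 : aeval z (f j0) = aeval z (F j0) +
      ∑ j ∈ Finset.range d, aeval z (homogeneousComponent j (f j0)) := by
    have e2 : f j0 = ∑ i ∈ Finset.range (d + 1), homogeneousComponent i (f j0) := by
      conv_lhs => rw [← sum_homogeneousComponent (f j0)]
      apply Finset.sum_subset
      · intro i hi
        rw [Finset.mem_range] at hi ⊢
        have := hdeg j0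
        omega
      · intro i _ hi
        rw [Finset.mem_range] at hi
        exact homogeneousComponent_eq_zero _ _ (by omega)
    conv_lhs => rw [e2]
    rw [Finset.sum_range_succ, map_add, map_sum, add_comm]
  have h4 : ‖∑ j ∈ Finset.range d, aeval z (homogeneousComponent j (f j0))‖ ≤ b * r ^ (d - 1) := by
    refine (norm_sum_le _ _).trans ?_
    have h5 : ∑ j ∈ Finset.range d, ‖aeval z (homogeneousComponent j (f j0))‖ ≤
        ∑ j ∈ Finset.range d, A' j0 j * r ^ (d - 1) := by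
      refine Finset.sum_le_sum fun j hj => ?_
      rw [Finset.mem_range] at hj
      refine (hA' j0 j z r hr1 hzi).trans ?_
      apply mul_le_mul_of_nonneg_left _ (hA'0 j0 j)
      exact pow_le_pow_right₀ hr1 (by omega)
    refine h5.trans ?_
    rw [← Finset.sum_mul]
    apply mul_le_mul_of_nonneg_right _ (by positivity)
    exact Finset.single_le_sum (f := fun i => ∑ j ∈ Finset.range d, A' i j)
      (fun i _ => Finset.sum_nonneg fun j _ => hA'0 i j) (Finset.mem_univ j0)
  have h5 : ‖aeval z (F j0)‖ - b * r ^ (d - 1) ≤ ‖aeval z (f j0)‖ := by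
    rw [h3]
    have h6 := norm_sub_le (aeval z (F j0) + ∑ j ∈ Finset.range d,
      aeval z (homogeneousComponent j (f j0))) (∑ j ∈ Finset.range d,
      aeval z (homogeneousComponent j (f j0)))
    rw [add_sub_cancel_right] at h6
    linarith
  have h6 : r ^ d = r * r ^ (d - 1) := by
    rw [← pow_succ']
    congr 1
    omega
  have h7 : 2 * a' * (b * r ^ (d - 1)) ≤ r ^ d := by
    rw [h6, ← mul_assoc]
    exact mul_le_mul_of_nonneg_right hr2 (by positivity)
  have h8 : 1 / (2 * a') * r ^ d ≤ ‖aeval z (f j0)‖ := by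
    rw [one_div_mul_eq_div, div_le_iff₀ (by positivity)]
    nlinarith
  exact h8.trans (norm_le_pi_norm (fun i => aeval z (f i)) j0)

lemma grow_up (f : Fin (N + 1) → MvPolynomial (Fin (N + 1)) k)
    (hdeg : ∀ i, (f i).totalDegree ≤ d) :
    ∃ A : ℝ, 1 ≤ A ∧ ∀ z : Fin (N + 1) → Ω,
      ‖fun i => aeval z (f i)‖ ≤ A * (max 1 ‖z‖) ^ d := by
  choose A hA0 hA using fun i => poly_bound (Ω := Ω) (f i) d (hdeg i)
  refine ⟨1 + ∑ i, A i, by
    have := Finset.sum_nonneg (s := Finset.univ) (fun i _ => hA0 i)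
    linarith, fun z => ?_⟩
  have hs := Finset.sum_nonneg (s := Finset.univ) (fun i _ => hA0 i)
  rw [pi_norm_le_iff_of_nonneg (by positivity)]
  intro i
  refine (hA i z (max 1 ‖z‖) (le_max_left _ _)
    (fun j => (norm_le_pi_norm z j).trans (le_max_right _ _))).trans ?_
  apply mul_le_mul_of_nonneg_right _ (by positivity)
  have := Finset.single_le_sum (f := A) (fun e _ => hA0 e) (Finset.mem_univ i)
  linarith

/-- the upper bound for the growth -/
lemma seq_up (hd : 2 ≤ d) (f : Fin (N + 1) → MvPolynomial (Fin (N + 1)) k)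
    (hdeg : ∀ i, (f i).totalDegree ≤ d) (x : ℕ → Fin (N + 1) → Ω)
    (hx : ∀ n, x (n + 1) = fun i => aeval (x n) (f i)) :
    ∃ C : ℝ, 0 ≤ C ∧ ∀ n, Real.log (max 1 ‖x n‖) ≤ C * (d : ℝ) ^ n := by
  obtain ⟨A, hA1, hA⟩ := grow_up (Ω := Ω) f hdeg
  set a := Real.log A with ha
  have ha0 : 0 ≤ a := Real.log_nonneg hA1
  have hd2 : (2 : ℝ) ≤ d := by exact_mod_cast hd
  set g : ℕ → ℝ := fun n => Real.log (max 1 ‖x n‖) with hg
  have hg0 : ∀ n, 0 ≤ g n := fun n => Real.log_nonneg (le_max_left _ _)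
  have hstep : ∀ n, g (n + 1) ≤ d * g n + a := by
    intro n
    have h1 : max 1 ‖x (n + 1)‖ ≤ A * (max 1 ‖x n‖) ^ d := by
      apply max_le
      · have h2 : 1 ≤ (max 1 ‖x n‖) ^ d := one_le_pow₀ (le_max_left _ _)
        nlinarith
      · rw [hx]
        exact hA _
    have h2 := Real.log_le_log (lt_max_of_lt_left one_pos) h1
    rw [Real.log_mul (by linarith) (by positivity), Real.log_pow] at h2
    show Real.log (max 1 ‖x (n + 1)‖) ≤ _
    linarith
  have hind : ∀ n, g n + a ≤ (g 0 + a) * (d : ℝ) ^ n := by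
    intro n
    induction n with
    | zero => simp
    | succ n ih =>
      have h1 := hstep n
      have h2 := hg0 n
      rw [pow_succ]
      have h3 : (g n + a) * d ≤ (g 0 + a) * (d : ℝ) ^ n * d :=
        mul_le_mul_of_nonneg_right ih (by linarith)
      nlinarith
  refine ⟨g 0 + a, by have := hg0 0; linarith, fun n => ?_⟩
  have := hind n
  show g n ≤ _
  linarith

/-- the lower bound for the growth -/
lemma seq_low (hd : 2 ≤ d) (f : Fin (N + 1) → MvPolynomial (Fin (N + 1)) k)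
    (hdeg : ∀ i, (f i).totalDegree ≤ d) (hreg : Reg d f) (x : ℕ → Fin (N + 1) → Ω)
    (hx : ∀ n, x (n + 1) = fun i => aeval (x n) (f i)) (hbig : ∀ C : ℝ, ∃ n, C ≤ ‖x n‖) :
    ∃ c : ℝ, 0 < c ∧ ∃ n0, ∀ n ≥ n0, c * (d : ℝ) ^ n ≤ Real.log ‖x n‖ := by
  obtain ⟨c, hc, R, hR, hgr⟩ := grow_low (Ω := Ω) (by omega) f hdeg hreg
  have hd2 : (2 : ℝ) ≤ d := by exact_mod_cast hd
  set κ : ℝ := |Real.log c| + Real.log R with hκ
  have hκ1 : 0 ≤ Real.log R := Real.log_nonneg hR
  have hκ0 : 0 ≤ κ := by positivity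
  obtain ⟨n0, hn0⟩ := hbig (Real.exp (κ + 1))
  have h0 : κ + 1 ≤ Real.log ‖x n0‖ := by
    rw [Real.le_log_iff_exp_le (lt_of_lt_of_le (Real.exp_pos _) hn0)]
    exact hn0
  have hind : ∀ m, (1 : ℝ) * (d : ℝ) ^ m ≤ Real.log ‖x (n0 + m)‖ - κ ∧ 0 < ‖x (n0 + m)‖ := by
    intro m
    induction m with
    | zero =>
      refine ⟨?_, lt_of_lt_of_le (Real.exp_pos _) hn0⟩
      rw [pow_zero, mul_one, add_zero]
      linarith
    | succ m ih =>
      obtain ⟨h1, h2⟩ := ih
      have h3 : (1 : ℝ) ≤ (d : ℝ) ^ m := one_le_pow₀ (by linarith)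
      have h4 : Real.log R ≤ Real.log ‖x (n0 + m)‖ := by
        have := abs_nonneg (Real.log c)
        linarith
      have h5 : R ≤ ‖x (n0 + m)‖ := (Real.log_le_log_iff (by linarith) h2).1 h4
      have h6 := hgr _ h5
      rw [← hx (n0 + m)] at h6
      have h7 : 0 < c * ‖x (n0 + m)‖ ^ d := by positivity
      have h8 : 0 < ‖x (n0 + m + 1)‖ := h7.trans_le h6
      refine ⟨?_, h8⟩
      have h9 := Real.log_le_log h7 h6
      rw [Real.log_mul hc.ne' (by positivity), Real.log_pow] at h9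
      have h10 := neg_abs_le (Real.log c)
      have h11 : -κ ≤ Real.log c := by linarith
      rw [pow_succ]
      show (1 : ℝ) * ((d : ℝ) ^ m * d) ≤ Real.log ‖x (n0 + m + 1)‖ - κ
      have h12 : (d : ℝ) ^ m * d ≤ (Real.log ‖x (n0 + m)‖ - κ) * d :=
        mul_le_mul_of_nonneg_right (by linarith) (by linarith)
      nlinarith
  refine ⟨1 / (d : ℝ) ^ n0, by positivity, n0, fun n hn => ?_⟩
  obtain ⟨m, rfl⟩ : ∃ m, n = n0 + m := ⟨n - n0, by omega⟩
  obtain ⟨h1, h2⟩ := hind m
  have h3 : 1 / (d : ℝ) ^ n0 * (d : ℝ) ^ (n0 + m) = (d : ℝ) ^ m := by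
    rw [pow_add]
    have : (d : ℝ) ^ n0 ≠ 0 := by positivity
    field_simp
  rw [h3]
  linarith

end Pool.Agent.R847.SB
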