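import Mathlib
import Pool.Agent.R847.SN.Int

/-!
# A regular polynomial map is finite
-/

set_option autoImplicit false

open MvPolynomial

namespace Pool.Agent.R847.SB

variable {k : Type} [Field k] {N : ℕ}

lemma low_mem (d M : ℕ) (hd : d ≠ 0) (f : Fin (N + 1) → MvPolynomial (Fin (N + 1)) k)
    (hdeg : ∀ i, (f i).totalDegree ≤ d)
    (q : Fin (N + 1) × Fin (N + 1) → MvPolynomial (Fin (N + 1)) k)
    (hq : ∀ a, (q a).IsHomogeneous M)
    (h : ∀ j, ∑ i, q (j, i) * homogeneousComponent d (f i) = X j ^ (M + d))
    (n : ℕ) : ∀ g : MvPolynomial (Fin (N + 1)) k, g.totalDegree ≤ n →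
    g ∈ Submodule.span (aeval f : _ →ₐ[k] MvPolynomial (Fin (N + 1)) k).range
      ((fun m => monomial m (1 : k)) '' {m : Fin (N + 1) →₀ ℕ | ∀ i, m i < M + d}) := by
  classical
  set B := (aeval f : _ →ₐ[k] MvPolynomial (Fin (N + 1)) k).range with hB
  set S := Submodule.span B
    ((fun m => monomial m (1 : k)) '' {m : Fin (N + 1) →₀ ℕ | ∀ i, m i < M + d}) with hS
  have hsm : ∀ (a : k) (g : MvPolynomial (Fin (N + 1)) k), g ∈ S → a • g ∈ S := by
    intro a g hg
    have : a • g = (algebraMap k B a) • g := by
      rw [algebraMap_smul]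
    rw [this]
    exact S.smul_mem _ hg
  induction n using Nat.strong_induction_on with
  | _ n ih =>
    intro g hg
    rw [← support_sum_monomial_coeff g]
    apply S.sum_mem
    intro m hmg
    have h3 : monomial m (coeff m g) = coeff m g • monomial m (1 : k) := by
      rw [smul_monomial, smul_eq_mul, mul_one]
    rw [h3]
    apply hsm
    have hmn : ∑ i, m i ≤ n := by
      have h1 := le_totalDegree hmg
      rw [Finsupp.sum_fintype _ _ (by simp)] at h1
      exact h1.trans hg
    by_cases hbox : ∀ i, m i < M + d
    · exact Submodule.subset_span ⟨m, hbox, rfl⟩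
    · push Not at hbox
      obtain ⟨e, hk⟩ := hbox
      set m' : Fin (N + 1) →₀ ℕ := m - Finsupp.single e (M + d) with hm'
      have hmm : m = Finsupp.single e (M + d) + m' := by
        rw [hm', add_tsub_cancel_of_le]
        exact Finsupp.single_le_iff.2 hk
      have hsum : ∑ i, m i = (M + d) + ∑ i, m' i := by
        conv_lhs => rw [hmm]
        simp [Finset.sum_add_distrib, Finsupp.single_apply]
      have hgdeg : ∀ j, (q (e, j) * monomial m' (1 : k)).totalDegree ≤ M + ∑ i, m' i := by
        intro j
        apply IsHomogeneous.totalDegree_le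
        apply (hq (e, j)).mul
        apply isHomogeneous_monomial
        rw [Finsupp.degree_eq_sum]
      have h1 : monomial m (1 : k) = ∑ j, (f j * (q (e, j) * monomial m' 1) -
          (f j - homogeneousComponent d (f j)) * (q (e, j) * monomial m' 1)) := by
        have h2 : monomial m (1 : k) = X e ^ (M + d) * monomial m' 1 := by
          rw [X_pow_eq_monomial, monomial_mul, one_mul, ← hmm]
        rw [h2, ← h e, Finset.sum_mul]
        refine Finset.sum_congr rfl fun j _ => ?_
        ring
      rw [h1]
      apply S.sum_mem
      intro j _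
      apply S.sub_mem
      · have hFj : f j ∈ B := ⟨X j, by simp⟩
        have h2 : f j * (q (e, j) * monomial m' 1) =
            (⟨f j, hFj⟩ : B) • (q (e, j) * monomial m' (1 : k)) := rfl
        rw [h2]
        apply S.smul_mem
        exact ih (M + ∑ i, m' i) (by omega) _ (hgdeg j)
      · have hL : (f j - homogeneousComponent d (f j)).totalDegree ≤ d - 1 := by
          have e1 : f j - homogeneousComponent d (f j) =
              ∑ i ∈ Finset.range d, homogeneousComponent i (f j) := by
            have e2 : f j = ∑ i ∈ Finset.range (d + 1), homogeneousComponent i (f j) := by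
              conv_lhs => rw [← sum_homogeneousComponent (f j)]
              apply Finset.sum_subset
              · intro i hi
                rw [Finset.mem_range] at hi ⊢
                have := hdeg j
                omega
              · intro i _ hi
                rw [Finset.mem_range] at hi
                exact homogeneousComponent_eq_zero _ _ (by omega)
            conv_lhs => rw [e2]
            rw [Finset.sum_range_succ]
            have e3 : homogeneousComponent d (∑ i ∈ Finset.range d,
                homogeneousComponent i (f j) + homogeneousComponent d (f j)) =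
                homogeneousComponent d (f j) := by
              rw [← Finset.sum_range_succ, ← e2]
            rw [e3, add_sub_cancel_right]
          rw [e1]
          apply totalDegree_finsetSum_le
          intro i hi
          rw [Finset.mem_range] at hi
          exact (homogeneousComponent_isHomogeneous i (f j)).totalDegree_le.trans (by omega)
        apply ih (d - 1 + (M + ∑ i, m' i)) (by omega)
        exact (totalDegree_mul _ _).trans (add_le_add hL (hgdeg j))

/-- Every coordinate is integral over the polynomials of the map. -/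
lemma exists_int' (d : ℕ) (hd : d ≠ 0) (f : Fin (N + 1) → MvPolynomial (Fin (N + 1)) k)
    (hdeg : ∀ i, (f i).totalDegree ≤ d) (hreg : SN.Reg d f) (j : Fin (N + 1)) :
    ∃ (n : ℕ) (q : ℕ → MvPolynomial (Fin (N + 1)) k), ∀ (A : Type) [CommRing A] [Algebra k A]
      (z : Fin (N + 1) → A), (z j) ^ n + ∑ i ∈ Finset.range n,
        aeval (fun r => aeval z (f r)) (q i) * (z j) ^ i = 0 := by
  classical
  obtain ⟨M, q, hq, h⟩ := Pool.Agent.R847.HG.exists_cert (K := k)
    (fun i => homogeneousComponent d (f i)) (fun i => homogeneousComponent_isHomogeneous d (f i))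
    hreg
  set B := (aeval f : _ →ₐ[k] MvPolynomial (Fin (N + 1)) k).range with hB
  have hfin : {m : Fin (N + 1) →₀ ℕ | ∀ i, m i < M + d}.Finite := by
    apply (Set.finite_Iic (Finsupp.equivFunOnFinite.symm fun _ => M + d : Fin (N + 1) →₀ ℕ)).subset
    intro m hm
    rw [Set.mem_Iic]
    intro i
    simpa using (hm i).le
  have hfg : Module.Finite B (MvPolynomial (Fin (N + 1)) k) := by
    refine ⟨(Submodule.fg_def).2 ⟨_, hfin.image fun m => monomial m (1 : k), ?_⟩⟩
    rw [eq_top_iff]
    intro g _
    exact low_mem d M hd f hdeg q hq h _ g le_rfl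
  obtain ⟨p, hp, hp0⟩ := IsIntegral.of_finite B (X j : MvPolynomial (Fin (N + 1)) k)
  have hex : ∀ i, ∃ r : MvPolynomial (Fin (N + 1)) k, aeval f r =
      (p.coeff i : MvPolynomial (Fin (N + 1)) k) := fun i => (p.coeff i).2
  choose r hr using hex
  refine ⟨p.natDegree, r, fun A _ _ z => ?_⟩
  rw [Polynomial.eval₂_eq_sum_range, Finset.sum_range_succ, hp.coeff_natDegree, map_one,
    one_mul] at hp0
  have h1 := congrArg (aeval z) hp0
  rw [map_zero, map_add, map_sum, map_pow, aeval_X] at h1
  rw [← h1, add_comm]
  congr 1
  refine Finset.sum_congr rfl fun i _ => ?_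
  rw [map_mul, map_pow, aeval_X]
  congr 1
  have h2 : (algebraMap B (MvPolynomial (Fin (N + 1)) k)) (p.coeff i) =
      aeval f (r i) := (hr i).symm
  rw [h2]
  exact (comp_aeval_apply f (aeval z : MvPolynomial (Fin (N + 1)) k →ₐ[k] A) (r i)).symm

end Pool.Agent.R847.SB
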