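import Mathlib

/-!
# Valuations on fields of transcendence degree one over an algebraically closed field
-/

set_option autoImplicit false

open Polynomial

namespace Pool.Agent.R847.SB

variable {Ω E Γ : Type} [Field Ω] [Field E] [Algebra Ω E] [LinearOrderedCommGroupWithZero Γ]
  (v : Valuation E Γ)

/-- a valuation trivial on constants -/
def Triv (v : Valuation E Γ) (Ω : Type) [Field Ω] [Algebra Ω E] : Prop :=
  ∀ ω : Ω, ω ≠ 0 → v (algebraMap Ω E ω) = 1

variable {v}

lemma Triv.le (h : Triv v Ω) (ω : Ω) : v (algebraMap Ω E ω) ≤ 1 := by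
  by_cases h0 : ω = 0
  · rw [h0, map_zero, map_zero]
    exact zero_le_one
  · exact (h ω h0).le

lemma Triv.zero_of_lt (h : Triv v Ω) (ω : Ω) (hlt : v (algebraMap Ω E ω) < 1) : ω = 0 := by
  by_contra h0
  exact absurd (h ω h0) hlt.ne

lemma aeval_le (h : Triv v Ω) (P : Polynomial Ω) (u : E) (hu : v u ≤ 1) : v (aeval u P) ≤ 1 := by
  rw [aeval_eq_sum_range]
  apply v.map_sum_le
  intro i _
  rw [Algebra.smul_def, v.map_mul, v.map_pow]
  exact mul_le_one' (h.le _) (pow_le_one' hu i)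

lemma pow_sub_le (u w : E) (hu : v u ≤ 1) (hw : v w ≤ 1) (i : ℕ) :
    v (u ^ i - w ^ i) ≤ v (u - w) := by
  rw [← (Commute.all u w).geom_sum₂_mul, v.map_mul]
  apply mul_le_of_le_one_left' 
  apply v.map_sum_le
  intro j _
  rw [v.map_mul, v.map_pow, v.map_pow]
  exact mul_le_one' (pow_le_one' hu _) (pow_le_one' hw _)

lemma aeval_sub_le (h : Triv v Ω) (P : Polynomial Ω) (u w : E) (hu : v u ≤ 1) (hw : v w ≤ 1) :
    v (aeval u P - aeval w P) ≤ v (u - w) := by
  rw [aeval_eq_sum_range, aeval_eq_sum_range, ← Finset.sum_sub_distrib]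
  apply v.map_sum_le
  intro i _
  rw [← smul_sub, Algebra.smul_def, v.map_mul]
  exact (mul_le_of_le_one_left' (h.le _)).trans (pow_sub_le u w hu hw i)

lemma le_one_of_sub_lt (h : Triv v Ω) (u : E) (ω : Ω) (hu : v (u - algebraMap Ω E ω) < 1) :
    v u ≤ 1 := by
  have h1 : u = (u - algebraMap Ω E ω) + algebraMap Ω E ω := by ring
  rw [h1]
  exact v.map_add_le hu.le (h.le ω)

/-- one step of the approximation of a simple root -/
lemma newton_step (h : Triv v Ω) (P : Polynomial Ω) (ω : Ω) (hP : P.eval ω = 0)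
    (hP' : (derivative P).eval ω ≠ 0) (u : E) (hu : v (u - algebraMap Ω E ω) < 1) :
    v (u - aeval u P / aeval u (derivative P) - algebraMap Ω E ω) ≤
      v (u - algebraMap Ω E ω) ^ 2 := by
  have hu1 := le_one_of_sub_lt h u ω hu
  obtain ⟨Q, hQ⟩ := dvd_iff_isRoot.2 hP
  set y := u - algebraMap Ω E ω with hy
  have h1 : aeval u P = y * aeval u Q := by
    rw [hQ, map_mul, map_sub, aeval_X, aeval_C]
  have h2 : aeval u (derivative P) = aeval u Q + y * aeval u (derivative Q) := by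
    rw [hQ, derivative_mul]
    simp [hy]
  have h3 : v (aeval u (derivative P)) = 1 := by
    have h4 := aeval_sub_le h (derivative P) u (algebraMap Ω E ω) hu1 (h.le ω)
    have h5 : aeval (algebraMap Ω E ω) (derivative P) =
        algebraMap Ω E ((derivative P).eval ω) := by
      rw [aeval_algebraMap_apply_eq_algebraMap_eval]
    rw [h5] at h4
    have h6 := h _ hP'
    rw [← h6]
    apply v.map_eq_of_sub_lt
    rw [h6]
    exact h4.trans_lt hu
  have h4 : aeval u (derivative P) ≠ 0 := by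
    intro h0
    rw [h0, map_zero] at h3
    exact zero_ne_one h3
  have h5 : u - aeval u P / aeval u (derivative P) - algebraMap Ω E ω =
      y ^ 2 * aeval u (derivative Q) / aeval u (derivative P) := by
    have : u - aeval u P / aeval u (derivative P) - algebraMap Ω E ω =
        y - aeval u P / aeval u (derivative P) := by
      rw [hy]
      ring
    rw [this]
    field_simp
    rw [h1, h2]
    ring
  rw [h5, map_div₀, h3, div_one, v.map_mul, v.map_pow]
  exact mul_le_of_le_one_right' (aeval_le h _ u hu1)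

/-- iterated approximation of a simple root in a subfield -/
lemma newton_iter {k : Type} [Field k] [Algebra k E] (h : Triv v Ω)
    (K : IntermediateField k E) (P : Polynomial Ω) (ω : Ω) (hP : P.eval ω = 0)
    (hP' : (derivative P).eval ω ≠ 0) (hK : ∀ u ∈ K, aeval u P ∈ K)
    (hK' : ∀ u ∈ K, aeval u (derivative P) ∈ K) (u : E) (huK : u ∈ K)
    (hu : v (u - algebraMap Ω E ω) < 1) (i : ℕ) :
    ∃ u' ∈ K, v (u' - algebraMap Ω E ω) ≤ v (u - algebraMap Ω E ω) ^ (2 ^ i) := by
  induction i with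
  | zero => exact ⟨u, huK, by simp⟩
  | succ i ih =>
    obtain ⟨u', hu', h1⟩ := ih
    have h2 : v (u' - algebraMap Ω E ω) < 1 := by
      apply h1.trans_lt
      apply pow_lt_one' hu
      positivity
    refine ⟨_, sub_mem hu' (div_mem (hK u' hu') (hK' u' hu')), ?_⟩
    refine (newton_step h P ω hP hP' u' h2).trans ?_
    rw [pow_succ 2 i, pow_mul]
    exact pow_le_pow_left' h1 2

/-- Two terms of maximal value in a vanishing sum. -/
lemma np (t : E) (ht : 1 < v t) (n : ℕ) (a : ℕ → E) (g : E) (hg : g ≠ 0)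
    (ha : ∀ i, a i ≠ 0 → ∃ m : ℤ, v (a i) = v t ^ m) (hne : ∃ i ≤ n, a i ≠ 0)
    (h : ∑ i ∈ Finset.range (n + 1), a i * g ^ i = 0) :
    ∃ l, 1 ≤ l ∧ l ≤ n ∧ ∃ m : ℤ, v g ^ l = v t ^ m := by
  classical
  have ht0 : v t ≠ 0 := (zero_lt_one.trans ht).ne'
  have hg0 : v g ≠ 0 := v.ne_zero_iff.2 hg
  obtain ⟨i0, hi0, hmax⟩ := Finset.exists_max_image (Finset.range (n + 1))
    (fun i => v (a i * g ^ i)) ⟨0, by simp⟩
  obtain ⟨i1, hi1, ha1⟩ := hne
  have hpos : v (a i0 * g ^ i0) ≠ 0 := by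
    intro h0
    have h1 := hmax i1 (Finset.mem_range.2 (by omega))
    rw [h0] at h1
    have h2 : v (a i1 * g ^ i1) = 0 := le_antisymm h1 zero_le
    rw [v.zero_iff] at h2
    exact mul_ne_zero ha1 (pow_ne_zero _ hg) h2
  have hex : ∃ j ∈ Finset.range (n + 1), j ≠ i0 ∧ v (a j * g ^ j) = v (a i0 * g ^ i0) := by
    by_contra hno
    push Not at hno
    have h1 := v.map_sum_eq_of_lt (f := fun i => a i * g ^ i) hi0 (by
      intro i hi
      rw [Finset.mem_sdiff, Finset.mem_singleton] at hi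
      exact lt_of_le_of_ne (hmax i hi.1) (hno i hi.1 hi.2))
    rw [h, map_zero] at h1
    exact hpos h1.symm
  obtain ⟨j, hj, hji, hval⟩ := hex
  rw [Finset.mem_range] at hi0 hj
  have key : ∀ a1 a2 : ℕ, a1 < a2 → a2 ≤ n → v (a a1 * g ^ a1) = v (a a2 * g ^ a2) →
      v (a a1 * g ^ a1) ≠ 0 → ∃ l, 1 ≤ l ∧ l ≤ n ∧ ∃ m : ℤ, v g ^ l = v t ^ m := by
    intro a1 a2 h12 h2n hv hv0
    have e1 : a a1 ≠ 0 := by
      intro h0
      rw [h0, zero_mul, map_zero] at hv0
      exact hv0 rfl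
    have e2 : a a2 ≠ 0 := by
      intro h0
      rw [hv, h0, zero_mul, map_zero] at hv0
      exact hv0 rfl
    obtain ⟨m1, hm1⟩ := ha a1 e1
    obtain ⟨m2, hm2⟩ := ha a2 e2
    refine ⟨a2 - a1, by omega, by omega, m1 - m2, ?_⟩
    rw [v.map_mul, v.map_mul, v.map_pow, v.map_pow, hm1, hm2] at hv
    have h3 : v g ^ a2 = v g ^ (a2 - a1) * v g ^ a1 := by
      rw [← pow_add]
      congr 1
      omega
    rw [h3, ← mul_assoc] at hv
    have h4 := mul_right_cancel₀ (pow_ne_zero _ hg0) hv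
    rw [zpow_sub₀ ht0, h4]
    rw [mul_comm, mul_div_assoc, div_self (zpow_ne_zero _ ht0), mul_one]
  rcases lt_or_gt_of_ne hji with hlt | hlt
  · exact key j i0 hlt (by omega) hval (by rw [hval]; exact hpos)
  · exact key i0 j hlt (by omega) hval.symm hpos

/-- zero, or asymptotic to a constant times an integral power of `t` -/
def Rat (v : Valuation E Γ) (Ω : Type) [Field Ω] [Algebra Ω E] (t a : E) : Prop :=
  a = 0 ∨ ∃ (m : ℤ) (c : Ω), c ≠ 0 ∧ v (a * t ^ (-m) - algebraMap Ω E c) < 1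

lemma Rat.val (hΩ : Triv v Ω) {t a : E} (ht : 1 < v t) (h : Rat v Ω t a) (ha : a ≠ 0) :
    ∃ m : ℤ, v a = v t ^ m := by
  have ht0 : v t ≠ 0 := (zero_lt_one.trans ht).ne'
  rcases h with h | ⟨m, c, hc, h⟩
  · exact absurd h ha
  · refine ⟨m, ?_⟩
    have h1 : v (a * t ^ (-m)) = 1 := by
      rw [← hΩ c hc]
      apply v.map_eq_of_sub_lt
      rw [hΩ c hc]
      exact h
    rw [v.map_mul, map_zpow₀, zpow_neg] at h1
    rw [mul_inv_eq_one₀ (zpow_ne_zero _ ht0)] at h1
    exact h1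

lemma rat_poly (hΩ : Triv v Ω) (t : E) (ht : 1 < v t) (P : Polynomial Ω) :
    Rat v Ω t (aeval t P) := by
  by_cases hP : P = 0
  · left
    rw [hP, map_zero]
  · right
    have ht0 : v t ≠ 0 := (zero_lt_one.trans ht).ne'
    have ht0' : t ≠ 0 := v.ne_zero_iff.1 ht0
    refine ⟨P.natDegree, P.leadingCoeff, leadingCoeff_ne_zero.2 hP, ?_⟩
    have h1 : aeval t P * t ^ (-(P.natDegree : ℤ)) - algebraMap Ω E P.leadingCoeff =
        ∑ i ∈ Finset.range P.natDegree,
          algebraMap Ω E (P.coeff i) * (t ^ i * t ^ (-(P.natDegree : ℤ))) := by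
      rw [aeval_eq_sum_range, Finset.sum_range_succ, add_mul, Finset.sum_mul]
      have h2 : P.coeff P.natDegree • t ^ P.natDegree * t ^ (-(P.natDegree : ℤ)) =
          algebraMap Ω E P.leadingCoeff := by
        rw [Algebra.smul_def, mul_assoc, zpow_neg, zpow_natCast,
          mul_inv_cancel₀ (pow_ne_zero _ ht0'), mul_one]
        rfl
      rw [h2, add_sub_cancel_right]
      refine Finset.sum_congr rfl fun i _ => ?_
      rw [Algebra.smul_def, mul_assoc]
    rw [h1]
    apply v.map_sum_lt one_ne_zero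
    intro i hi
    rw [Finset.mem_range] at hi
    rw [v.map_mul]
    refine (mul_le_of_le_one_left' (hΩ.le _)).trans_lt ?_
    rw [← zpow_natCast, ← zpow_add₀ ht0', map_zpow₀]
    apply zpow_lt_one_of_neg₀ ht
    omega

lemma Rat.div (hΩ : Triv v Ω) {t a b : E} (ht : 1 < v t) (ha : Rat v Ω t a)
    (hb : Rat v Ω t b) : Rat v Ω t (a / b) := by
  have ht0 : v t ≠ 0 := (zero_lt_one.trans ht).ne'
  have ht0' : t ≠ 0 := v.ne_zero_iff.1 ht0
  rcases ha with ha | ⟨m, c, hc, ha⟩
  · left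
    rw [ha, zero_div]
  rcases hb with hb | ⟨m', c', hc', hb⟩
  · left
    rw [hb, div_zero]
  right
  refine ⟨m - m', c / c', div_ne_zero hc hc', ?_⟩
  set A := a * t ^ (-m) with hA
  set B := b * t ^ (-m') with hB
  have hB1 : v B = 1 := by
    rw [← hΩ c' hc']
    apply v.map_eq_of_sub_lt
    rw [hΩ c' hc']
    exact hb
  have hB0 : B ≠ 0 := by
    intro h0
    rw [h0, map_zero] at hB1
    exact zero_ne_one hB1
  have hb0 : b ≠ 0 := by
    rintro rfl
    rw [zero_mul] at hB
    exact hB0 hB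
  have hc'E : algebraMap Ω E c' ≠ 0 := (_root_.map_ne_zero _).2 hc'
  have h1 : a / b * t ^ (-(m - m')) - algebraMap Ω E (c / c') =
      ((A - algebraMap Ω E c) * algebraMap Ω E c' - algebraMap Ω E c * (B - algebraMap Ω E c')) /
        (B * algebraMap Ω E c') := by
    have h2 : a / b * t ^ (-(m - m')) = A / B := by
      rw [hA, hB, neg_sub, sub_eq_add_neg, zpow_add₀ ht0', zpow_neg t m']
      field_simp
    rw [h2, map_div₀]
    field_simp
    ring
  rw [h1, map_div₀, v.map_mul B, hB1, hΩ c' hc', mul_one, div_one]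
  apply v.map_sub_lt
  · rw [v.map_mul, hΩ c' hc', mul_one]
    exact ha
  · rw [v.map_mul, hΩ c hc, one_mul]
    exact hb

/-- a residue of an asymptotic root -/
lemma root_res [IsAlgClosed Ω] (hΩ : Triv v Ω) (g : E) (n : ℕ) : ∀ R : Polynomial Ω, R ≠ 0 →
    R.natDegree = n → v (aeval g R) < 1 → ∃ ω : Ω, v (g - algebraMap Ω E ω) < 1 := by
  induction n with
  | zero =>
    intro R hR hd h
    exfalso
    obtain ⟨a, rfl⟩ := natDegree_eq_zero.1 hd
    rw [aeval_C] at h
    have := hΩ.zero_of_lt a h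
    rw [this, C_0] at hR
    exact hR rfl
  | succ n ih =>
    intro R hR hd h
    have hdeg : R.degree ≠ 0 := by
      rw [degree_eq_natDegree hR, hd]
      exact_mod_cast Nat.succ_ne_zero n
    obtain ⟨c, hc⟩ := IsAlgClosed.exists_root R hdeg
    by_cases hz : v (g - algebraMap Ω E c) < 1
    · exact ⟨c, hz⟩
    · rw [not_lt] at hz
      obtain ⟨Q, hQ⟩ := dvd_iff_isRoot.2 hc
      have hQ0 : Q ≠ 0 := by
        rintro rfl
        rw [mul_zero] at hQ
        exact hR hQ
      have hQd : Q.natDegree = n := by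
        rw [hQ, natDegree_mul (X_sub_C_ne_zero c) hQ0, natDegree_X_sub_C] at hd
        omega
      apply ih Q hQ0 hQd
      rw [hQ, map_mul, v.map_mul, map_sub, aeval_X, aeval_C] at h
      exact (le_mul_of_one_le_left' hz).trans_lt h

/-- An element of value at most one with a relation over the rational elements has a residue. -/
lemma res_of_rel [IsAlgClosed Ω] (hΩ : Triv v Ω) (t : E) (ht : 1 < v t) (n : ℕ) (a : ℕ → E)
    (g : E) (hg : v g ≤ 1) (ha : ∀ i, Rat v Ω t (a i)) (hne : ∃ i ≤ n, a i ≠ 0)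
    (h : ∑ i ∈ Finset.range (n + 1), a i * g ^ i = 0) :
    ∃ ω : Ω, v (g - algebraMap Ω E ω) < 1 := by
  classical
  have ht0 : v t ≠ 0 := (zero_lt_one.trans ht).ne'
  have ht0' : t ≠ 0 := v.ne_zero_iff.1 ht0
  have hex : ∀ i, ∃ (m : ℤ) (c : Ω), a i ≠ 0 → c ≠ 0 ∧
      v (a i * t ^ (-m) - algebraMap Ω E c) < 1 := by
    intro i
    rcases ha i with h0 | ⟨m, c, hc, h1⟩
    · exact ⟨0, 0, fun h2 => absurd h0 h2⟩
    · exact ⟨m, c, fun _ => ⟨hc, h1⟩⟩
  choose m c hmc using hex
  set s := (Finset.range (n + 1)).filter fun i => a i ≠ 0 with hs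
  have hsne : s.Nonempty := by
    obtain ⟨i, hi, hai⟩ := hne
    exact ⟨i, Finset.mem_filter.2 ⟨Finset.mem_range.2 (by omega), hai⟩⟩
  obtain ⟨i0, hi0, hmax⟩ := Finset.exists_max_image s m hsne
  rw [hs, Finset.mem_filter] at hi0
  set M := m i0 with hM
  set R : Polynomial Ω := ∑ i ∈ Finset.range (n + 1), C (if a i ≠ 0 ∧ m i = M then c i else 0) * X ^ i
    with hR
  have hcoeff : R.coeff i0 = c i0 := by
    rw [hR, finsetSum_coeff, Finset.sum_eq_single i0]
    · rw [coeff_C_mul, coeff_X_pow_self, mul_one, if_pos ⟨hi0.2, rfl⟩]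
    · intro j _ hj
      rw [coeff_C_mul, coeff_X_pow, if_neg (Ne.symm hj), mul_zero]
    · intro h1
      exact absurd hi0.1 h1
  have hR0 : R ≠ 0 := by
    intro h0
    rw [h0, coeff_zero] at hcoeff
    exact (hmc i0 hi0.2).1 hcoeff.symm
  apply root_res hΩ g _ R hR0 rfl
  have h1 : aeval g R = -∑ i ∈ Finset.range (n + 1), (a i * t ^ (-M) -
      algebraMap Ω E (if a i ≠ 0 ∧ m i = M then c i else 0)) * g ^ i := by
    have h2 : ∑ i ∈ Finset.range (n + 1), a i * t ^ (-M) * g ^ i = 0 := by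
      have h3 := congrArg (fun z => t ^ (-M) * z) h
      simp only [mul_zero, Finset.mul_sum] at h3
      rw [← h3]
      refine Finset.sum_congr rfl fun i _ => ?_
      ring
    simp_rw [sub_mul, Finset.sum_sub_distrib]
    rw [h2, zero_sub, neg_neg, hR, map_sum]
    refine Finset.sum_congr rfl fun i _ => ?_
    rw [map_mul, aeval_C, map_pow, aeval_X]
  rw [h1, v.map_neg]
  apply v.map_sum_lt one_ne_zero
  intro i hi
  rw [v.map_mul, v.map_pow]
  refine mul_lt_one_of_lt_of_le ?_ (pow_le_one' hg i)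
  by_cases hai : a i = 0
  · rw [hai]
    simp
  · obtain ⟨hci, hvi⟩ := hmc i hai
    by_cases hmi : m i = M
    · rw [if_pos ⟨hai, hmi⟩, ← hmi]
      exact hvi
    · rw [if_neg (fun h1 => hmi h1.2), map_zero, sub_zero]
      have hle := hmax i (by rw [hs, Finset.mem_filter]; exact ⟨hi, hai⟩)
      have hlt : m i < M := lt_of_le_of_ne hle hmi
      have h3 : a i * t ^ (-M) = (a i * t ^ (-(m i))) * t ^ (m i - M) := by
        rw [mul_assoc, ← zpow_add₀ ht0']
        congr 2
        ring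
      have h4 : v (a i * t ^ (-(m i))) = 1 := by
        rw [← hΩ _ hci]
        apply v.map_eq_of_sub_lt
        rw [hΩ _ hci]
        exact hvi
      rw [h3, v.map_mul, h4, one_mul, map_zpow₀]
      apply zpow_lt_one_of_neg₀ ht
      omega

end Pool.Agent.R847.SB
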