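import Mathlib
import Pool.Agent.R847.SB.Val

/-!
# The field of sequences along an ultrafilter and the valuation ring of bounded sequences
-/

set_option autoImplicit false

open Filter Topology

namespace Pool.Agent.R847.SB

/-- constants in germs -/
noncomputable instance germAlg {R A : Type} [CommSemiring R] [Semiring A] [Algebra R A]
    (l : Filter ℕ) : Algebra R (Germ l A) where
  algebraMap := (Germ.coeRingHom l).comp (Pi.ringHom fun _ => algebraMap R A)
  commutes' := by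
    intro r x
    induction x using Germ.inductionOn with
    | h x =>
      apply Germ.coe_eq.2
      filter_upwards with n
      exact Algebra.commutes r (x n)
  smul_def' := by
    intro r x
    induction x using Germ.inductionOn with
    | h x =>
      apply Germ.coe_eq.2
      filter_upwards with n
      exact Algebra.smul_def r (x n)

variable {Ω : Type} [NormedField Ω] (U : Ultrafilter ℕ)

lemma germ_const {R A : Type} [CommSemiring R] [Semiring A] [Algebra R A]
    (l : Filter ℕ) (r : R) : algebraMap R (Germ l A) r = ((fun _ => algebraMap R A r : ℕ → A) :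
      Germ l A) := rfl

instance germTower {R S A : Type} [CommSemiring R] [CommSemiring S] [Semiring A] [Algebra R S]
    [Algebra S A] [Algebra R A] [IsScalarTower R S A] (l : Filter ℕ) :
    IsScalarTower R S (Germ l A) := by
  apply IsScalarTower.of_algebraMap_eq
  intro r
  rw [germ_const, germ_const]
  simp_rw [IsScalarTower.algebraMap_apply R S A]

/-- bounded germs -/
def Bd (g : Germ (U : Filter ℕ) Ω) : Prop := ∃ C : ℝ, Germ.LiftPred (fun a : Ω => ‖a‖ ≤ C) g

variable {U}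

lemma bd_coe (G : ℕ → Ω) : Bd U (G : Germ (U : Filter ℕ) Ω) ↔ ∃ C : ℝ, ∀ᶠ n in U, ‖G n‖ ≤ C :=
  Iff.rfl

variable (U Ω) in
/-- the valuation ring of bounded germs -/
noncomputable def bdRing : ValuationSubring (Germ (U : Filter ℕ) Ω) where
  carrier := {g | Bd U g}
  mul_mem' := by
    intro a b
    induction a using Germ.inductionOn with
    | h a =>
    induction b using Germ.inductionOn with
    | h b =>
    rintro ⟨C, hC⟩ ⟨D, hD⟩
    rw [Germ.liftPred_coe] at hC hD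
    refine ⟨C * D, ?_⟩
    show ∀ᶠ n in (U : Filter ℕ), ‖(a * b) n‖ ≤ C * D
    filter_upwards [hC, hD] with n h1 h2
    rw [Pi.mul_apply, norm_mul]
    exact mul_le_mul h1 h2 (norm_nonneg _) ((norm_nonneg _).trans h1)
  one_mem' := ⟨1, by
    show ∀ᶠ n in (U : Filter ℕ), ‖(1 : ℕ → Ω) n‖ ≤ 1
    filter_upwards with n
    simp⟩
  add_mem' := by
    intro a b
    induction a using Germ.inductionOn with
    | h a =>
    induction b using Germ.inductionOn with
    | h b =>
    rintro ⟨C, hC⟩ ⟨D, hD⟩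
    rw [Germ.liftPred_coe] at hC hD
    refine ⟨C + D, ?_⟩
    show ∀ᶠ n in (U : Filter ℕ), ‖(a + b) n‖ ≤ C + D
    filter_upwards [hC, hD] with n h1 h2
    exact (norm_add_le _ _).trans (add_le_add h1 h2)
  zero_mem' := ⟨0, by
    show ∀ᶠ n in (U : Filter ℕ), ‖(0 : ℕ → Ω) n‖ ≤ 0
    filter_upwards with n
    simp⟩
  neg_mem' := by
    intro a
    induction a using Germ.inductionOn with
    | h a =>
    rintro ⟨C, hC⟩
    rw [Germ.liftPred_coe] at hC
    refine ⟨C, ?_⟩
    show ∀ᶠ n in (U : Filter ℕ), ‖(-a) n‖ ≤ C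
    filter_upwards [hC] with n h1
    rwa [Pi.neg_apply, norm_neg]
  mem_or_inv_mem' := by
    intro a
    induction a using Germ.inductionOn with
    | h a =>
    rcases U.em (fun n => ‖a n‖ ≤ 1) with h | h
    · exact Or.inl ⟨1, h⟩
    · right
      refine ⟨1, ?_⟩
      show ∀ᶠ n in (U : Filter ℕ), ‖(a⁻¹) n‖ ≤ 1
      filter_upwards [h] with n hn
      rw [Pi.inv_apply, norm_inv]
      exact inv_le_one_of_one_le₀ (not_le.1 hn).le

lemma mem_bdRing (g : Germ (U : Filter ℕ) Ω) : g ∈ bdRing Ω U ↔ Bd U g := Iff.rfl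

variable (U Ω) in
/-- the valuation of germs -/
noncomputable def vv : Valuation (Germ (U : Filter ℕ) Ω) (bdRing Ω U).ValueGroup :=
  (bdRing Ω U).valuation

lemma vv_le_one (g : Germ (U : Filter ℕ) Ω) : vv Ω U g ≤ 1 ↔ Bd U g := by
  unfold vv
  rw [ValuationSubring.valuation_le_one_iff]
  rfl

lemma coe_ne_zero (G : ℕ → Ω) : ((G : Germ (U : Filter ℕ) Ω) ≠ 0) ↔ ∀ᶠ n in U, G n ≠ 0 := by
  rw [Ultrafilter.eventually_not]
  apply not_congr
  exact Germ.coe_eq

lemma vv_le (G H : ℕ → Ω) (hH : ∀ᶠ n in U, H n ≠ 0) :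
    vv Ω U (G : Germ (U : Filter ℕ) Ω) ≤ vv Ω U (H : Germ (U : Filter ℕ) Ω) ↔
      ∃ C : ℝ, ∀ᶠ n in U, ‖G n‖ ≤ C * ‖H n‖ := by
  have hH0 : (H : Germ (U : Filter ℕ) Ω) ≠ 0 := (coe_ne_zero H).2 hH
  have hvH : 0 < vv Ω U (H : Germ (U : Filter ℕ) Ω) := (vv Ω U).pos_iff.2 hH0
  have h1 : vv Ω U (G : Germ (U : Filter ℕ) Ω) ≤ vv Ω U (H : Germ (U : Filter ℕ) Ω) ↔
      vv Ω U ((G / H : ℕ → Ω) : Germ (U : Filter ℕ) Ω) ≤ 1 := by
    rw [Germ.coe_div, map_div₀, div_le_one₀ hvH]
  rw [h1, vv_le_one, bd_coe]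
  apply exists_congr
  intro C
  apply eventually_congr
  filter_upwards [hH] with n hn
  rw [Pi.div_apply, norm_div, div_le_iff₀ (norm_pos_iff.2 hn)]

lemma vv_lt_one (G : ℕ → Ω) (h : Tendsto G U (𝓝 0)) :
    vv Ω U (G : Germ (U : Filter ℕ) Ω) < 1 := by
  by_contra hno
  rw [not_lt, ← map_one (vv Ω U)] at hno
  have h0 : ∀ᶠ n in U, G n ≠ 0 := by
    rw [Ultrafilter.eventually_not]
    intro h1
    have h2 : (G : Germ (U : Filter ℕ) Ω) = 0 := Germ.coe_eq.2 h1
    rw [h2, map_zero, map_one] at hno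
    exact absurd hno (not_le.2 zero_lt_one)
  have h1 : ((1 : ℕ → Ω) : Germ (U : Filter ℕ) Ω) = 1 := rfl
  rw [← h1, vv_le _ _ h0] at hno
  obtain ⟨C, hC⟩ := hno
  have h2 : Tendsto (fun n => C * ‖G n‖) U (𝓝 0) := by
    have := h.norm.const_mul C
    simpa using this
  obtain ⟨n, e1, e2⟩ := (hC.and (h2.eventually (gt_mem_nhds zero_lt_one))).exists
  simp only [Pi.one_apply, norm_one] at e1
  linarith

lemma triv_vv {Ω' : Type} [Field Ω'] [Algebra Ω' Ω] : Triv (vv Ω U) Ω' := by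
  intro ω hω
  have h0 : ∀ᶠ n in (U : Filter ℕ), (fun _ : ℕ => algebraMap Ω' Ω ω) n ≠ 0 := by
    filter_upwards with n
    exact (map_ne_zero _).2 hω
  rw [germ_const]
  have h1 : ((fun _ => 1 : ℕ → Ω) : Germ (U : Filter ℕ) Ω) = 1 := rfl
  apply le_antisymm
  · rw [← map_one (vv Ω U), ← h1, vv_le _ _ (by simp)]
    exact ⟨‖algebraMap Ω' Ω ω‖, by simp⟩
  · rw [← map_one (vv Ω U), ← h1, vv_le _ _ h0]
    refine ⟨‖algebraMap Ω' Ω ω‖⁻¹, ?_⟩
    filter_upwards with n
    have : ‖algebraMap Ω' Ω ω‖ ≠ 0 := norm_ne_zero_iff.2 ((map_ne_zero _).2 hω)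
    rw [norm_one, inv_mul_cancel₀ this]

lemma one_lt_vv (G : ℕ → Ω) (h : Tendsto (fun n => ‖G n‖) U atTop) :
    1 < vv Ω U (G : Germ (U : Filter ℕ) Ω) := by
  by_contra hno
  rw [not_lt, vv_le_one, bd_coe] at hno
  obtain ⟨C, hC⟩ := hno
  obtain ⟨n, e1, e2⟩ := (hC.and (h.eventually_gt_atTop C)).exists
  linarith

end Pool.Agent.R847.SB
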