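import Mathlib
import Pool.Agent.R847.SB.Val

/-!
# Values and residues on a function field of transcendence degree one
-/

set_option autoImplicit false

open Polynomial

namespace Pool.Agent.R847.SB

section rel

variable {κ E : Type} [Field κ] [Field E] [Algebra κ E]

/-- relations of bounded degree over the rational functions -/
lemma exists_rel {ι : Type} [Finite ι] (t : E) (p : ι → E)
    (halg : ∀ i, IsAlgebraic (IntermediateField.adjoin κ {t}) (p i)) :
    ∃ n, 1 ≤ n ∧ ∀ g ∈ IntermediateField.adjoin κ (Set.range p),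
      ∃ a : ℕ → E, (∀ i, a i ∈ IntermediateField.adjoin κ {t}) ∧ (∃ i ≤ n, a i ≠ 0) ∧
        ∑ i ∈ Finset.range (n + 1), a i * g ^ i = 0 := by
  classical
  set F0 := IntermediateField.adjoin κ {t} with hF0
  set F1 : IntermediateField F0 E := IntermediateField.adjoin F0 (Set.range p) with hF1
  have hfd : FiniteDimensional F0 F1 := by
    apply IntermediateField.finiteDimensional_adjoin
    rintro _ ⟨i, rfl⟩
    exact (halg i).isIntegral
  refine ⟨Module.finrank F0 F1, Module.finrank_pos, fun g hg => ?_⟩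
  have hle : IntermediateField.adjoin κ (Set.range p) ≤ F1.restrictScalars κ := by
    rw [IntermediateField.adjoin_le_iff]
    exact IntermediateField.subset_adjoin F0 _
  have hg1 : g ∈ F1 := hle hg
  set g' : F1 := ⟨g, hg1⟩ with hg'
  have hint : IsIntegral F0 g' := IsIntegral.of_finite F0 g'
  set μ := minpoly F0 g' with hμ
  have hmon : μ.Monic := minpoly.monic hint
  have hdeg : μ.natDegree ≤ Module.finrank F0 F1 := minpoly.natDegree_le g'
  refine ⟨fun i => (μ.coeff i : E), fun i => (μ.coeff i).2, ⟨μ.natDegree, hdeg, ?_⟩, ?_⟩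
  · show ((μ.coeff μ.natDegree : F0) : E) ≠ 0
    rw [hmon.coeff_natDegree]
    exact one_ne_zero
  · have h1 : aeval g μ = 0 := by
      have h2 := congrArg (algebraMap F1 E) (minpoly.aeval F0 g')
      rw [map_zero, ← aeval_algebraMap_apply] at h2
      exact h2
    rw [aeval_eq_sum_range' (lt_of_le_of_lt hdeg (Nat.lt_succ_self _))] at h1
    rw [← h1]
    refine Finset.sum_congr rfl fun i _ => ?_
    rw [Algebra.smul_def]
    rfl

end rel

variable {k Ω E Γ : Type} [Field k] [Field Ω] [Field E] [Algebra k Ω] [Algebra Ω E] [Algebra k E]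
  [IsScalarTower k Ω E] [LinearOrderedCommGroupWithZero Γ] {v : Valuation E Γ}

lemma rat_adjoin (hΩ : Triv v Ω) (t : E) (ht : 1 < v t) (a : E)
    (ha : a ∈ IntermediateField.adjoin k {t}) : Rat v Ω t a := by
  rw [IntermediateField.mem_adjoin_simple_iff] at ha
  obtain ⟨r, s, rfl⟩ := ha
  have h1 : ∀ q : Polynomial k, aeval t q = aeval t (q.map (algebraMap k Ω)) := fun q =>
    (aeval_map_algebraMap Ω t q).symm
  rw [h1 r, h1 s]
  exact (rat_poly hΩ t ht _).div hΩ ht (rat_poly hΩ t ht _)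

lemma alg_up (t x : E) (h : IsAlgebraic (IntermediateField.adjoin k {t}) x) :
    IsAlgebraic (IntermediateField.adjoin Ω {t}) x := by
  obtain ⟨q, hq0, hq⟩ := h
  have hle : IntermediateField.adjoin k {t} ≤
      (IntermediateField.adjoin Ω {t}).restrictScalars k := by
    rw [IntermediateField.adjoin_le_iff]
    exact IntermediateField.subset_adjoin Ω _
  let φ : IntermediateField.adjoin k {t} →+* IntermediateField.adjoin Ω {t} :=
    (IntermediateField.inclusion hle).toRingHom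
  have hφ : ∀ a, (φ a : E) = (a : E) := fun a => rfl
  refine ⟨q.map φ, (Polynomial.map_ne_zero_iff φ.injective).2 hq0, ?_⟩
  rw [aeval_def, eval₂_map]
  rw [aeval_def] at hq
  rw [← hq]
  rfl

/-- the situation at a branch at infinity -/
structure Sys (k Ω : Type) {E Γ ι : Type} [Field k] [Field Ω] [Field E] [Algebra k Ω]
    [Algebra Ω E] [Algebra k E] [LinearOrderedCommGroupWithZero Γ] (v : Valuation E Γ)
    (p : ι → E) (i0 : ι) : Prop where
  triv : Triv v Ω
  ht : 1 < v (p i0)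
  halg : ∀ i, IsAlgebraic (IntermediateField.adjoin k {p i0}) (p i)
  hle : ∀ i, v (p i) ≤ v (p i0)

variable {ι : Type} [Finite ι] {p : ι → E} {i0 : ι}

lemma Sys.np_k (S : Sys k Ω v p i0) : ∃ n, 1 ≤ n ∧
    ∀ g ∈ IntermediateField.adjoin k (Set.range p), g ≠ 0 →
      ∃ l, 1 ≤ l ∧ l ≤ n ∧ ∃ m : ℤ, v g ^ l = v (p i0) ^ m := by
  obtain ⟨n, hn, h⟩ := exists_rel (κ := k) (p i0) p S.halg
  refine ⟨n, hn, fun g hg hg0 => ?_⟩
  obtain ⟨a, ha, hne, hrel⟩ := h g hg
  exact np (p i0) S.ht n a g hg0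
    (fun i hi => (rat_adjoin (k := k) S.triv _ S.ht _ (ha i)).val S.triv S.ht hi) hne hrel

omit [Finite ι] in
lemma Sys.up (S : Sys k Ω v p i0) : Sys Ω Ω v p i0 :=
  ⟨S.triv, S.ht, fun i => alg_up (k := k) _ _ (S.halg i), S.hle⟩

lemma Sys.res (S : Sys k Ω v p i0) [IsAlgClosed Ω] :
    ∀ g ∈ IntermediateField.adjoin Ω (Set.range p), v g ≤ 1 →
      ∃ ω : Ω, v (g - algebraMap Ω E ω) < 1 := by
  obtain ⟨n, hn, h⟩ := exists_rel (κ := Ω) (p i0) p S.up.halg
  intro g hg hg1
  obtain ⟨a, ha, hne, hrel⟩ := h g hg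
  exact res_of_rel S.triv (p i0) S.ht n a g hg1
    (fun i => rat_adjoin (k := Ω) S.triv _ S.ht _ (ha i)) hne hrel

variable (k Ω p) in
omit [Finite ι] [LinearOrderedCommGroupWithZero Γ] in
lemma K_le : IntermediateField.adjoin k (Set.range p) ≤
    (IntermediateField.adjoin Ω (Set.range p)).restrictScalars k := by
  rw [IntermediateField.adjoin_le_iff]
  exact IntermediateField.subset_adjoin Ω _

lemma lt_one_zpow {τ : Γ} (hτ : 1 < τ) (m : ℤ) (h : τ ^ m < 1) : m < 0 := by
  by_contra hno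
  rw [not_lt] at hno
  exact absurd (one_le_zpow₀ hτ.le hno) (not_le.2 h)

/-- a small element is at most a negative power of the large element -/
lemma small_pow {τ δ : Γ} (hτ : 1 < τ) (hδ : δ < 1) (l : ℕ) (m : ℤ) (hl : 1 ≤ l)
    (h : δ ^ l = τ ^ m) (M : ℕ) : δ ^ (2 ^ (l * M)) * τ ^ M ≤ 1 := by
  have hτ0 : τ ≠ 0 := (zero_lt_one.trans hτ).ne'
  have h1 : δ ^ l < 1 := pow_lt_one' hδ (by omega)
  rw [h] at h1
  have h2 : m ≤ -1 := by
    have := lt_one_zpow hτ m h1
    omega
  have h3 : δ ^ l ≤ τ⁻¹ := by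
    rw [h, ← zpow_neg_one]
    exact zpow_le_zpow_right₀ hτ.le h2
  have h4 : δ ^ (2 ^ (l * M)) ≤ (τ⁻¹) ^ M := by
    calc δ ^ (2 ^ (l * M)) ≤ δ ^ (l * M) := pow_le_pow_right_of_le_one' hδ.le Nat.lt_two_pow_self.le
      _ = (δ ^ l) ^ M := pow_mul _ _ _
      _ ≤ (τ⁻¹) ^ M := pow_le_pow_left' h3 M
  calc δ ^ (2 ^ (l * M)) * τ ^ M ≤ (τ⁻¹) ^ M * τ ^ M := mul_le_mul_left h4 _
    _ = 1 := by rw [← mul_pow, inv_mul_cancel₀ hτ0, one_pow]

omit [Finite ι] [LinearOrderedCommGroupWithZero Γ] [Algebra k Ω] [Field Ω] [Algebra Ω E] [IsScalarTower k Ω E] in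
lemma aeval_memK (K : IntermediateField k E) (u : E) (hu : u ∈ K) (q : Polynomial k) :
    aeval u q ∈ K := by
  rw [aeval_eq_sum_range]
  apply sum_mem
  intro i _
  exact K.smul_mem (pow_mem hu i)

/-- approximation of residues -/
lemma Sys.approx [CharZero k] [Algebra.IsAlgebraic k Ω] (S : Sys k Ω v p i0) (ω : Ω) (u : E)
    (hu : u ∈ IntermediateField.adjoin k (Set.range p)) (h : v (u - algebraMap Ω E ω) < 1)
    (M : ℕ) : ∃ u' ∈ IntermediateField.adjoin k (Set.range p),
      v (u' - algebraMap Ω E ω) * v (p i0) ^ M ≤ 1 := by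
  by_cases h0 : u - algebraMap Ω E ω = 0
  · refine ⟨u, hu, ?_⟩
    rw [h0, map_zero, zero_mul]
    exact zero_le_one
  obtain ⟨n, hn, hnp⟩ := S.up.np_k
  obtain ⟨l, hl, _, m, hm⟩ := hnp (u - algebraMap Ω E ω)
    (sub_mem (K_le k Ω p hu) (IntermediateField.algebraMap_mem _ ω)) h0
  set P : Polynomial Ω := (minpoly k ω).map (algebraMap k Ω) with hP
  have hint : IsIntegral k ω := (Algebra.IsAlgebraic.isAlgebraic ω).isIntegral
  have hPω : P.eval ω = 0 := by
    rw [hP, eval_map, ← aeval_def]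
    exact minpoly.aeval k ω
  have hPω' : (derivative P).eval ω ≠ 0 := by
    rw [hP, derivative_map, eval_map, ← aeval_def]
    exact (minpoly.irreducible hint).separable.aeval_derivative_ne_zero (minpoly.aeval k ω)
  obtain ⟨u', hu', h1⟩ := newton_iter S.triv (IntermediateField.adjoin k (Set.range p)) P ω hPω
    hPω' (fun w hw => by
      rw [hP, aeval_map_algebraMap]
      exact aeval_memK _ w hw _) (fun w hw => by
      rw [hP, derivative_map, aeval_map_algebraMap]
      exact aeval_memK _ w hw _) u hu h (l * M)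
  refine ⟨u', hu', ?_⟩
  refine le_trans ?_ (small_pow S.ht h l m hl hm M)
  exact mul_le_mul_left h1 _

end Pool.Agent.R847.SB
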