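import Mathlib
import Pool.Agent.R847.SB.Fun

/-!
# Values of linear combinations with constant coefficients
-/

set_option autoImplicit false

open Polynomial

namespace Pool.Agent.R847.SB

variable {k Ω E Γ : Type} [Field k] [Field Ω] [Field E] [Algebra k Ω] [Algebra Ω E] [Algebra k E]
  [IsScalarTower k Ω E] [LinearOrderedCommGroupWithZero Γ] {v : Valuation E Γ}
  {ι : Type} [Finite ι] {p : ι → E} {i0 : ι}

/-- a nonzero element is not smaller than all negative powers of the large element -/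
lemma exists_lt {τ γ : Γ} (hτ : 1 < τ) (hγ : γ ≠ 0) (l : ℕ) (m : ℤ) (hl : 1 ≤ l)
    (h : γ ^ l = τ ^ m) : ∃ M : ℕ, 1 < γ * τ ^ M := by
  have hτ0 : τ ≠ 0 := (zero_lt_one.trans hτ).ne'
  refine ⟨m.natAbs + 1, ?_⟩
  by_contra hno
  rw [not_lt] at hno
  have h1 : (γ * τ ^ (m.natAbs + 1)) ^ l ≤ 1 := pow_le_one' hno l
  rw [mul_pow, h, ← pow_mul, ← zpow_natCast, ← zpow_add₀ hτ0] at h1
  have h2 : 1 < τ ^ (m + (((m.natAbs + 1) * l : ℕ) : ℤ)) := by
    apply one_lt_zpow₀ hτ
    have h3 : (m.natAbs + 1) ≤ (m.natAbs + 1) * l := Nat.le_mul_of_pos_right _ hl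
    generalize (m.natAbs + 1) * l = X at h3 ⊢
    omega
  exact absurd h1 (not_le.2 h2)

/-- The values of the combinations of elements of the field with constant coefficients are values
of elements of the field. -/
lemma Sys.dval [CharZero k] [Algebra.IsAlgebraic k Ω] [IsAlgClosed Ω] (S : Sys k Ω v p i0)
    (n : ℕ) : ∀ (s : Finset ℕ), s.card = n → ∀ (ω : ℕ → Ω) (g : ℕ → E),
      (∀ i ∈ s, g i ∈ IntermediateField.adjoin k (Set.range p)) →
      ∑ i ∈ s, algebraMap Ω E (ω i) * g i ≠ 0 →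
      ∃ h ∈ IntermediateField.adjoin k (Set.range p), h ≠ 0 ∧
        v h = v (∑ i ∈ s, algebraMap Ω E (ω i) * g i) := by
  classical
  induction n with
  | zero =>
    intro s hs ω g _ hne
    rw [Finset.card_eq_zero] at hs
    rw [hs] at hne
    simp at hne
  | succ n ih =>
    intro s hs ω g hg hne
    set K := IntermediateField.adjoin k (Set.range p) with hK
    have hsne : s.Nonempty := Finset.card_pos.1 (by omega)
    obtain ⟨i0', hi0, hmax⟩ := Finset.exists_max_image s (fun i => v (g i)) hsne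
    have hg0 : g i0' ≠ 0 := by
      intro h0
      apply hne
      apply Finset.sum_eq_zero
      intro i hi
      have h1 := hmax i hi
      simp only [h0, map_zero] at h1
      have h2 : g i = 0 := v.zero_iff.1 (le_antisymm h1 zero_le)
      rw [h2, mul_zero]
    have hv0 : v (g i0') ≠ 0 := v.ne_zero_iff.2 hg0
    set u : ℕ → E := fun i => g i / g i0' with hu
    have huK : ∀ i ∈ s, u i ∈ K := fun i hi => div_mem (hg i hi) (hg i0' hi0)
    have hu1 : ∀ i ∈ s, v (u i) ≤ 1 := by
      intro i hi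
      rw [hu]
      simp only [map_div₀]
      exact div_le_one_of_le₀ (hmax i hi) zero_le
    have hres : ∀ i, ∃ ρ : Ω, i ∈ s → v (u i - algebraMap Ω E ρ) < 1 := by
      intro i
      by_cases hi : i ∈ s
      · obtain ⟨ρ, hρ⟩ := S.res (u i) (K_le k Ω p (huK i hi)) (hu1 i hi)
        exact ⟨ρ, fun _ => hρ⟩
      · exact ⟨0, fun h => absurd h hi⟩
    choose ρ' hρ' using hres
    set ρ : ℕ → Ω := fun i => if i = i0' then 1 else ρ' i with hρ
    have hui0 : u i0' = 1 := div_self hg0
    have hρ1 : ∀ i ∈ s, v (u i - algebraMap Ω E (ρ i)) < 1 := by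
      intro i hi
      by_cases h : i = i0'
      · rw [h, hui0, hρ]
        simp
      · rw [hρ]
        simp only [h, if_false]
        exact hρ' i hi
    set G := ∑ i ∈ s, algebraMap Ω E (ω i) * u i with hG
    have hGg : ∑ i ∈ s, algebraMap Ω E (ω i) * g i = G * g i0' := by
      rw [hG, Finset.sum_mul]
      refine Finset.sum_congr rfl fun i _ => ?_
      rw [hu]
      simp only
      field_simp
    have hGne : G ≠ 0 := by
      intro h0
      apply hne
      rw [hGg, h0, zero_mul]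
    have hsplit : G = algebraMap Ω E (∑ i ∈ s, ω i * ρ i) +
        ∑ i ∈ s, algebraMap Ω E (ω i) * (u i - algebraMap Ω E (ρ i)) := by
      rw [hG, map_sum, ← Finset.sum_add_distrib]
      refine Finset.sum_congr rfl fun i _ => ?_
      rw [map_mul]
      ring
    by_cases hσ : ∑ i ∈ s, ω i * ρ i = 0
    · -- the leading parts cancel
      rw [hσ, map_zero, zero_add, ← Finset.add_sum_erase s _ hi0, hui0, hρ] at hsplit
      simp only [if_true, map_one, sub_self, mul_zero, zero_add] at hsplit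
      have hGK : G ∈ IntermediateField.adjoin Ω (Set.range p) := by
        rw [hG]
        apply sum_mem
        intro i hi
        exact mul_mem (IntermediateField.algebraMap_mem _ _) (K_le k Ω p (huK i hi))
      obtain ⟨n1, _, hnp⟩ := S.up.np_k
      obtain ⟨l, hl, _, m, hm⟩ := hnp G hGK hGne
      obtain ⟨M, hM⟩ := exists_lt S.ht (v.ne_zero_iff.2 hGne) l m hl hm
      have hτ0 : v (p i0) ≠ 0 := (zero_lt_one.trans S.ht).ne'
      have happ : ∀ i, ∃ r : E, i ∈ s → r ∈ K ∧ v (r - algebraMap Ω E (ρ' i)) < v G := by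
        intro i
        by_cases hi : i ∈ s
        · obtain ⟨r, hr, hr1⟩ := S.approx (ρ' i) (u i) (huK i hi) (hρ' i hi) M
          refine ⟨r, fun _ => ⟨hr, ?_⟩⟩
          have h1 : v (r - algebraMap Ω E (ρ' i)) * v (p i0) ^ M < v G * v (p i0) ^ M :=
            hr1.trans_lt hM
          by_contra hno
          rw [not_lt] at hno
          exact absurd h1 (not_lt.2 (mul_le_mul_left hno _))
        · exact ⟨0, fun h => absurd h hi⟩
      choose r hr using happ
      set g' : ℕ → E := fun i => u i - r i with hg'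
      set G' := ∑ i ∈ s.erase i0', algebraMap Ω E (ω i) * g' i with hG'
      have hdiff : v (G' - G) < v G := by
        have h1 : G' - G = -∑ i ∈ s.erase i0', algebraMap Ω E (ω i) *
            (r i - algebraMap Ω E (ρ' i)) := by
          rw [hsplit, hG', ← Finset.sum_sub_distrib, ← Finset.sum_neg_distrib]
          refine Finset.sum_congr rfl fun i hi => ?_
          rw [if_neg (Finset.ne_of_mem_erase hi), hg']
          ring
        rw [h1, v.map_neg]
        apply v.map_sum_lt (v.ne_zero_iff.2 hGne)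
        intro i hi
        rw [v.map_mul]
        exact (mul_le_of_le_one_left' (S.triv.le _)).trans_lt
          (hr i (Finset.mem_of_mem_erase hi)).2
      have hvG' : v G' = v G := v.map_eq_of_sub_lt hdiff
      have hG'ne : G' ≠ 0 := by
        intro h0
        rw [h0, map_zero] at hvG'
        exact (v.ne_zero_iff.2 hGne) hvG'.symm
      obtain ⟨h, hhK, hh0, hh⟩ := ih (s.erase i0') (by
        rw [Finset.card_erase_of_mem hi0, hs]
        rfl) ω g' (by
        intro i hi
        have hi' := Finset.mem_of_mem_erase hi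
        exact sub_mem (huK i hi') (hr i hi').1) hG'ne
      refine ⟨h * g i0', mul_mem hhK (hg i0' hi0), mul_ne_zero hh0 hg0, ?_⟩
      rw [hGg, v.map_mul, v.map_mul, hh]
      congr 1
    · refine ⟨g i0', hg i0' hi0, hg0, ?_⟩
      rw [hGg, v.map_mul]
      have h1 : v G = 1 := by
        rw [← S.triv _ hσ, hsplit]
        apply v.map_add_eq_of_lt_left
        rw [S.triv _ hσ]
        apply v.map_sum_lt one_ne_zero
        intro i hi
        rw [v.map_mul]
        exact (mul_le_of_le_one_left' (S.triv.le _)).trans_lt (hρ1 i hi)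
      rw [h1, one_mul]

/-- The value group is cyclic. -/
lemma Sys.cyc (S : Sys k Ω v p i0) :
    ∃ π ∈ IntermediateField.adjoin k (Set.range p), 1 < v π ∧
      ∀ g ∈ IntermediateField.adjoin k (Set.range p), g ≠ 0 → ∃ z : ℤ, v g = v π ^ z := by
  classical
  set K := IntermediateField.adjoin k (Set.range p) with hK
  obtain ⟨n, hn, hnp⟩ := S.np_k
  set τ := v (p i0) with hτ
  have hτ1 : 1 < τ := S.ht
  have hτ0 : τ ≠ 0 := (zero_lt_one.trans hτ1).ne'
  set n' := n.factorial with hn'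
  have hn'0 : n' ≠ 0 := Nat.factorial_ne_zero n
  have hz : ∀ g ∈ K, g ≠ 0 → ∃ z : ℤ, v g ^ n' = τ ^ z := by
    intro g hg hg0
    obtain ⟨l, hl, hln, m, hm⟩ := hnp g hg hg0
    obtain ⟨c, hc⟩ := Nat.dvd_factorial hl hln
    refine ⟨m * c, ?_⟩
    rw [hn', hc, pow_mul, hm, zpow_mul, zpow_natCast]
  have hinj : ∀ a b : ℤ, τ ^ a = τ ^ b → a = b := fun a b h => zpow_right_injective₀
    (zero_lt_one.trans hτ1) hτ1.ne' h
  have htK : p i0 ∈ K := IntermediateField.subset_adjoin k _ ⟨i0, rfl⟩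
  have ht0 : p i0 ≠ 0 := v.ne_zero_iff.1 hτ0
  have hex : ∃ m : ℕ, 0 < m ∧ ∃ g ∈ K, g ≠ 0 ∧ v g ^ n' = τ ^ m :=
    ⟨n', Nat.pos_of_ne_zero hn'0, p i0, htK, ht0, rfl⟩
  obtain ⟨hm0, π, hπK, hπ0, hπ⟩ := Nat.find_spec hex
  set m := Nat.find hex with hm
  have hπv0 : v π ≠ 0 := v.ne_zero_iff.2 hπ0
  have hπ1 : 1 < v π := by
    by_contra hno
    rw [not_lt] at hno
    have h1 : v π ^ n' ≤ 1 := pow_le_one' hno n'
    rw [hπ] at h1
    exact absurd h1 (not_le.2 (one_lt_pow₀ hτ1 hm0.ne'))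
  refine ⟨π, hπK, hπ1, fun g hg hg0 => ?_⟩
  obtain ⟨z, hz1⟩ := hz g hg hg0
  refine ⟨z / m, ?_⟩
  have hmz : (0 : ℤ) < m := by exact_mod_cast hm0
  set r := z % (m : ℤ) with hr
  have hr0 : 0 ≤ r := Int.emod_nonneg _ hmz.ne'
  have hrm : r < m := Int.emod_lt_of_pos _ hmz
  set h := g * π ^ (-(z / (m : ℤ))) with hh
  have hhK : h ∈ K := mul_mem hg (zpow_mem hπK _)
  have hh0 : h ≠ 0 := mul_ne_zero hg0 (zpow_ne_zero _ hπ0)
  have hvh : v h ^ n' = τ ^ r := by
    have e1 : (v π ^ (-(z / (m : ℤ)))) ^ n' = τ ^ (-(z / (m : ℤ)) * m) := by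
      rw [← zpow_natCast, ← zpow_mul, mul_comm (-(z / (m : ℤ))) (n' : ℤ), zpow_mul, zpow_natCast,
        hπ, ← zpow_natCast, ← zpow_mul, mul_comm]
    rw [hh, v.map_mul, mul_pow, hz1, map_zpow₀, e1, ← zpow_add₀ hτ0]
    congr 1
    have := Int.emod_add_mul_ediv z m
    rw [hr]
    linarith
  have hr00 : r = 0 := by
    by_contra hne
    have hrpos : 0 < r := lt_of_le_of_ne hr0 (Ne.symm hne)
    have h1 : ¬ (0 < r.toNat ∧ ∃ g ∈ K, g ≠ 0 ∧ v g ^ n' = τ ^ r.toNat) :=
      Nat.find_min hex (by omega)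
    apply h1
    refine ⟨by omega, h, hhK, hh0, ?_⟩
    rw [hvh, ← zpow_natCast]
    congr 1
    omega
  rw [hr00, zpow_zero] at hvh
  have hvh1 : v h = 1 := by
    rcases lt_trichotomy (v h) 1 with h1 | h1 | h1
    · exact absurd hvh (pow_lt_one' h1 hn'0).ne
    · exact h1
    · exact absurd hvh (one_lt_pow₀ h1 hn'0).ne'
  rw [hh, v.map_mul, map_zpow₀, zpow_neg] at hvh1
  exact (mul_inv_eq_one₀ (zpow_ne_zero _ hπv0)).1 hvh1

end Pool.Agent.R847.SB
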