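import Mathlib
import Pool.Agent.R847.SB.Dval
import Pool.Agent.R847.SG.Flag

/-!
# Upper and lower bounds for spaces of polynomials on a branch
-/

set_option autoImplicit false

namespace Pool.Agent.R847.SB

variable {k Ω E Γ : Type} [Field k] [Field Ω] [Field E] [Algebra k Ω] [Algebra Ω E] [Algebra k E]
  [IsScalarTower k Ω E] [LinearOrderedCommGroupWithZero Γ] {v : Valuation E Γ}
  {ι : Type} [Finite ι] {p : ι → E} {i0 : ι}

/-- the combination of elements with constant coefficients -/
noncomputable def comb {r : ℕ} (g : Fin r → E) (c : Fin r → Ω) : E :=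
  ∑ e, algebraMap Ω E (c e) * g e

omit [Field k] [Algebra k Ω] [Algebra k E] [IsScalarTower k Ω E] in
lemma comb_add {r : ℕ} (g : Fin r → E) (c c' : Fin r → Ω) :
    comb g (c + c') = comb g c + comb g c' := by
  unfold comb
  rw [← Finset.sum_add_distrib]
  refine Finset.sum_congr rfl fun e _ => ?_
  rw [Pi.add_apply, map_add]
  ring

omit [Field k] [Algebra k Ω] [Algebra k E] [IsScalarTower k Ω E] in
lemma comb_smul {r : ℕ} (g : Fin r → E) (a : Ω) (c : Fin r → Ω) :
    comb g (a • c) = algebraMap Ω E a * comb g c := by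
  unfold comb
  rw [Finset.mul_sum]
  refine Finset.sum_congr rfl fun e _ => ?_
  rw [Pi.smul_apply, smul_eq_mul, map_mul]
  ring

/-- the filtration of the space of combinations by the value -/
def filt (hΩ : Triv v Ω) {r : ℕ} (g : Fin r → E) (π : E) (y : Γ) (a : ℕ) :
    Submodule Ω (Fin r → Ω) where
  carrier := {c | v (comb g c) * v π ^ a ≤ y}
  zero_mem' := by
    have h1 : comb g (0 : Fin r → Ω) = 0 := by
      unfold comb
      simp
    show v (comb g (0 : Fin r → Ω)) * v π ^ a ≤ y
    rw [h1, map_zero, zero_mul]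
    exact zero_le
  add_mem' := by
    intro c c' hc hc'
    have hc1 : v (comb g c) * v π ^ a ≤ y := hc
    have hc2 : v (comb g c') * v π ^ a ≤ y := hc'
    show v (comb g (c + c')) * v π ^ a ≤ y
    rw [comb_add]
    rcases le_max_iff.1 (v.map_add (comb g c) (comb g c')) with h | h
    · exact (mul_le_mul_left h _).trans hc1
    · exact (mul_le_mul_left h _).trans hc2
  smul_mem' := by
    intro ω c hc
    have hc1 : v (comb g c) * v π ^ a ≤ y := hc
    show v (comb g (ω • c)) * v π ^ a ≤ y
    rw [comb_smul, v.map_mul]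
    exact (mul_le_mul_left (mul_le_of_le_one_left' (hΩ.le ω)) _).trans hc1

lemma mem_filt (hΩ : Triv v Ω) {r : ℕ} (g : Fin r → E) (π : E) (y : Γ) (a : ℕ)
    (c : Fin r → Ω) : c ∈ filt hΩ g π y a ↔ v (comb g c) * v π ^ a ≤ y := Iff.rfl

/-- The filtration has codimension at most one in each step. -/
lemma Sys.func [CharZero k] [Algebra.IsAlgebraic k Ω] [IsAlgClosed Ω] (S : Sys k Ω v p i0)
    (π : E) (hπ1 : 1 < v π)
    (hcyc : ∀ g ∈ IntermediateField.adjoin k (Set.range p), g ≠ 0 → ∃ z : ℤ, v g = v π ^ z)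
    {r : ℕ} (g : Fin r → E) (hg : ∀ e, g e ∈ IntermediateField.adjoin k (Set.range p))
    (Y : ℤ) (a : ℕ) : ∃ φ : (Fin r → Ω) →ₗ[Ω] Ω, ∀ c ∈ filt S.triv g π (v π ^ Y) a,
      φ c = 0 → c ∈ filt S.triv g π (v π ^ Y) (a + 1) := by
  classical
  by_cases hle : filt S.triv g π (v π ^ Y) a ≤ filt S.triv g π (v π ^ Y) (a + 1)
  · exact ⟨0, fun c hc _ => hle hc⟩
  rw [SetLike.not_le_iff_exists] at hle
  obtain ⟨c0, hc0, hc0'⟩ := hle
  have hπ0 : v π ≠ 0 := (zero_lt_one.trans hπ1).ne'
  -- values of combinations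
  have hval : ∀ c : Fin r → Ω, comb g c ≠ 0 → ∃ z : ℤ, v (comb g c) = v π ^ z := by
    intro c hc
    have h1 : comb g c = ∑ i ∈ Finset.range r, algebraMap Ω E
        (if h : i < r then c ⟨i, h⟩ else 0) * (if h : i < r then g ⟨i, h⟩ else 0) := by
      unfold comb
      rw [← Fin.sum_univ_eq_sum_range (fun i => algebraMap Ω E
        (if h : i < r then c ⟨i, h⟩ else 0) * (if h : i < r then g ⟨i, h⟩ else 0))]
      refine Finset.sum_congr rfl fun i _ => ?_
      simp
    rw [h1] at hc ⊢
    obtain ⟨h, hhK, hh0, hh⟩ := S.dval _ (Finset.range r) rfl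
      (fun i => if h : i < r then c ⟨i, h⟩ else 0) (fun i => if h : i < r then g ⟨i, h⟩ else 0)
      (by
        intro i hi
        rw [Finset.mem_range] at hi
        simp only [hi, dif_pos]
        exact hg _) hc
    obtain ⟨z, hz⟩ := hcyc h hhK hh0
    exact ⟨z, by rw [← hh, hz]⟩
  have hmemΩ : ∀ c : Fin r → Ω, comb g c ∈ IntermediateField.adjoin Ω (Set.range p) := by
    intro c
    unfold comb
    apply sum_mem
    intro e _
    exact mul_mem (IntermediateField.algebraMap_mem _ _) (K_le k Ω p (hg e))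
  rw [mem_filt] at hc0 hc0'
  rw [not_le] at hc0'
  have hG0 : comb g c0 ≠ 0 := by
    intro h0
    rw [h0, map_zero, zero_mul] at hc0'
    exact absurd hc0' (not_lt.2 zero_le)
  obtain ⟨z, hz⟩ := hval c0 hG0
  have hmul : ∀ (z : ℤ) (b : ℕ), v π ^ z * v π ^ b = v π ^ (z + b) := by
    intro z b
    rw [zpow_add₀ hπ0, zpow_natCast]
  rw [hz, hmul] at hc0 hc0'
  have hz1 : z + a ≤ Y := (zpow_le_zpow_iff_right₀ hπ1).1 hc0
  have hz2 : Y < z + (a + 1 : ℕ) := (zpow_lt_zpow_iff_right₀ hπ1).1 hc0'
  have hzY : z + a = Y := by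
    push_cast at hz2
    omega
  -- the step
  have hstep : ∀ c ∈ filt S.triv g π (v π ^ Y) a, ∃ ω : Ω,
      c - ω • c0 ∈ filt S.triv g π (v π ^ Y) (a + 1) := by
    intro c hc
    rw [mem_filt] at hc
    have h1 : v (comb g c) ≤ v (comb g c0) := by
      rw [hz]
      by_contra hno
      rw [not_le] at hno
      have h2 : v π ^ z * v π ^ a < v (comb g c) * v π ^ a :=
        mul_lt_mul_of_pos_right hno (zero_lt_iff.2 (pow_ne_zero _ hπ0))
      rw [hmul, hzY] at h2
      exact absurd hc (not_le.2 h2)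
    have h2 : v (comb g c / comb g c0) ≤ 1 := by
      rw [map_div₀]
      exact div_le_one_of_le₀ h1 zero_le
    obtain ⟨ω, hω⟩ := S.res _ (div_mem (hmemΩ c) (hmemΩ c0)) h2
    refine ⟨ω, ?_⟩
    rw [mem_filt]
    have h3 : comb g (c - ω • c0) = (comb g c / comb g c0 - algebraMap Ω E ω) * comb g c0 := by
      have e1 : comb g (c - ω • c0) = comb g c - algebraMap Ω E ω * comb g c0 := by
        have := comb_add g (c - ω • c0) (ω • c0)
        rw [sub_add_cancel, comb_smul] at this
        rw [this]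
        ring
      rw [e1]
      field_simp
    by_cases h0 : comb g (c - ω • c0) = 0
    · rw [h0, map_zero, zero_mul]
      exact zero_le
    · obtain ⟨z', hz'⟩ := hval _ h0
      have h4 : v (comb g (c - ω • c0)) < v (comb g c0) := by
        rw [h3, v.map_mul]
        calc v (comb g c / comb g c0 - algebraMap Ω E ω) * v (comb g c0) <
            1 * v (comb g c0) := mul_lt_mul_of_pos_right hω (v.pos_iff.2 hG0)
          _ = v (comb g c0) := one_mul _
      rw [hz', hz] at h4
      have h5 : z' < z := (zpow_lt_zpow_iff_right₀ hπ1).1 h4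
      rw [hz', hmul]
      apply (zpow_le_zpow_iff_right₀ hπ1).2
      push_cast
      omega
  -- the functional
  set F := filt S.triv g π (v π ^ Y) (a + 1) with hF
  have hne : F.mkQ c0 ≠ 0 := by
    intro h0
    rw [Submodule.mkQ_apply, Submodule.Quotient.mk_eq_zero, hF, mem_filt, hz, hmul] at h0
    exact absurd h0 (not_le.2 hc0')
  obtain ⟨ψ, hψ⟩ : ∃ ψ : Module.Dual Ω ((Fin r → Ω) ⧸ F), ψ (F.mkQ c0) ≠ 0 := by
    by_contra hall
    push Not at hall
    exact hne ((Module.forall_dual_apply_eq_zero_iff Ω _).1 hall)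
  refine ⟨ψ.comp F.mkQ, fun c hc h0 => ?_⟩
  obtain ⟨ω, hω⟩ := hstep c hc
  have h1 : F.mkQ c = ω • F.mkQ c0 := by
    have h2 : F.mkQ (c - ω • c0) = 0 := by
      rw [Submodule.mkQ_apply, Submodule.Quotient.mk_eq_zero]
      exact hω
    rw [map_sub, map_smul, sub_eq_zero] at h2
    exact h2
  rw [LinearMap.comp_apply, h1, map_smul, smul_eq_mul] at h0
  have hω0 : ω = 0 := (mul_eq_zero.1 h0).resolve_right hψ
  rw [hω0, zero_smul, sub_zero] at hω
  exact hω

/-- A triangular system of forms for the filtration. -/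
theorem Sys.upper [CharZero k] [Algebra.IsAlgebraic k Ω] [IsAlgClosed Ω] (S : Sys k Ω v p i0)
    (π : E) (hπ1 : 1 < v π)
    (hcyc : ∀ g ∈ IntermediateField.adjoin k (Set.range p), g ≠ 0 → ∃ z : ℤ, v g = v π ^ z)
    {r : ℕ} (g : Fin r → E) (hg : ∀ e, g e ∈ IntermediateField.adjoin k (Set.range p))
    (Y : ℤ) (hY : ∀ e, v (g e) ≤ v π ^ Y) :
    ∃ B : Fin r → Fin r → Ω, (Matrix.of B).det ≠ 0 ∧
      ∀ a : Fin r, v (comb g (B a)) * v π ^ (a : ℕ) ≤ v π ^ Y := by
  classical
  choose φ hφ using fun a => S.func π hπ1 hcyc g hg Y a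
  obtain ⟨e, c, he, _, hsupp, hdiag, hker⟩ := Pool.Agent.R847.SG.exists_flag
    (fun t j => φ t (Pi.single j 1)) r (Finset.univ : Finset (Fin r)) (by simp)
  have hebij : Function.Bijective e := (Finite.injective_iff_bijective).1 he
  set σ := Equiv.ofBijective e hebij with hσ
  refine ⟨c, ?_, ?_⟩
  · have h1 : ((Matrix.of c).submatrix id σ).det ≠ 0 := by
      rw [Matrix.det_of_lowerTriangular]
      · rw [Finset.prod_ne_zero_iff]
        intro i _
        exact hdiag i
      · intro i i' hii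
        by_contra hne
        have h1 : c i (e i') ≠ 0 := hne
        obtain ⟨r, hr, hre⟩ := hsupp i (e i') h1
        rw [he hre] at hr
        have h2 : i < i' := by simpa using hii
        exact absurd h2 (not_lt.2 hr)
    intro h0
    apply h1
    rw [Matrix.det_permute', h0, mul_zero]
  · intro a
    have hφc : ∀ t < (a : ℕ), φ t (c a) = 0 := by
      intro t ht
      rw [← hker a t ht]
      have h1 : c a = ∑ j, c a j • (Pi.single j (1 : Ω) : Fin r → Ω) := by
        funext j
        rw [Finset.sum_apply]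
        simp [Pi.single_apply]
      conv_lhs => rw [h1]
      rw [map_sum]
      refine Finset.sum_congr rfl fun j _ => ?_
      rw [map_smul, smul_eq_mul]
    have hmem : ∀ t : ℕ, t ≤ (a : ℕ) → c a ∈ filt S.triv g π (v π ^ Y) t := by
      intro t
      induction t with
      | zero =>
        intro _
        rw [mem_filt, pow_zero, mul_one]
        unfold comb
        apply v.map_sum_le
        intro j _
        rw [v.map_mul]
        exact (mul_le_of_le_one_left' (S.triv.le _)).trans (hY j)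
      | succ t ih =>
        intro ht
        exact hφ t (c a) (ih (by omega)) (hφc t (by omega))
    exact (mem_filt _ _ _ _ _ _).1 (hmem a le_rfl)

end Pool.Agent.R847.SB
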