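import Mathlib
import Pool.Agent.R847.SB.Upp

/-!
# Lower bounds for spaces of polynomials on a branch
-/

set_option autoImplicit false

open MvPolynomial

namespace Pool.Agent.R847.SB

variable {k Ω E Γ : Type} [Field k] [Field Ω] [Field E] [Algebra k Ω] [Algebra Ω E] [Algebra k E]
  [IsScalarTower k Ω E] [LinearOrderedCommGroupWithZero Γ] {v : Valuation E Γ}
  {ι : Type} [Finite ι] {p : ι → E} {i0 : ι}

/-- A sum of elements with different values. -/
lemma sum_distinct {α : Type} [DecidableEq α] (s : Finset α) (h : α → E) (w : α → ℤ) (τ : Γ)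
    (hτ : 1 < τ) (hw : Set.InjOn w s) (hv : ∀ x ∈ s, h x ≠ 0 → v (h x) = τ ^ w x)
    (h0 : ∑ x ∈ s, h x = 0) : ∀ x ∈ s, h x = 0 := by
  classical
  by_contra hno
  push Not at hno
  obtain ⟨x1, hx1, hx1'⟩ := hno
  set s' := s.filter fun x => h x ≠ 0 with hs'
  obtain ⟨x0, hx0, hmax⟩ := Finset.exists_max_image s' w
    ⟨x1, Finset.mem_filter.2 ⟨hx1, hx1'⟩⟩
  rw [hs', Finset.mem_filter] at hx0
  have h1 := v.map_sum_eq_of_lt (f := h) hx0.1 (by
    intro i hi
    rw [Finset.mem_sdiff, Finset.mem_singleton] at hi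
    by_cases hi0 : h i = 0
    · rw [hi0, map_zero]
      exact v.pos_iff.2 hx0.2
    · rw [hv i hi.1 hi0, hv x0 hx0.1 hx0.2]
      apply (zpow_lt_zpow_iff_right₀ hτ).2
      apply lt_of_le_of_ne (hmax i (Finset.mem_filter.2 ⟨hi.1, hi0⟩))
      intro heq
      exact hi.2 (hw hi.1 hx0.1 heq))
  rw [h0, map_zero] at h1
  exact (v.ne_zero_iff.2 hx0.2) h1.symm

omit [Finite ι] in
/-- Many independent polynomials. -/
theorem Sys.lower (S : Sys k Ω v p i0) (π : E)
    (hπK : π ∈ IntermediateField.adjoin k (Set.range p)) (hπ1 : 1 < v π)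
    (e : ℕ) (he : v (p i0) = v π ^ e) (b : ℕ) (ρ : Fin b → Ω)
    (hρ : LinearIndependent k ρ) (u : Fin b → E)
    (huK : ∀ j, u j ∈ IntermediateField.adjoin k (Set.range p))
    (hu : ∀ j, v (u j - algebraMap Ω E (ρ j)) < 1) :
    ∃ c : ℕ, ∀ D ≥ c, ∃ P : (Fin e × Fin b) × Fin (D - c + 1) → MvPolynomial ι k,
      (∀ x, (P x).totalDegree ≤ D) ∧ LinearIndependent k fun x => aeval p (P x) := by
  classical
  have hπ0 : π ≠ 0 := v.ne_zero_iff.1 (zero_lt_one.trans hπ1).ne'
  have hπv0 : v π ≠ 0 := (zero_lt_one.trans hπ1).ne'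
  -- constants
  have hres : ∀ l' : Fin b → k, l' ≠ 0 →
      v (∑ j, algebraMap k E (l' j) * u j) = 1 := by
    intro l hl
    have h1 : ∑ j, l j • ρ j ≠ 0 := by
      intro h0
      apply hl
      funext j
      exact Fintype.linearIndependent_iff.1 hρ l h0 j
    rw [← S.triv _ h1]
    apply v.map_eq_of_sub_lt
    rw [S.triv _ h1, map_sum, ← Finset.sum_sub_distrib]
    apply v.map_sum_lt one_ne_zero
    intro j _
    rw [Algebra.smul_def, map_mul, ← IsScalarTower.algebraMap_apply, ← mul_sub, v.map_mul,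
      IsScalarTower.algebraMap_apply k Ω E]
    exact (mul_le_of_le_one_left' (S.triv.le _)).trans_lt (hu j)
  have hu0 : ∀ j, u j ≠ 0 := by
    intro j h0
    have h1 := hres (Pi.single j 1) (by simp)
    rw [Finset.sum_eq_single j] at h1
    · rw [h0, mul_zero, map_zero] at h1
      exact zero_ne_one h1
    · intro i _ hi
      rw [Pi.single_eq_of_ne hi, map_zero, zero_mul]
    · intro h
      exact absurd (Finset.mem_univ j) h
  -- fractions
  have hfr : ∀ y : Fin e × Fin b, ∃ r s : MvPolynomial ι k,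
      π ^ (y.1 : ℕ) * u y.2 = aeval p r / aeval p s := by
    intro y
    have h1 : π ^ (y.1 : ℕ) * u y.2 ∈ IntermediateField.adjoin k (Set.range p) :=
      mul_mem (pow_mem hπK _) (huK _)
    rwa [IntermediateField.mem_adjoin_range_iff] at h1
  choose r s hrs using hfr
  have hs0 : ∀ y, aeval p (s y) ≠ 0 := by
    intro y h0
    have h1 := hrs y
    rw [h0, div_zero] at h1
    exact mul_ne_zero (pow_ne_zero _ hπ0) (hu0 y.2) h1
  set h : E := ∏ y, aeval p (s y) with hh
  have hh0 : h ≠ 0 := Finset.prod_ne_zero_iff.2 fun y _ => hs0 y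
  set q : Fin e × Fin b → MvPolynomial ι k := fun y => r y * ∏ y' ∈ Finset.univ.erase y, s y'
    with hq
  have hqv : ∀ y, aeval p (q y) = h * (π ^ (y.1 : ℕ) * u y.2) := by
    intro y
    rw [hq]
    simp only
    rw [map_mul, map_prod, hh, ← Finset.mul_prod_erase Finset.univ (fun y => aeval p (s y))
      (Finset.mem_univ y), hrs y]
    have := hs0 y
    field_simp
  set c : ℕ := ∑ y, (q y).totalDegree with hc
  refine ⟨c, fun D hD => ⟨fun x => q x.1 * X i0 ^ (x.2 : ℕ), fun x => ?_, ?_⟩⟩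
  · have h1 : (q x.1).totalDegree ≤ c :=
      Finset.single_le_sum (f := fun y => (q y).totalDegree) (fun _ _ => Nat.zero_le _)
        (Finset.mem_univ x.1)
    have h2 : ((X i0 : MvPolynomial ι k) ^ (x.2 : ℕ)).totalDegree ≤ (x.2 : ℕ) := by
      refine (totalDegree_pow _ _).trans ?_
      rw [totalDegree_X, mul_one]
    have h3 := x.2.2
    exact (totalDegree_mul _ _).trans (by omega)
  · rw [Fintype.linearIndependent_iff]
    intro l hl
    by_contra hno
    push Not at hno
    obtain ⟨x1, hx1⟩ := hno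
    -- grouping
    set G : Fin e × Fin (D - c + 1) → E := fun z =>
      (π ^ (z.1 : ℕ) * p i0 ^ (z.2 : ℕ)) * ∑ j, algebraMap k E (l ((z.1, j), z.2)) * u j with hG
    have hsum : ∑ z, G z = 0 := by
      have h1 : h * ∑ z, G z = ∑ x, l x • aeval p (q x.1 * X i0 ^ (x.2 : ℕ)) := by
        rw [Finset.mul_sum]
        rw [Fintype.sum_prod_type, Fintype.sum_prod_type, Fintype.sum_prod_type]
        refine Finset.sum_congr rfl fun a _ => ?_
        rw [Finset.sum_comm]
        rw [Finset.sum_comm]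
        rw [Finset.sum_comm]
        refine Finset.sum_congr rfl fun i _ => ?_
        rw [hG]
        simp only
        rw [Finset.mul_sum, Finset.mul_sum]
        refine Finset.sum_congr rfl fun j _ => ?_
        rw [map_mul, hqv, map_pow, aeval_X, Algebra.smul_def]
        ring
      rw [hl] at h1
      exact (mul_eq_zero.1 h1).resolve_left hh0
    have hGv : ∀ z, G z ≠ 0 → v (G z) = v π ^ (((z.1 : ℕ) : ℤ) + e * ((z.2 : ℕ) : ℤ)) := by
      intro z hz
      have h1 : (fun j => l ((z.1, j), z.2)) ≠ 0 := by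
        intro h0
        apply hz
        rw [hG]
        simp only
        rw [Finset.sum_eq_zero, mul_zero]
        intro j _
        have := congrFun h0 j
        simp only [Pi.zero_apply] at this
        rw [this, map_zero, zero_mul]
      rw [hG]
      simp only
      rw [v.map_mul, hres _ h1, mul_one, v.map_mul, v.map_pow, v.map_pow, he, ← pow_mul,
        zpow_add₀ hπv0, zpow_natCast, ← Nat.cast_mul, zpow_natCast]
    have hinj : Set.InjOn (fun z : Fin e × Fin (D - c + 1) =>
        ((z.1 : ℕ) : ℤ) + e * ((z.2 : ℕ) : ℤ))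
        ((Finset.univ : Finset (Fin e × Fin (D - c + 1))) : Set (Fin e × Fin (D - c + 1))) := by
      intro z _ z' _ hzz
      simp only at hzz
      have h1 : (z.1 : ℕ) + e * (z.2 : ℕ) = (z'.1 : ℕ) + e * (z'.2 : ℕ) := by exact_mod_cast hzz
      have h2 := z.1.2
      have h3 := z'.1.2
      have h4 : (z.1 : ℕ) = (z'.1 : ℕ) := by
        have e1 := congrArg (· % e) h1
        simp only [Nat.add_mul_mod_self_left] at e1
        rwa [Nat.mod_eq_of_lt h2, Nat.mod_eq_of_lt h3] at e1
      have h5 : (z.2 : ℕ) = (z'.2 : ℕ) := by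
        rw [h4] at h1
        have h6 : e * (z.2 : ℕ) = e * (z'.2 : ℕ) := by omega
        exact Nat.eq_of_mul_eq_mul_left (by omega) h6
      exact Prod.ext (Fin.ext h4) (Fin.ext h5)
    have hall := sum_distinct (v := v) Finset.univ G _ (v π) hπ1 hinj
      (fun z _ hz => hGv z hz) hsum (x1.1.1, x1.2) (Finset.mem_univ _)
    have h1 : (fun j => l ((x1.1.1, j), x1.2)) ≠ 0 := by
      intro h0
      exact hx1 (congrFun h0 x1.1.2)
    have h2 := hres _ h1
    rw [hG] at hall
    simp only at hall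
    have ht0 : p i0 ≠ 0 := v.ne_zero_iff.1 (zero_lt_one.trans S.ht).ne'
    have h3 := (mul_eq_zero.1 hall).resolve_left
      (mul_ne_zero (pow_ne_zero _ hπ0) (pow_ne_zero _ ht0))
    rw [h3, map_zero] at h2
    exact zero_ne_one h2

end Pool.Agent.R847.SB
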