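import Mathlib
import Pool.Agent.R847.SB.Low

/-!
# Forms of small value in many independent polynomials
-/

set_option autoImplicit false

open MvPolynomial

namespace Pool.Agent.R847.SB

variable {k Ω E Γ : Type} [Field k] [Field Ω] [Field E] [Algebra k Ω] [Algebra Ω E] [Algebra k E]
  [IsScalarTower k Ω E] [LinearOrderedCommGroupWithZero Γ] {v : Valuation E Γ}
  {ι : Type} [Fintype ι] {p : ι → E} {i0 : ι}

lemma Sys.poly_le (S : Sys k Ω v p i0) (P : MvPolynomial ι k) (D : ℕ) (hP : P.totalDegree ≤ D) :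
    v (aeval p P) ≤ v (p i0) ^ D := by
  rw [aeval_def, eval₂_eq']
  apply v.map_sum_le
  intro κ hκ
  rw [v.map_mul, IsScalarTower.algebraMap_apply k Ω E]
  refine (mul_le_of_le_one_left' (S.triv.le _)).trans ?_
  rw [map_prod]
  calc ∏ i, v (p i ^ κ i) ≤ ∏ i, v (p i0) ^ κ i := by
        apply Finset.prod_le_prod'
        intro i _
        rw [v.map_pow]
        exact pow_le_pow_left' (S.hle i) _
    _ = v (p i0) ^ (∑ i, κ i) := Finset.prod_pow_eq_pow_sum _ _ _
    _ ≤ v (p i0) ^ D := by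
        apply pow_le_pow_right₀ S.ht.le
        have h1 := le_totalDegree hκ
        rw [Finsupp.sum_fintype _ _ (by simp)] at h1
        exact h1.trans hP

/-- Many independent polynomials with a triangular system of forms. -/
theorem Sys.main [CharZero k] [Algebra.IsAlgebraic k Ω] [IsAlgClosed Ω] (S : Sys k Ω v p i0)
    (b : ℕ) (ρ : Fin b → Ω) (hρ : LinearIndependent k ρ)
    (hu : ∀ j, ∃ u ∈ IntermediateField.adjoin k (Set.range p), v (u - algebraMap Ω E (ρ j)) < 1) :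
    ∃ e : ℕ, 1 ≤ e ∧ ∃ π : E, 1 < v π ∧ v (p i0) = v π ^ e ∧ ∃ c : ℕ, ∀ D ≥ c,
      ∃ P : Fin (e * b * (D - c + 1)) → MvPolynomial ι k, (∀ x, (P x).totalDegree ≤ D) ∧
        LinearIndependent k (fun x => aeval p (P x)) ∧
        ∃ B : Fin (e * b * (D - c + 1)) → Fin (e * b * (D - c + 1)) → Ω,
          (Matrix.of B).det ≠ 0 ∧
          ∀ a, v (comb (fun x => aeval p (P x)) (B a)) * v π ^ (a : ℕ) ≤ v (p i0) ^ D := by
  classical
  obtain ⟨π, hπK, hπ1, hcyc⟩ := S.cyc
  choose u huK hu' using hu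
  have hi0K : p i0 ∈ IntermediateField.adjoin k (Set.range p) :=
    IntermediateField.subset_adjoin k _ ⟨i0, rfl⟩
  have hp0 : p i0 ≠ 0 := v.ne_zero_iff.1 (zero_lt_one.trans S.ht).ne'
  obtain ⟨z, hz⟩ := hcyc _ hi0K hp0
  have hz1 : 1 ≤ z := by
    have h1 := S.ht
    rw [hz] at h1
    by_contra hno
    have h2 : v π ^ z ≤ 1 := by
      rw [← zpow_zero (v π)]
      apply zpow_le_zpow_right₀ hπ1.le
      omega
    exact absurd h1 (not_lt.2 h2)
  obtain ⟨e, rfl⟩ : ∃ e : ℕ, z = e := ⟨z.toNat, by omega⟩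
  rw [zpow_natCast] at hz
  have he1 : 1 ≤ e := by omega
  obtain ⟨c, hc⟩ := S.lower π hπK hπ1 e hz b ρ hρ u huK hu'
  refine ⟨e, he1, π, hπ1, hz, c, fun D hD => ?_⟩
  obtain ⟨P, hPdeg, hPind⟩ := hc D hD
  have hcard : Fintype.card ((Fin e × Fin b) × Fin (D - c + 1)) = e * b * (D - c + 1) := by
    simp
  set σ := (Fintype.equivFinOfCardEq hcard).symm with hσ
  have hmem : ∀ x, aeval p (P (σ x)) ∈ IntermediateField.adjoin k (Set.range p) := by
    intro x
    rw [IntermediateField.mem_adjoin_range_iff]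
    exact ⟨P (σ x), 1, by simp⟩
  obtain ⟨B, hB, hBv⟩ := S.upper π hπ1 hcyc (fun x => aeval p (P (σ x))) hmem
    ((e * D : ℕ) : ℤ) (by
      intro x
      rw [zpow_natCast, pow_mul, ← hz]
      exact S.poly_le _ _ (hPdeg _))
  refine ⟨fun x => P (σ x), fun x => hPdeg _, hPind.comp σ σ.injective, B, hB, fun a => ?_⟩
  have h1 := hBv a
  rwa [zpow_natCast, pow_mul, ← hz] at h1

end Pool.Agent.R847.SB
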