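import Mathlib
import Pool.Agent.R847.SB.Main
import Pool.Agent.R847.SB.Germ
import Pool.Agent.R847.SB.Alg
import Pool.Agent.R847.SB.Fin
import Pool.Agent.R847.SN.Close

/-!
# The predecessors as a system over the germs
-/

set_option autoImplicit false

open MvPolynomial Filter Topology Asymptotics

namespace Pool.Agent.R847.SB

open Pool.Agent.R847.SN

section kap

variable {k Ω E Γ : Type} [Field k] [Field Ω] [Field E] [Algebra k Ω] [Algebra Ω E] [Algebra k E]
  [IsScalarTower k Ω E] [LinearOrderedCommGroupWithZero Γ] {v : Valuation E Γ}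

/-- the residues of the elements of a subfield -/
def kap (hΩ : Triv v Ω) (K : IntermediateField k E) : IntermediateField k Ω where
  carrier := {ω | ∃ u ∈ K, v (u - algebraMap Ω E ω) < 1}
  mul_mem' := by
    rintro a b ⟨u, hu, hua⟩ ⟨w, hw, hwb⟩
    refine ⟨u * w, mul_mem hu hw, ?_⟩
    have h1 : u * w - algebraMap Ω E (a * b) =
        u * (w - algebraMap Ω E b) + algebraMap Ω E b * (u - algebraMap Ω E a) := by
      rw [map_mul]
      ring
    rw [h1]
    apply v.map_add_lt
    · rw [v.map_mul]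
      exact (mul_le_of_le_one_left' (le_one_of_sub_lt hΩ u a hua)).trans_lt hwb
    · rw [v.map_mul]
      exact (mul_le_of_le_one_left' (hΩ.le b)).trans_lt hua
  one_mem' := ⟨1, one_mem _, by simp⟩
  add_mem' := by
    rintro a b ⟨u, hu, hua⟩ ⟨w, hw, hwb⟩
    refine ⟨u + w, add_mem hu hw, ?_⟩
    have h1 : u + w - algebraMap Ω E (a + b) =
        (u - algebraMap Ω E a) + (w - algebraMap Ω E b) := by
      rw [map_add]
      ring
    rw [h1]
    exact v.map_add_lt hua hwb
  zero_mem' := ⟨0, zero_mem _, by simp⟩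
  algebraMap_mem' := by
    intro r
    refine ⟨algebraMap k E r, K.algebraMap_mem r, ?_⟩
    rw [← IsScalarTower.algebraMap_apply, sub_self, map_zero]
    exact zero_lt_one
  inv_mem' := by
    rintro a ⟨u, hu, hua⟩
    by_cases ha : a = 0
    · subst ha
      exact ⟨0, zero_mem _, by simp⟩
    · refine ⟨u⁻¹, inv_mem hu, ?_⟩
      have h1 : v u = 1 := by
        rw [← hΩ a ha]
        apply v.map_eq_of_sub_lt
        rw [hΩ a ha]
        exact hua
      have hu0 : u ≠ 0 := by
        rintro rfl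
        rw [map_zero] at h1
        exact zero_ne_one h1
      have ha' : algebraMap Ω E a ≠ 0 := (map_ne_zero _).2 ha
      have h2 : u⁻¹ - algebraMap Ω E a⁻¹ = -(u - algebraMap Ω E a) / (u * algebraMap Ω E a) := by
        rw [map_inv₀]
        field_simp
        ring
      rw [h2, map_div₀, v.map_neg, v.map_mul, h1, hΩ a ha, mul_one, div_one]
      exact hua

lemma trans_of_big (hΩ : Triv v Ω) (t : E) (ht : 1 < v t) : Transcendental k t := by
  rintro ⟨q, hq0, hq⟩
  classical
  have ht0 : t ≠ 0 := v.ne_zero_iff.1 (zero_lt_one.trans ht).ne'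
  rw [Polynomial.aeval_eq_sum_range] at hq
  have h1 := sum_distinct (v := v) (Finset.range (q.natDegree + 1))
    (fun i => q.coeff i • t ^ i) (fun i => (i : ℤ)) (v t) ht (by
      intro a _ b _ hab
      simp only at hab
      exact_mod_cast hab) (by
      intro i _ hi
      rw [Algebra.smul_def, IsScalarTower.algebraMap_apply k Ω E] at hi ⊢
      have h2 : algebraMap k Ω (q.coeff i) ≠ 0 := by
        intro h0
        rw [h0, map_zero, zero_mul] at hi
        exact hi rfl
      rw [v.map_mul, hΩ _ h2, one_mul, v.map_pow, zpow_natCast]) hq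
  have h2 := h1 q.natDegree (Finset.mem_range.2 (Nat.lt_succ_self _))
  rw [smul_eq_zero] at h2
  rcases h2 with h2 | h2
  · exact hq0 (Polynomial.leadingCoeff_eq_zero.1 h2)
  · exact pow_ne_zero _ ht0 h2

end kap

section germ

variable {k Ω : Type} [Field k] [NormedField Ω] [Algebra k Ω]

/-- the map to germs -/
noncomputable def toG (k : Type) [Field k] {Ω : Type} [NormedField Ω] [Algebra k Ω]
    (U : Ultrafilter ℕ) : (ℕ → Ω) →ₐ[k] Germ (U : Filter ℕ) Ω where
  toRingHom := Germ.coeRingHom (U : Filter ℕ)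
  commutes' := fun _ => rfl

lemma toG_apply (U : Ultrafilter ℕ) (G : ℕ → Ω) : toG k U G = (G : Germ (U : Filter ℕ) Ω) := rfl

lemma aeval_fun {σ : Type} (z : σ → ℕ → Ω) (P : MvPolynomial σ k) (n : ℕ) :
    (aeval z P : ℕ → Ω) n = aeval (fun i => z i n) P :=
  comp_aeval_apply z (Pi.evalAlgHom k (fun _ : ℕ => Ω) n) P

lemma aeval_germ (U : Ultrafilter ℕ) {σ : Type} (z : σ → ℕ → Ω) (P : MvPolynomial σ k) :
    aeval (fun i => (z i : Germ (U : Filter ℕ) Ω)) P =
      ((fun n => aeval (fun i => z i n) P : ℕ → Ω) : Germ (U : Filter ℕ) Ω) := by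
  have h1 : aeval (fun i => toG k U (z i)) P = toG k U (aeval z P) :=
    (comp_aeval_apply z (toG k U) P).symm
  rw [toG_apply] at h1
  have h2 : (aeval z P : ℕ → Ω) = fun n => aeval (fun i => z i n) P := funext (aeval_fun z P)
  rw [← h2]
  exact h1

end germ

section tower

variable {k : Type} [Field k] {N d : ℕ} {f : Fin (N + 1) → MvPolynomial (Fin (N + 1)) k}
  {U : Ultrafilter ℕ} {x : ℕ → Fin (N + 1) → k} {Ω : Type} [NormedField Ω] [Algebra k Ω]

/-- the germs of the coordinates of the predecessors -/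
noncomputable def pg (Ω : Type) [NormedField Ω] [Algebra k Ω] (U : Ultrafilter ℕ)
    (x : ℕ → Fin (N + 1) → k) (j : ℕ) (i : Fin (N + 1)) : Germ (U : Filter ℕ) Ω :=
  ((fun n => algebraMap k Ω (x (n - j) i) : ℕ → Ω) : Germ (U : Filter ℕ) Ω)

lemma aeval_pg (j : ℕ) (P : MvPolynomial (Fin (N + 1)) k) : aeval (pg Ω U x j) P =
    ((fun n => algebraMap k Ω (aeval (x (n - j)) P) : ℕ → Ω) : Germ (U : Filter ℕ) Ω) := by
  unfold pg
  rw [aeval_germ]
  congr 1
  funext n
  rw [map_aevalk]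

/-- the size of a coordinate -/
lemma Tower.size (T : Tower d f U x Ω) (j : ℕ) (i : Fin (N + 1)) (hi : T.y j i ≠ 0) :
    ∃ C : ℝ, 0 < C ∧ ∀ᶠ n in U, ‖T.s j n‖ ≤ C * ‖algebraMap k Ω (x (n - j) i)‖ ∧
      ‖algebraMap k Ω (x (n - j) i)‖ ≤ C * ‖T.s j n‖ := by
  have h1 : Tendsto (fun n => ‖T.z j n i‖) U (𝓝 ‖T.y j i‖) :=
    (tendsto_pi_nhds.1 (T.hz j) i).norm
  have hpos : 0 < ‖T.y j i‖ := norm_pos_iff.2 hi
  refine ⟨2 / ‖T.y j i‖ + 2 * ‖T.y j i‖, by positivity, ?_⟩
  filter_upwards [T.hp j, h1.eventually (lt_mem_nhds (half_lt_self hpos)),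
    h1.eventually (gt_mem_nhds (by linarith : ‖T.y j i‖ < 2 * ‖T.y j i‖))] with n e1 e2 e3
  rw [e1 i, norm_mul]
  have hs := norm_nonneg (T.s j n)
  have hzn := norm_nonneg (T.z j n i)
  constructor
  · have h3 : 1 ≤ 2 / ‖T.y j i‖ * ‖T.z j n i‖ := by
      rw [div_mul_eq_mul_div, one_le_div hpos]
      linarith
    calc ‖T.s j n‖ = 1 * ‖T.s j n‖ := (one_mul _).symm
      _ ≤ (2 / ‖T.y j i‖ * ‖T.z j n i‖) * ‖T.s j n‖ := mul_le_mul_of_nonneg_right h3 hs
      _ ≤ ((2 / ‖T.y j i‖ + 2 * ‖T.y j i‖) * ‖T.z j n i‖) * ‖T.s j n‖ := by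
          apply mul_le_mul_of_nonneg_right _ hs
          apply mul_le_mul_of_nonneg_right _ hzn
          have : 0 ≤ 2 * ‖T.y j i‖ := by positivity
          linarith
      _ = _ := by ring
  · rw [mul_comm]
    apply mul_le_mul_of_nonneg_right _ hs
    have : 0 ≤ 2 / ‖T.y j i‖ := by positivity
    linarith

lemma Tower.big (T : Tower d f U x Ω) (j : ℕ) (i : Fin (N + 1)) (hi : T.y j i ≠ 0) :
    1 < vv Ω U (pg Ω U x j i) := by
  apply one_lt_vv
  obtain ⟨C, hC, h⟩ := Tower.size T j i hi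
  rw [tendsto_atTop]
  intro B
  filter_upwards [h, (T.hs j).eventually_ge_atTop (C * B)] with n e1 e2
  have h2 := e2.trans e1.1
  exact le_of_mul_le_mul_left h2 hC

lemma Tower.le_big (T : Tower d f U x Ω) (j : ℕ) (i : Fin (N + 1)) (hi : T.y j i ≠ 0)
    (r : Fin (N + 1)) : vv Ω U (pg Ω U x j r) ≤ vv Ω U (pg Ω U x j i) := by
  obtain ⟨C, hC, h⟩ := Tower.size T j i hi
  have h1 : Tendsto (fun n => ‖T.z j n r‖) U (𝓝 ‖T.y j r‖) :=
    (tendsto_pi_nhds.1 (T.hz j) r).norm
  have h0 : ∀ᶠ n in U, algebraMap k Ω (x (n - j) i) ≠ 0 := by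
    filter_upwards [h, (T.hs j).eventually_gt_atTop 0] with n e1 e2 e3
    rw [e3, norm_zero, mul_zero] at e1
    linarith [e1.1]
  unfold pg
  rw [vv_le _ _ h0]
  refine ⟨(‖T.y j r‖ + 1) * C, ?_⟩
  filter_upwards [h, T.hp j, h1.eventually (gt_mem_nhds (by linarith : ‖T.y j r‖ < ‖T.y j r‖ + 1))]
    with n e1 e2 e3
  calc ‖algebraMap k Ω (x (n - j) r)‖ = ‖T.z j n r‖ * ‖T.s j n‖ := by
        rw [e2 r, norm_mul, mul_comm]
    _ ≤ (‖T.y j r‖ + 1) * (C * ‖algebraMap k Ω (x (n - j) i)‖) :=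
        mul_le_mul e3.le e1.1 (norm_nonneg _) (by positivity)
    _ = _ := by ring

lemma Tower.residue (T : Tower d f U x Ω) (j : ℕ) (i r : Fin (N + 1)) (hi : T.y j i ≠ 0) :
    vv Ω U (pg Ω U x j r / pg Ω U x j i -
      algebraMap Ω (Germ (U : Filter ℕ) Ω) (T.y j r / T.y j i)) < 1 := by
  have h1 : Tendsto (fun n => T.z j n r / T.z j n i - T.y j r / T.y j i) U (𝓝 0) := by
    have h2 := (tendsto_pi_nhds.1 (T.hz j) r).div (tendsto_pi_nhds.1 (T.hz j) i) hi
    have h3 := h2.sub_const (T.y j r / T.y j i)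
    rwa [sub_self] at h3
  have h2 := vv_lt_one _ h1
  have h3 : ((fun n => T.z j n r / T.z j n i - T.y j r / T.y j i : ℕ → Ω) :
      Germ (U : Filter ℕ) Ω) = pg Ω U x j r / pg Ω U x j i -
      algebraMap Ω (Germ (U : Filter ℕ) Ω) (T.y j r / T.y j i) := by
    rw [germ_const]
    unfold pg
    rw [← Germ.coe_div, ← Germ.coe_sub]
    apply Germ.coe_eq.2
    filter_upwards [T.hp j, (T.hs j).eventually_gt_atTop 0] with n e1 e2
    have e3 : T.s j n ≠ 0 := norm_pos_iff.1 e2
    rw [Pi.sub_apply, Pi.div_apply, e1 r, e1 i, mul_div_mul_left _ _ e3]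
    rfl
  rwa [h3] at h2

/-- All coordinates of the predecessors are algebraic over each large coordinate. -/
lemma Tower.alg (T : Tower d f U x Ω) (hd : d ≠ 0) (hdeg : ∀ i, (f i).totalDegree ≤ d)
    (hreg : Reg d f) (hpair : ∀ i j, ∃ P : MvPolynomial (Fin 2) k, P ≠ 0 ∧
      ∀ᶠ n in U, aeval ![x n i, x n j] P = 0) (j : ℕ) (i1 : Fin (N + 1)) (hi1 : T.y j i1 ≠ 0)
    (i : Fin (N + 1)) :
    IsAlgebraic (IntermediateField.adjoin k {pg Ω U x j i1}) (pg Ω U x j i) := by
  obtain ⟨i0, hi0⟩ := Function.ne_iff.1 (T.hy0 0)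
  have key : ∀ j i, IsAlgebraic (IntermediateField.adjoin k {pg Ω U x 0 i0}) (pg Ω U x j i) := by
    intro j
    induction j with
    | zero =>
      intro i
      obtain ⟨P, hP, hPn⟩ := hpair i0 i
      apply alg_of_pair _ _ (trans_of_big (Ω := Ω) triv_vv _ (Tower.big T 0 i0 hi0)) P hP
      have h1 : (![pg Ω U x 0 i0, pg Ω U x 0 i] : Fin 2 → Germ (U : Filter ℕ) Ω) =
          fun a => (((![fun n => algebraMap k Ω (x (n - 0) i0),
            fun n => algebraMap k Ω (x (n - 0) i)] : Fin 2 → ℕ → Ω) a : ℕ → Ω) :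
            Germ (U : Filter ℕ) Ω) := by
        funext a
        fin_cases a <;> rfl
      rw [h1, aeval_germ]
      apply Germ.coe_eq.2
      filter_upwards [hPn] with n hn
      have h2 := congrArg (algebraMap k Ω) hn
      rw [map_aevalk, map_zero] at h2
      show _ = (0 : Ω)
      rw [← h2]
      congr 2
      funext a
      fin_cases a <;> rfl
    | succ j ih =>
      intro i
      apply alg_trans (Set.range (pg Ω U x j)) _ _ (by rintro _ ⟨r, rfl⟩; exact ih r)
      obtain ⟨n, q, hq⟩ := exists_int' d hd f hdeg hreg i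
      have h1 := hq (Germ (U : Filter ℕ) Ω) (pg Ω U x (j + 1))
      have h2 : (fun r => aeval (pg Ω U x (j + 1)) (f r)) = pg Ω U x j := by
        funext r
        rw [aeval_pg]
        unfold pg
        apply Germ.coe_eq.2
        filter_upwards [T.hf j] with n hn
        rw [hn r]
      rw [h2] at h1
      set F := IntermediateField.adjoin k (Set.range (pg Ω U x j)) with hF
      have hmem : ∀ l, aeval (pg Ω U x j) (q l) ∈ F := by
        intro l
        rw [hF, IntermediateField.mem_adjoin_range_iff]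
        exact ⟨q l, 1, by simp⟩
      set R : Polynomial F := Polynomial.X ^ n + ∑ l ∈ Finset.range n,
        Polynomial.C ⟨_, hmem l⟩ * Polynomial.X ^ l with hR
      have hRm : R.Monic := by
        rw [hR]
        apply Polynomial.monic_X_pow_add
        rw [← Fin.sum_univ_eq_sum_range fun i => Polynomial.C (⟨_, hmem i⟩ : F) *
          Polynomial.X ^ i]
        exact Polynomial.degree_sum_fin_lt _
      refine ⟨R, hRm.ne_zero, ?_⟩
      rw [hR, map_add, map_pow, Polynomial.aeval_X, map_sum, ← h1]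
      congr 1
      refine Finset.sum_congr rfl fun l _ => ?_
      rw [map_mul, Polynomial.aeval_C, map_pow, Polynomial.aeval_X]
      rfl
  exact exch _ _ _ (key j i) (key j i1) (trans_of_big (Ω := Ω) triv_vv _ (Tower.big T j i1 hi1))

end tower

end Pool.Agent.R847.SB
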