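import Mathlib
import Pool.Agent.R847.SB.Plc

/-!
# Polynomials with small forms on the predecessors
-/

set_option autoImplicit false

open MvPolynomial Filter Topology Asymptotics

namespace Pool.Agent.R847.SB

open Pool.Agent.R847.SN

variable {k : Type} [Field k] {N d : ℕ} {f : Fin (N + 1) → MvPolynomial (Fin (N + 1)) k}
  {U : Ultrafilter ℕ} {x : ℕ → Fin (N + 1) → k} {Ω : Type} [NormedField Ω] [Algebra k Ω]

/-- the field generated by the quotients of the coordinates -/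
noncomputable def Kq {Ω : Type} [Field Ω] [Algebra k Ω] (y : Fin (N + 1) → Ω) :
    IntermediateField k Ω :=
  IntermediateField.adjoin k {t | ∃ i j, y i ≠ 0 ∧ t = y j / y i}

lemma Tower.sys (T : Tower d f U x Ω) (hd : d ≠ 0) (hdeg : ∀ i, (f i).totalDegree ≤ d)
    (hreg : Reg d f) (hpair : ∀ i j, ∃ P : MvPolynomial (Fin 2) k, P ≠ 0 ∧
      ∀ᶠ n in U, aeval ![x n i, x n j] P = 0) (j : ℕ) (i : Fin (N + 1)) (hi : T.y j i ≠ 0) :
    Sys k Ω (vv Ω U) (pg Ω U x j) i :=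
  ⟨triv_vv, Tower.big T j i hi, fun r => Tower.alg T hd hdeg hreg hpair j i hi r,
    fun r => Tower.le_big T j i hi r⟩

lemma Tower.kap_le (T : Tower d f U x Ω) (j : ℕ) : Kq (k := k) (T.y j) ≤
    kap (k := k) (Ω := Ω) (v := vv Ω U) triv_vv
      (IntermediateField.adjoin k (Set.range (pg Ω U x j))) := by
  unfold Kq
  rw [IntermediateField.adjoin_le_iff]
  rintro _ ⟨i, r, hi, rfl⟩
  exact ⟨pg Ω U x j r / pg Ω U x j i, div_mem (IntermediateField.subset_adjoin k _ ⟨r, rfl⟩)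
    (IntermediateField.subset_adjoin k _ ⟨i, rfl⟩), Tower.residue T j i r hi⟩

lemma comb_germ {r : ℕ} (j : ℕ) (P : Fin r → MvPolynomial (Fin (N + 1)) k) (c : Fin r → Ω) :
    comb (fun e => aeval (pg Ω U x j) (P e)) c =
      ((fun n => ∑ e, c e * algebraMap k Ω (aeval (x (n - j)) (P e)) : ℕ → Ω) :
        Germ (U : Filter ℕ) Ω) := by
  unfold comb
  have h1 : (fun n => ∑ e, c e * algebraMap k Ω (aeval (x (n - j)) (P e)) : ℕ → Ω) =
      ∑ e, (fun _ => c e : ℕ → Ω) * (fun n => algebraMap k Ω (aeval (x (n - j)) (P e))) := by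
    funext n
    rw [Finset.sum_apply]
    rfl
  rw [h1, ← toG_apply (k := k), map_sum]
  refine Finset.sum_congr rfl fun e _ => ?_
  show algebraMap Ω (Germ (U : Filter ℕ) Ω) (c e) * aeval (pg Ω U x j) (P e) = _
  rw [map_mul, aeval_pg]
  rfl

/-- the norm estimate from the valuation estimate -/
lemma norm_of_val (T : Tower d f U x Ω) (j : ℕ) (i : Fin (N + 1)) (hi : T.y j i ≠ 0)
    (G : ℕ → Ω) (π : Germ (U : Filter ℕ) Ω) (e : ℕ) (he : 1 ≤ e)
    (hπ : vv Ω U (pg Ω U x j i) = vv Ω U π ^ e) (a D : ℕ)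
    (h : vv Ω U (G : Germ (U : Filter ℕ) Ω) * vv Ω U π ^ a ≤ vv Ω U (pg Ω U x j i) ^ D) :
    ∃ C : ℝ, ∀ᶠ n in U, ‖G n‖ ≤
      Real.exp (C + ((D : ℝ) - (a : ℝ) / (e : ℝ)) * Real.log ‖T.s j n‖) := by
  set t : ℕ → Ω := fun n => algebraMap k Ω (x (n - j) i) with ht
  have hpg : pg Ω U x j i = (t : Germ (U : Filter ℕ) Ω) := rfl
  obtain ⟨C, hC, hsz⟩ := Tower.size T j i hi
  have ht0 : ∀ᶠ n in U, t n ≠ 0 := by
    filter_upwards [hsz, (T.hs j).eventually_gt_atTop 0] with n e1 e2 e3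
    rw [ht] at e3
    simp only at e3
    rw [e3, norm_zero, mul_zero] at e1
    linarith [e1.1]
  have h1 : vv Ω U ((G ^ e * t ^ a : ℕ → Ω) : Germ (U : Filter ℕ) Ω) ≤
      vv Ω U ((t ^ (e * D) : ℕ → Ω) : Germ (U : Filter ℕ) Ω) := by
    have h2 := pow_le_pow_left' h e
    rw [mul_pow, ← pow_mul, ← pow_mul, mul_comm a e, pow_mul, ← hπ, mul_comm D e] at h2
    rw [Germ.coe_mul, Germ.coe_pow, Germ.coe_pow, Germ.coe_pow, map_mul, map_pow, map_pow,
      map_pow, ← hpg]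
    exact h2
  rw [vv_le _ _ (by
    filter_upwards [ht0] with n hn
    rw [Pi.pow_apply]
    exact pow_ne_zero _ hn)] at h1
  obtain ⟨C1, hC1⟩ := h1
  set C2 : ℝ := max C1 1 with hC2
  have hC2pos : 0 < C2 := lt_max_of_lt_right one_pos
  set C3 : ℝ := C2 * C ^ a * C ^ (e * D) with hC3
  have hC3pos : 0 < C3 := by positivity
  refine ⟨Real.log C3 / e, ?_⟩
  filter_upwards [hC1, hsz, (T.hs j).eventually_gt_atTop 0] with n e1 e2 e3
  rw [Pi.mul_apply, Pi.pow_apply, Pi.pow_apply, Pi.pow_apply, norm_mul, norm_pow, norm_pow,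
    norm_pow] at e1
  have htn : 0 < ‖t n‖ := by
    by_contra hno
    have h0 : ‖t n‖ = 0 := le_antisymm (not_lt.1 hno) (norm_nonneg _)
    have := e2.1
    rw [show ‖(algebraMap k Ω) (x (n - j) i)‖ = 0 from h0, mul_zero] at this
    linarith
  -- the bound for the power
  have h2 : ‖G n‖ ^ e * ‖T.s j n‖ ^ a ≤ C3 * ‖T.s j n‖ ^ (e * D) := by
    calc ‖G n‖ ^ e * ‖T.s j n‖ ^ a ≤ ‖G n‖ ^ e * (C * ‖t n‖) ^ a := by
          apply mul_le_mul_of_nonneg_left _ (by positivity)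
          exact pow_le_pow_left₀ e3.le e2.1 a
      _ = C ^ a * (‖G n‖ ^ e * ‖t n‖ ^ a) := by rw [mul_pow]; ring
      _ ≤ C ^ a * (C2 * ‖t n‖ ^ (e * D)) := by
          apply mul_le_mul_of_nonneg_left _ (by positivity)
          refine e1.trans ?_
          exact mul_le_mul_of_nonneg_right (le_max_left _ _) (by positivity)
      _ ≤ C ^ a * (C2 * (C * ‖T.s j n‖) ^ (e * D)) := by
          apply mul_le_mul_of_nonneg_left _ (by positivity)
          apply mul_le_mul_of_nonneg_left _ (by positivity)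
          exact pow_le_pow_left₀ htn.le e2.2 _
      _ = C3 * ‖T.s j n‖ ^ (e * D) := by rw [mul_pow, hC3]; ring
  have he0 : (e : ℝ) ≠ 0 := by
    have : e ≠ 0 := by omega
    exact_mod_cast this
  have hepos : (0 : ℝ) < e := by
    have : 0 < e := by omega
    exact_mod_cast this
  have h3 : Real.exp (Real.log C3 / e + ((D : ℝ) - (a : ℝ) / (e : ℝ)) *
      Real.log ‖T.s j n‖) ^ e * ‖T.s j n‖ ^ a = C3 * ‖T.s j n‖ ^ (e * D) := by
    rw [← Real.exp_nat_mul, ← Real.exp_log e3, ← Real.exp_nat_mul, ← Real.exp_add,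
      ← Real.exp_nat_mul]
    conv_rhs => rw [← Real.exp_log hC3pos, ← Real.exp_add]
    congr 1
    rw [Real.log_exp]
    push_cast
    field_simp
    ring
  have h4 : ‖G n‖ ^ e ≤ Real.exp (Real.log C3 / e + ((D : ℝ) - (a : ℝ) / (e : ℝ)) *
      Real.log ‖T.s j n‖) ^ e := by
    apply le_of_mul_le_mul_right _ (pow_pos e3 a)
    rw [h3]
    exact h2
  exact le_of_pow_le_pow_left₀ (by omega) (Real.exp_pos _).le h4

/-- the size of the values of a polynomial -/
lemma Tower.val_le (T : Tower d f U x Ω) (j D : ℕ) (P : MvPolynomial (Fin (N + 1)) k)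
    (hP : P.totalDegree ≤ D) : ∃ C : ℝ, ∀ᶠ n in U, ‖algebraMap k Ω (aeval (x (n - j)) P)‖ ≤
      Real.exp (C + (D : ℝ) * Real.log ‖T.s j n‖) := by
  have hbd : (fun n => H D P (T.s j n)⁻¹ (T.z j n)) =O[(U : Filter ℕ)] fun _ => (1 : ℝ) :=
    (H_tendsto D P _ _ 0 _ (inv_tendsto _ (T.hs j)) (T.hz _)).isBigO_one ℝ
  obtain ⟨C, hC⟩ := hbd.bound
  refine ⟨Real.log (|C| + 1), ?_⟩
  filter_upwards [T.val j D P hP, hC, (T.hs j).eventually_gt_atTop 0] with n e1 e2 e3
  rw [norm_one, mul_one] at e2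
  rw [e1, norm_mul, norm_pow, Real.exp_add, Real.exp_log (by positivity), mul_comm]
  have h1 : Real.exp ((D : ℝ) * Real.log ‖T.s j n‖) = ‖T.s j n‖ ^ D := by
    rw [Real.exp_nat_mul, Real.exp_log e3]
  rw [h1]
  apply mul_le_mul_of_nonneg_right _ (by positivity)
  have := le_abs_self C
  linarith

/-- Many independent polynomials with small forms on the predecessors. -/
theorem place_main [CharZero k] [Algebra.IsAlgebraic k Ω] [IsAlgClosed Ω]
    (T : Tower d f U x Ω) (hd : d ≠ 0) (hdeg : ∀ i, (f i).totalDegree ≤ d)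
    (hreg : Reg d f) (hpair : ∀ i j, ∃ P : MvPolynomial (Fin 2) k, P ≠ 0 ∧
      ∀ᶠ n in U, aeval ![x n i, x n j] P = 0) (j b : ℕ) (ρ : Fin b → Ω)
    (hρ : LinearIndependent k ρ) (hρK : ∀ l, ρ l ∈ Kq (k := k) (T.y j)) :
    ∃ e : ℕ, 1 ≤ e ∧ ∃ c : ℕ, ∀ D ≥ c,
      ∃ P : Fin (e * b * (D - c + 1)) → MvPolynomial (Fin (N + 1)) k,
        (∀ l, (P l).totalDegree ≤ D) ∧
        (∀ a : Fin (e * b * (D - c + 1)) → k, a ≠ 0 →
          ∀ᶠ n in U, ∑ l, a l * aeval (x (n - j)) (P l) ≠ 0) ∧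
        ∃ B : Fin (e * b * (D - c + 1)) → Fin (e * b * (D - c + 1)) → Ω,
          (Matrix.of B).det ≠ 0 ∧ ∃ C : ℝ, ∀ᶠ n in U,
            (∀ a, ‖∑ l, B a l * algebraMap k Ω (aeval (x (n - j)) (P l))‖ ≤
              Real.exp (C + ((D : ℝ) - ((a : ℕ) : ℝ) / (e : ℝ)) * Real.log ‖T.s j n‖)) ∧
            ∀ l, ‖algebraMap k Ω (aeval (x (n - j)) (P l))‖ ≤
              Real.exp (C + (D : ℝ) * Real.log ‖T.s j n‖) := by
  classical
  obtain ⟨i, hi⟩ := Function.ne_iff.1 (T.hy0 j)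
  have hi' : T.y j i ≠ 0 := hi
  have S := Tower.sys T hd hdeg hreg hpair j i hi'
  obtain ⟨e, he, π, hπ1, hπ, c, hc⟩ := S.main b ρ hρ (fun l => Tower.kap_le T j (hρK l))
  refine ⟨e, he, c, fun D hD => ?_⟩
  obtain ⟨P, hPdeg, hPind, B, hB, hBv⟩ := hc D hD
  refine ⟨P, hPdeg, ?_, B, hB, ?_⟩
  · intro a ha
    have h1 : ∑ l, a l • aeval (pg Ω U x j) (P l) ≠ 0 := by
      intro h0
      apply ha
      funext l
      exact Fintype.linearIndependent_iff.1 hPind a h0 l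
    have h2 : ∑ l, a l • aeval (pg Ω U x j) (P l) =
        ((fun n => algebraMap k Ω (∑ l, a l * aeval (x (n - j)) (P l)) : ℕ → Ω) :
          Germ (U : Filter ℕ) Ω) := by
      have h3 := comb_germ (Ω := Ω) (U := U) (x := x) j P (fun l => algebraMap k Ω (a l))
      unfold comb at h3
      have h4 : ∑ l, a l • aeval (pg Ω U x j) (P l) =
          ∑ e, algebraMap Ω (Germ (U : Filter ℕ) Ω) (algebraMap k Ω (a e)) *
            aeval (pg Ω U x j) (P e) := by
        refine Finset.sum_congr rfl fun l _ => ?_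
        rw [Algebra.smul_def, ← IsScalarTower.algebraMap_apply]
      rw [h4, h3]
      congr 1
      funext n
      rw [map_sum]
      refine Finset.sum_congr rfl fun l _ => ?_
      rw [map_mul]
    rw [h2, coe_ne_zero] at h1
    filter_upwards [h1] with n hn h0
    apply hn
    rw [h0, map_zero]
  · have hex : ∀ a, ∃ C : ℝ, ∀ᶠ n in U,
        ‖∑ l, B a l * algebraMap k Ω (aeval (x (n - j)) (P l))‖ ≤
          Real.exp (C + ((D : ℝ) - ((a : ℕ) : ℝ) / (e : ℝ)) * Real.log ‖T.s j n‖) := by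
      intro a
      apply norm_of_val T j i hi' _ π e he hπ (a : ℕ) D
      have h1 := hBv a
      rwa [comb_germ] at h1
    choose C1 hC1 using hex
    choose C2 hC2 using fun l => Tower.val_le T j D (P l) (hPdeg l)
    refine ⟨∑ a, |C1 a| + ∑ l, |C2 l|, ?_⟩
    have hle1 : ∀ a, C1 a ≤ ∑ a, |C1 a| + ∑ l, |C2 l| := by
      intro a
      have h1 := Finset.single_le_sum (f := fun a => |C1 a|) (fun _ _ => abs_nonneg _)
        (Finset.mem_univ a)
      have h2 : 0 ≤ ∑ l, |C2 l| := Finset.sum_nonneg fun _ _ => abs_nonneg _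
      have h3 := le_abs_self (C1 a)
      have h4 : |C1 a| ≤ ∑ a, |C1 a| := h1
      linarith
    have hle2 : ∀ l, C2 l ≤ ∑ a, |C1 a| + ∑ l, |C2 l| := by
      intro l
      have h1 := Finset.single_le_sum (f := fun a => |C2 a|) (fun _ _ => abs_nonneg _)
        (Finset.mem_univ l)
      have h2 : 0 ≤ ∑ l, |C1 l| := Finset.sum_nonneg fun _ _ => abs_nonneg _
      have h3 := le_abs_self (C2 l)
      have h4 : |C2 l| ≤ ∑ l, |C2 l| := h1
      linarith
    filter_upwards [eventually_all.2 hC1, eventually_all.2 hC2] with n e1 e2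
    refine ⟨fun a => (e1 a).trans (Real.exp_le_exp.2 ?_), fun l =>
      (e2 l).trans (Real.exp_le_exp.2 ?_)⟩
    · have := hle1 a
      linarith
    · have := hle2 l
      linarith

end Pool.Agent.R847.SB
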