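import Mathlib
import Pool.Agent.R847.SB.Plc2
import Pool.Agent.R847.SB.Grow
import Pool.Agent.R847.SN.Data

/-!
# The extended local package at a place where the orbit is unbounded
-/

set_option autoImplicit false

open MvPolynomial Filter Topology Asymptotics

namespace Pool.Agent.R847.SB

open Pool.Agent.R847.SN

variable {k : Type} [Field k] {N d : ℕ} {f : Fin (N + 1) → MvPolynomial (Fin (N + 1)) k}
  {U : Ultrafilter ℕ} {x : ℕ → Fin (N + 1) → k}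

/-- the extended local package -/
structure LocX {d : ℕ} {f : Fin (N + 1) → MvPolynomial (Fin (N + 1)) k} {U : Ultrafilter ℕ}
    {x : ℕ → Fin (N + 1) → k} {W : AbsoluteValue (AlgebraicClosure k) ℝ}
    (L : Loc d f U x W) : Prop where
  Λd : ∀ j, ∀ᶠ n in U, L.Λ j n = (d : ℝ) * L.Λ (j + 1) n
  Λlow : ∃ c : ℝ, 0 < c ∧ ∀ᶠ n in U, c * (d : ℝ) ^ n ≤ L.Λ 0 n
  Λup : ∃ C : ℝ, ∀ᶠ n in U, L.Λ 0 n ≤ C * (d : ℝ) ^ n
  val : ∀ (j D : ℕ) (P : MvPolynomial (Fin (N + 1)) k), P.totalDegree ≤ D → ∃ C : ℝ,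
    ∀ᶠ n in U, W (algebraMap k _ (aeval (x (n - j)) P)) ≤ Real.exp (C + (D : ℝ) * L.Λ j n)
  main : ∀ (j b : ℕ) (ρ : Fin b → AlgebraicClosure k), LinearIndependent k ρ →
    (∀ l, ρ l ∈ Kf (L.y j)) → ∃ e : ℕ, 1 ≤ e ∧ ∃ c : ℕ, ∀ D ≥ c,
      ∃ P : Fin (e * b * (D - c + 1)) → MvPolynomial (Fin (N + 1)) k,
        (∀ l, (P l).totalDegree ≤ D) ∧
        (∀ a : Fin (e * b * (D - c + 1)) → k, a ≠ 0 →
          ∀ᶠ n in U, ∑ l, a l * aeval (x (n - j)) (P l) ≠ 0) ∧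
        ∃ B : Fin (e * b * (D - c + 1)) → Fin (e * b * (D - c + 1)) → AlgebraicClosure k,
          (Matrix.of B).det ≠ 0 ∧ ∃ C : ℝ, ∀ᶠ n in U,
            (∀ a, W (∑ l, B a l * algebraMap k _ (aeval (x (n - j)) (P l))) ≤
              Real.exp (C + ((D : ℝ) - ((a : ℕ) : ℝ) / (e : ℝ)) * L.Λ j n)) ∧
            ∀ l, W (algebraMap k _ (aeval (x (n - j)) (P l))) ≤
              Real.exp (C + (D : ℝ) * L.Λ j n)

section tower

variable {Ω : Type} [NormedField Ω] [Algebra k Ω]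

lemma Tower.log_d (T : Tower d f U x Ω) (j : ℕ) :
    ∀ᶠ n in U, Real.log ‖T.s j n‖ = (d : ℝ) * Real.log ‖T.s (j + 1) n‖ := by
  filter_upwards [T.hsd j] with n hn
  rw [← hn, norm_pow, Real.log_pow]

/-- the norm of the point and the scale -/
lemma Tower.cmp_norm (T : Tower d f U x Ω) : ∃ C : ℝ, 0 ≤ C ∧ ∀ᶠ n in U,
    |Real.log ‖fun i => algebraMap k Ω (x n i)‖ - Real.log ‖T.s 0 n‖| ≤ C := by
  have h1 : Tendsto (fun n => ‖T.z 0 n‖) U (𝓝 ‖T.y 0‖) := (T.hz 0).norm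
  have hpos : 0 < ‖T.y 0‖ := norm_pos_iff.2 (T.hy0 0)
  refine ⟨|Real.log (‖T.y 0‖ / 2)| + |Real.log (2 * ‖T.y 0‖)|, by positivity, ?_⟩
  filter_upwards [T.hp 0, h1.eventually (lt_mem_nhds (half_lt_self hpos)),
    h1.eventually (gt_mem_nhds (by linarith : ‖T.y 0‖ < 2 * ‖T.y 0‖)),
    (T.hs 0).eventually_gt_atTop 0] with n e1 e2 e3 e4
  have e5 : (fun i => algebraMap k Ω (x n i)) = T.s 0 n • T.z 0 n := by
    funext i
    have := e1 i
    rw [Nat.sub_zero] at this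
    rw [this]
    rfl
  have e6 : 0 < ‖T.z 0 n‖ := by linarith [half_pos hpos]
  rw [e5, norm_smul, Real.log_mul e4.ne' e6.ne', add_sub_cancel_left]
  have e7 : Real.log (‖T.y 0‖ / 2) ≤ Real.log ‖T.z 0 n‖ :=
    Real.log_le_log (by positivity) e2.le
  have e8 : Real.log ‖T.z 0 n‖ ≤ Real.log (2 * ‖T.y 0‖) := Real.log_le_log e6 e3.le
  rw [abs_le]
  have a1 := neg_abs_le (Real.log (‖T.y 0‖ / 2))
  have a2 := le_abs_self (Real.log (2 * ‖T.y 0‖))
  have a3 := abs_nonneg (Real.log (‖T.y 0‖ / 2))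
  have a4 := abs_nonneg (Real.log (2 * ‖T.y 0‖))
  constructor <;> linarith

lemma pow_big (hd : 2 ≤ d) (hU : (U : Filter ℕ) ≤ atTop) :
    Tendsto (fun n : ℕ => (d : ℝ) ^ n) U atTop :=
  (tendsto_pow_atTop_atTop_of_one_lt (by
    have : (2 : ℝ) ≤ d := by exact_mod_cast hd
    linarith)).mono_left hU

lemma Tower.low (T : Tower d f U x Ω) (hd : 2 ≤ d) (hdeg : ∀ i, (f i).totalDegree ≤ d)
    (hreg : Reg d f) (hx : ∀ n i, x (n + 1) i = aeval (x n) (f i)) (hU : (U : Filter ℕ) ≤ atTop)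
    (hbig : Tendsto (fun n => ‖fun i => algebraMap k Ω (x n i)‖) U atTop) :
    ∃ c : ℝ, 0 < c ∧ ∀ᶠ n in U, c * (d : ℝ) ^ n ≤ Real.log ‖T.s 0 n‖ := by
  obtain ⟨C, hC0, hC⟩ := Tower.cmp_norm T
  obtain ⟨c, hc, n0, h⟩ := seq_low (Ω := Ω) hd f hdeg hreg
    (fun n i => algebraMap k Ω (x n i)) (by
      intro n
      funext i
      rw [hx, map_aevalk]) (by
      intro B
      exact (hbig.eventually_ge_atTop B).exists)
  refine ⟨c / 2, by positivity, ?_⟩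
  have h0 : ∀ᶠ n in U, n0 ≤ n := hU (eventually_ge_atTop n0)
  filter_upwards [hC, h0, (pow_big hd hU).eventually_ge_atTop (2 * C / c)] with n e1 e2 e3
  have e4 := h n e2
  have e5 : C ≤ c / 2 * (d : ℝ) ^ n := by
    have := mul_le_mul_of_nonneg_left e3 (by positivity : (0 : ℝ) ≤ c / 2)
    calc C = c / 2 * (2 * C / c) := by field_simp
      _ ≤ _ := this
  have e6 := (abs_le.1 e1).2
  linarith

lemma Tower.upb (T : Tower d f U x Ω) (hd : 2 ≤ d) (hdeg : ∀ i, (f i).totalDegree ≤ d)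
    (hx : ∀ n i, x (n + 1) i = aeval (x n) (f i)) (hU : (U : Filter ℕ) ≤ atTop) :
    ∃ C : ℝ, ∀ᶠ n in U, Real.log ‖T.s 0 n‖ ≤ C * (d : ℝ) ^ n := by
  obtain ⟨C, hC0, hC⟩ := Tower.cmp_norm T
  obtain ⟨C1, hC1, h⟩ := seq_up (Ω := Ω) hd f hdeg
    (fun n i => algebraMap k Ω (x n i)) (by
      intro n
      funext i
      rw [hx, map_aevalk])
  refine ⟨C + C1, ?_⟩
  filter_upwards [hC, (pow_big hd hU).eventually_ge_atTop 1] with n e1 e3
  have e4 := h n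
  have e5 : Real.log ‖fun i => algebraMap k Ω (x n i)‖ ≤
      Real.log (max 1 ‖fun i => algebraMap k Ω (x n i)‖) := by
    rcases (norm_nonneg (fun i => algebraMap k Ω (x n i))).eq_or_lt with h0 | h0
    · rw [← h0, Real.log_zero]
      exact Real.log_nonneg (le_max_left _ _)
    · exact Real.log_le_log h0 (le_max_right _ _)
  have e6 := (abs_le.1 e1).1
  have e7 : C * 1 ≤ C * (d : ℝ) ^ n := mul_le_mul_of_nonneg_left e3 hC0
  linarith

end tower

/-- the local package at a place where the orbit is unbounded -/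
theorem exists_locX [CharZero k] (W : AbsoluteValue (AlgebraicClosure k) ℝ) (d : ℕ) (hd : 2 ≤ d)
    (f : Fin (N + 1) → MvPolynomial (Fin (N + 1)) k)
    (hdeg : ∀ i, (f i).totalDegree ≤ d) (hreg : Reg d f)
    (x : ℕ → Fin (N + 1) → k) (hx : ∀ n i, x (n + 1) i = aeval (x n) (f i))
    (U : Ultrafilter ℕ) (hU : (U : Filter ℕ) ≤ atTop)
    (hbig : ∀ C : ℝ, ∀ᶠ n in U, ∃ i, C ≤ W (algebraMap k _ (x n i)))
    (hpair : ∀ i j, ∃ P : MvPolynomial (Fin 2) k, P ≠ 0 ∧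
      ∀ᶠ n in U, aeval ![x n i, x n j] P = 0) :
    ∃ L : Loc d f U x W, LocX L := by
  let iN : NormedField (AlgebraicClosure k) := W.toNormedField
  have hnorm : ∀ a : AlgebraicClosure k, ‖a‖ = W a := fun a => rfl
  have hbig' : Tendsto (fun n => ‖fun i => algebraMap k (AlgebraicClosure k) (x n i)‖) U
      atTop := by
    rw [tendsto_atTop]
    intro C
    filter_upwards [hbig C] with n hn
    obtain ⟨i, hi⟩ := hn
    rw [← hnorm] at hi
    exact hi.trans (norm_le_pi_norm (fun i => algebraMap k (AlgebraicClosure k) (x n i)) i)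
  obtain ⟨T⟩ := exists_tower (Ω := AlgebraicClosure k) d hd f hdeg hreg x hx U hU hbig' hpair
  refine ⟨⟨T.y, T.hy, T.hy0, T.top, T.coord, fun j n => Real.log ‖T.s j n‖, fun j =>
    Real.tendsto_log_atTop.comp (T.hs j), ?_, ?_⟩, ⟨?_, ?_, ?_, ?_, ?_⟩⟩
  · intro k1 hdet m
    obtain ⟨K, hK⟩ := sub_place T hd hdeg k1 hdet m
    refine ⟨K, fun j hj P hP => ?_⟩
    obtain ⟨B, hB, C, hC0, hC⟩ := hK j hj P hP
    refine ⟨B, hB, Real.log C, ?_⟩
    filter_upwards [hC, (T.hs j).eventually_gt_atTop 0] with n hn hs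
    have e1 : ∀ a : ℝ, C * ‖T.s j n‖ ^ a = Real.exp (Real.log C + a * Real.log ‖T.s j n‖) := by
      intro a
      rw [Real.exp_add, Real.exp_log hC0, Real.rpow_def_of_pos hs, mul_comm a]
    refine ⟨fun a => ?_, fun e => ?_⟩
    · rw [← e1]
      exact hn.1 a
    · rw [← e1]
      exact hn.2 e
  · intro k1 hdet l τ hτ hyl m
    exact mon_place T hd hdeg k1 hdet l τ hτ hyl m
  · intro j
    exact Tower.log_d T j
  · exact Tower.low T hd hdeg hreg hx hU hbig'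
  · exact Tower.upb T hd hdeg hx hU
  · intro j D P hP
    exact Tower.val_le T j D P hP
  · intro j b ρ hρ hρK
    exact place_main T (by omega) hdeg hreg hpair j b ρ hρ hρK

end Pool.Agent.R847.SB
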