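import Mathlib
import Pool.Agent.R847.SB.LocX

/-!
# Construction of the extended global data
-/

set_option autoImplicit false

namespace Pool.Agent.R847.SB

open MvPolynomial NumberField IsDedekindDomain Height Module Filter Topology
open Pool.Agent.W180.OP (Pl av wt wt_nonneg nrm le_nrm nrm_pos nrm_le nrm_nonneg exists_nrm
  fv_support_finite)
open Pool.Agent.R405 (Good schF logHeight_sum nrm_finite)
open Pool.Agent.R847.SN

variable {k : Type} [Field k] [NumberField k] {N d : ℕ}
  {f : Fin (N + 1) → MvPolynomial (Fin (N + 1)) k}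
  {U : Ultrafilter ℕ} {x : ℕ → Fin (N + 1) → k}

/-- Existence of the extended global data. -/
theorem exists_globX (hd : 2 ≤ d) (hdeg : ∀ i, (f i).totalDegree ≤ d) (hreg : Reg d f)
    (hx : ∀ n i, x (n + 1) i = aeval (x n) (f i)) (hinj : Function.Injective x)
    (hU : (U : Filter ℕ) ≤ atTop)
    (hpair : ∀ i j, ∃ P : MvPolynomial (Fin 2) k, P ≠ 0 ∧
      ∀ᶠ n in U, aeval ![x n i, x n j] P = 0) :
    ∃ G : Glob d f U x, ∀ v, LocX (G.loc v) := by
  classical
  obtain ⟨S, hS, hSint⟩ := exists_S ((Finset.univ.biUnion fun i =>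
    (f i).support.image fun m => coeff m (f i)) ∪ (Finset.univ.image fun i => x 0 i))
  have hint : ∀ n v, v ∉ S → ∀ i, av v (x n i) ≤ 1 := by
    intro n v hv
    rcases v with w | v
    · exact absurd (hS w) hv
    · induction n with
      | zero =>
        intro i
        exact hSint _ hv _ (Finset.mem_union_right _ (Finset.mem_image_of_mem _
          (Finset.mem_univ i)))
      | succ n ih =>
        intro i
        rw [hx]
        apply int_eval v (f i) _ (x n) ih
        intro κ
        by_cases hκ : κ ∈ (f i).support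
        · exact hSint _ hv _ (Finset.mem_union_left _ (Finset.mem_biUnion.2
            ⟨i, Finset.mem_univ i, Finset.mem_image_of_mem _ hκ⟩))
        · rw [notMem_support_iff.1 hκ, map_zero]
          exact zero_le_one
  choose W hW using fun v : Pl k => exists_isExt v
  obtain ⟨v0, hv0, hbig0⟩ := exists_big S hS hint hinj hU
  set big : Finset (Pl k) := S.filter fun v => ∀ C : ℝ, ∀ᶠ n in U, ∃ i, C ≤ av v (x n i)
    with hbigdef
  have hloc : ∀ v : big, ∃ L : Loc d f U x (W v), LocX L := by
    intro v
    have h1 := (Finset.mem_filter.1 v.2).2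
    apply exists_locX (W v) d hd f hdeg hreg x hx U hU _ hpair
    intro C
    filter_upwards [h1 C] with n hn
    obtain ⟨i, hi⟩ := hn
    refine ⟨i, ?_⟩
    rw [(hW v).1]
    exact hi
  choose L hL using hloc
  refine ⟨⟨S, W, hS, hW, hx, hU, hint, big, Finset.filter_subset _ _, v0,
    Finset.mem_filter.2 ⟨hv0, hbig0⟩, L, ?_⟩, hL⟩
  intro v hv hv' j
  apply bdd_step (by omega) hdeg hreg hx hU v (W v) (hW v) _ j
  apply uf_not
  intro h
  exact hv' (Finset.mem_filter.2 ⟨hv, h⟩)

end Pool.Agent.R847.SB
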