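import Mathlib
import Pool.Agent.R847.SN.Glob

/-!
# The subspace theorem for points with given local growth, general exponents
-/

set_option autoImplicit false

namespace Pool.Agent.R847.SB

open NumberField IsDedekindDomain Height Module Filter Topology
open Pool.Agent.W180.OP (Pl av wt wt_nonneg nrm le_nrm nrm_pos nrm_le nrm_nonneg exists_nrm)
open Pool.Agent.R405 (Good schF logHeight_sum nrm_finite)
open Pool.Agent.R847.SN

variable {k : Type} [Field k] [NumberField k]

/-- The subspace theorem for points with given local growth. -/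
theorem sub_globG (S : Finset (Pl k)) (hS : ∀ w : InfinitePlace k, Sum.inl w ∈ S)
    (W : Pl k → AbsoluteValue (AlgebraicClosure k) ℝ) (hW : ∀ v ∈ S, IsExt v (W v))
    (U : Ultrafilter ℕ) (n0 : ℕ) (hn0 : 1 ≤ n0) (Y : ℕ → Fin (n0 + 1) → k)
    (hint : ∀ n v, v ∉ S → ∀ e, av v (Y n e) ≤ 1) (Λ : Pl k → ℕ → ℝ)
    (hΛ : Tendsto (fun n => ∑ v ∈ S, wt v * Λ v n) U atTop)
    (B : Pl k → Fin (n0 + 1) → Fin (n0 + 1) → AlgebraicClosure k)
    (hdet : ∀ v ∈ S, (Matrix.of (B v)).det ≠ 0) (C : Pl k → ℝ) (m : ℝ) (hm : 0 ≤ m)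
    (γ : Pl k → Fin (n0 + 1) → ℝ)
    (h1 : ∀ v ∈ S, ∀ᶠ n in U, ∀ a, W v (∑ e, B v a e * algebraMap k _ (Y n e)) ≤
      Real.exp (C v + γ v a * Λ v n))
    (h2 : ∀ v ∈ S, ∀ᶠ n in U, ∀ e, av v (Y n e) ≤ Real.exp (C v + m * Λ v n))
    (η : ℝ) (hη : 0 < η) (hγ : ∀ᶠ n in U, ∑ v ∈ S, wt v * ((∑ a, γ v a) * Λ v n) ≤
      -(η * ∑ v ∈ S, wt v * Λ v n))
    (hind : ∀ c : Fin (n0 + 1) → k, c ≠ 0 → ∀ᶠ n in U, ∑ e, c e * Y n e ≠ 0) : False := by
  classical
  have hN : Tendsto (fun n => logHeight (Y n)) U atTop :=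
    height_tendsto U (N := n0) hn0 Y hind
  -- the field of the forms
  set Tset : Set (AlgebraicClosure k) := ⋃ v ∈ S, ⋃ a, ⋃ e, {B v a e} with hTset
  have hTfin : Tset.Finite := by
    apply Set.Finite.biUnion S.finite_toSet
    intro v _
    exact Set.finite_iUnion fun a => Set.finite_iUnion fun e => Set.finite_singleton _
  obtain ⟨K, _, _, _, _, φ, hi, hK⟩ := exists_gal k Tset hTfin
  have hBK : ∀ v a e, ∃ y : K, v ∈ S → φ y = B v a e := by
    intro v a e
    by_cases hv : v ∈ S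
    · obtain ⟨y, hy⟩ := hK (B v a e) (by
        rw [hTset]
        simp only [Set.mem_iUnion]
        exact ⟨v, hv, a, e, rfl⟩)
      exact ⟨y, fun _ => hy⟩
    · exact ⟨0, fun h => absurd h hv⟩
  choose B' hB' using hBK
  have hφ : ∀ v ∈ S, ∀ a n, φ (∑ e, B' v a e * algebraMap k K (Y n e)) =
      ∑ e, B v a e * algebraMap k _ (Y n e) := by
    intro v hv a n
    rw [map_sum]
    refine Finset.sum_congr rfl fun e _ => ?_
    rw [map_mul, hB' v a e hv, AlgHom.commutes]
  have hdet' : ∀ v ∈ S, (Matrix.of (B' v)).det ≠ 0 := by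
    intro v hv h0
    apply hdet v hv
    have e1 : Matrix.of (B v) = (Matrix.of (B' v)).map φ := by
      ext a e
      exact (hB' v a e hv).symm
    have e2 : ((Matrix.of (B' v)).map φ).det = φ (Matrix.of (B' v)).det :=
      (AlgHom.map_det φ (Matrix.of (B' v))).symm
    rw [e1, e2, h0, map_zero]
  -- independence over the large field
  have hindK : ∀ c : Fin (n0 + 1) → K, c ≠ 0 →
      ∀ᶠ n in U, ∑ e, c e * algebraMap k K (Y n e) ≠ 0 := by
    intro c hc
    obtain ⟨e0, he0⟩ := Function.ne_iff.1 hc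
    obtain ⟨ψ, hψ⟩ : ∃ ψ : K →ₗ[k] k, ψ (c e0) ≠ 0 := by
      by_contra hall
      push Not at hall
      exact he0 ((Module.forall_dual_apply_eq_zero_iff k _).1 hall)
    filter_upwards [hind (fun e => ψ (c e)) (fun h => hψ (congrFun h e0))] with n hn h0
    apply hn
    have h3 := congrArg ψ h0
    rw [map_zero, map_sum] at h3
    rw [← h3]
    refine Finset.sum_congr rfl fun e _ => ?_
    have h4 : c e * algebraMap k K (Y n e) = Y n e • c e := by
      rw [Algebra.smul_def, mul_comm]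
    rw [h4, map_smul, smul_eq_mul, mul_comm]
  have key := schF hi (U : Filter ℕ) (n := n0 + 1) (by omega) S
    (fun v => (W v).comp φ.toRingHom.injective) (fun v hv => (hW v hv).2 K φ) B' hdet' Y hN
    hindK (η / (2 * (m + 1))) (by positivity)
  -- nonvanishing of the forms
  have hform : ∀ v ∈ S, ∀ a, ∀ᶠ n in U, ∑ e, B' v a e * algebraMap k K (Y n e) ≠ 0 := by
    intro v hv a
    apply hindK
    intro h0
    apply hdet' v hv
    apply Matrix.det_eq_zero_of_row_eq_zero a
    intro e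
    exact congrFun h0 e
  have hform' : ∀ᶠ n in U, ∀ v ∈ S, ∀ a, ∑ e, B' v a e * algebraMap k K (Y n e) ≠ 0 := by
    rw [Filter.eventually_all_finset]
    intro v hv
    rw [Filter.eventually_all]
    exact hform v hv
  have hY0 : ∀ᶠ n in U, Y n ≠ 0 := by
    filter_upwards [hind (Pi.single 0 1) (by simp)] with n hn h0
    apply hn
    simp [h0]
  have h1' : ∀ᶠ n in U, ∀ v ∈ S, ∀ a, W v (∑ e, B v a e * algebraMap k _ (Y n e)) ≤
      Real.exp (C v + γ v a * Λ v n) := by
    rw [Filter.eventually_all_finset]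
    exact h1
  have h2' : ∀ᶠ n in U, ∀ v ∈ S, ∀ e, av v (Y n e) ≤ Real.exp (C v + m * Λ v n) := by
    rw [Filter.eventually_all_finset]
    exact h2
  set r : ℝ := ((n0 + 1 : ℕ) : ℝ) with hr
  set ε : ℝ := η / (2 * (m + 1)) with hε
  have hε0 : 0 < ε := by positivity
  have hbig := hΛ.eventually_gt_atTop (max (2 * (r + ε) * (∑ v ∈ S, wt v * C v) / η) 0)
  obtain ⟨n, e0, e1, e2, e3, e4, e5, e6⟩ :=
    (key.and (hform'.and (hY0.and (h1'.and (h2'.and (hbig.and hγ)))))).exists
  have hht := height_le S hS (Y n) e2 (hint n)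
  -- local inequality
  have hloc : ∀ v ∈ S, r * Real.log (nrm (av v) (Y n)) - r * C v - (∑ a, γ v a) * Λ v n ≤
      ∑ a, (Real.log (nrm (av v) (Y n)) - Real.log (((W v).comp φ.toRingHom.injective)
        (∑ e, B' v a e * algebraMap k K (Y n e)))) := by
    intro v hv
    have e6 : ∀ a : Fin (n0 + 1), Real.log (((W v).comp φ.toRingHom.injective)
        (∑ e, B' v a e * algebraMap k K (Y n e))) ≤ C v + γ v a * Λ v n := by
      intro a
      have e7 : ((W v).comp φ.toRingHom.injective)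
        (∑ e, B' v a e * algebraMap k K (Y n e)) =
          W v (∑ e, B v a e * algebraMap k _ (Y n e)) := by
        rw [← hφ v hv a n]
        rfl
      rw [e7]
      have e8 : 0 < W v (∑ e, B v a e * algebraMap k _ (Y n e)) := by
        rw [← hφ v hv a n]
        apply (W v).pos
        rw [Ne, map_eq_zero]
        exact e1 v hv a
      rw [Real.log_le_iff_le_exp e8]
      exact e3 v hv a
    have e9 : ∑ a : Fin (n0 + 1), (Real.log (nrm (av v) (Y n)) - (C v + γ v a * Λ v n)) ≤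
        ∑ a, (Real.log (nrm (av v) (Y n)) - Real.log (((W v).comp φ.toRingHom.injective)
        (∑ e, B' v a e * algebraMap k K (Y n e)))) :=
      Finset.sum_le_sum fun a _ => by linarith [e6 a]
    refine le_trans (le_of_eq ?_) e9
    rw [Finset.sum_sub_distrib, Finset.sum_add_distrib, ← Finset.sum_mul]
    simp only [Finset.sum_const, Finset.card_univ, Fintype.card_fin, nsmul_eq_mul]
    rw [hr]
    ring
  have hup : ∀ v ∈ S, Real.log (nrm (av v) (Y n)) ≤ C v + m * Λ v n := by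
    intro v hv
    rw [Real.log_le_iff_le_exp (nrm_pos _ e2)]
    exact nrm_le (Real.exp_pos _).le (e4 v hv)
  have hsum : ∑ v ∈ S, wt v * (r * Real.log (nrm (av v) (Y n)) - r * C v -
      (∑ a, γ v a) * Λ v n) ≤ (r + ε) * logHeight (Y n) := by
    refine le_trans (Finset.sum_le_sum fun v hv =>
      mul_le_mul_of_nonneg_left (hloc v hv) (wt_nonneg v)) e0
  have hr0 : 0 ≤ r := Nat.cast_nonneg _
  have hsum3 : ∑ v ∈ S, wt v * Real.log (nrm (av v) (Y n)) ≤
      ∑ v ∈ S, wt v * (C v + m * Λ v n) :=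
    Finset.sum_le_sum fun v hv => mul_le_mul_of_nonneg_left (hup v hv) (wt_nonneg v)
  have x1 : ∑ v ∈ S, wt v * (r * Real.log (nrm (av v) (Y n)) - r * C v -
      (∑ a, γ v a) * Λ v n) = r * ∑ v ∈ S, wt v * Real.log (nrm (av v) (Y n)) -
      r * ∑ v ∈ S, wt v * C v - ∑ v ∈ S, wt v * ((∑ a, γ v a) * Λ v n) := by
    rw [Finset.mul_sum, Finset.mul_sum, ← Finset.sum_sub_distrib, ← Finset.sum_sub_distrib]
    refine Finset.sum_congr rfl fun v _ => ?_
    ring
  have x2 : ∑ v ∈ S, wt v * (C v + m * Λ v n) =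
      ∑ v ∈ S, wt v * C v + m * ∑ v ∈ S, wt v * Λ v n := by
    rw [Finset.mul_sum, ← Finset.sum_add_distrib]
    refine Finset.sum_congr rfl fun v _ => ?_
    ring
  rw [x1] at hsum
  rw [x2] at hsum3
  set hh := logHeight (Y n) with hhh
  set A := ∑ v ∈ S, wt v * Real.log (nrm (av v) (Y n)) with hA
  set L := ∑ v ∈ S, wt v * Λ v n with hL
  set Cs := ∑ v ∈ S, wt v * C v with hCs
  -- the main inequality
  have y1 : η * L ≤ ε * hh + r * Cs := by
    have : r * hh ≤ r * A := mul_le_mul_of_nonneg_left hht hr0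
    nlinarith
  have y2 : ε * hh ≤ ε * (Cs + m * L) := mul_le_mul_of_nonneg_left (hht.trans hsum3) hε0.le
  have y3 : ε * m ≤ η / 2 := by
    rw [hε, div_mul_eq_mul_div, div_le_div_iff₀ (by positivity) two_pos]
    nlinarith
  have hL0 : 2 * (r + ε) * Cs < L * η := by
    have e7 := (le_max_left _ _).trans_lt e5
    rwa [div_lt_iff₀ hη] at e7
  have hLn : 0 ≤ L := ((le_max_right _ _).trans_lt e5).le
  have y4 : ε * (m * L) ≤ η / 2 * L := by
    rw [← mul_assoc]
    exact mul_le_mul_of_nonneg_right y3 hLn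
  nlinarith

end Pool.Agent.R847.SB
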