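import Mathlib
import Pool.Agent.R847.SB.DataX
import Pool.Agent.R847.SB.GlobG

/-!
# The degrees of the points at infinity are bounded
-/

set_option autoImplicit false

namespace Pool.Agent.R847.SB

open MvPolynomial NumberField IsDedekindDomain Height Module Filter Topology
open Pool.Agent.W180.OP (Pl av wt wt_nonneg nrm le_nrm nrm_pos nrm_le nrm_nonneg exists_nrm)
open Pool.Agent.R405 (Good schF logHeight_sum nrm_finite)
open Pool.Agent.R847.SN

variable {k : Type} [Field k] [NumberField k] {N d : ℕ}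
  {f : Fin (N + 1) → MvPolynomial (Fin (N + 1)) k}
  {U : Ultrafilter ℕ} {x : ℕ → Fin (N + 1) → k}

/-- Independent polynomials with small forms at one place contradict the subspace theorem. -/
theorem contra (G : Glob d f U x) (hX : ∀ v, LocX (G.loc v)) (v : G.big) (j n0 D e : ℕ)
    (hn0 : 1 ≤ n0) (he : 1 ≤ e) (P : Fin (n0 + 1) → MvPolynomial (Fin (N + 1)) k)
    (hP : ∀ l, (P l).totalDegree ≤ D)
    (hind : ∀ a : Fin (n0 + 1) → k, a ≠ 0 → ∀ᶠ n in U, ∑ l, a l * aeval (x (n - j)) (P l) ≠ 0)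
    (B : Fin (n0 + 1) → Fin (n0 + 1) → AlgebraicClosure k) (hB : (Matrix.of B).det ≠ 0) (c : ℝ)
    (hC : ∀ᶠ n in U, ∀ a, G.W v (∑ l, B a l * algebraMap k _ (aeval (x (n - j)) (P l))) ≤
      Real.exp (c + ((D : ℝ) - ((a : ℕ) : ℝ) / (e : ℝ)) * (G.loc v).Λ j n))
    (A : ℝ) (hA : ∀ᶠ n in U, ∑ v' : G.big, wt (v' : Pl k) * (G.loc v').Λ j n ≤
      A * (wt (v : Pl k) * (G.loc v).Λ j n))
    (hDA : ((D : ℝ) + 1) * A ≤ (n0 : ℝ) / (2 * (e : ℝ))) : False := by
  classical
  obtain ⟨s, hs, hsP⟩ := scale_poly P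
  set P' : Fin (n0 + 1) → MvPolynomial (Fin (N + 1)) k := fun e => C s * P e with hP'
  have hP'deg : ∀ e, (P' e).totalDegree ≤ D := by
    intro e
    refine (totalDegree_mul _ _).trans ?_
    rw [totalDegree_C, zero_add]
    exact hP e
  have hval : ∀ n e, aeval (x n) (P' e) = s * aeval (x n) (P e) := by
    intro n e
    rw [hP']
    simp only [map_mul, aeval_C]
    rfl
  have hWav : ∀ v (t : k), G.W v (algebraMap k _ t) = av v t := fun v t => (G.hW v).1 t
  set Λ : Pl k → ℕ → ℝ := fun v n => if h : v ∈ G.big then (G.loc ⟨v, h⟩).Λ j n else 0 with hΛ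
  have hΛ1 : ∀ v (h : v ∈ G.big) n, Λ v n = (G.loc ⟨v, h⟩).Λ j n := fun v h n => dif_pos h
  have hΛ0 : ∀ v, v ∉ G.big → ∀ n, Λ v n = 0 := fun v h n => dif_neg h
  set BB : Pl k → Fin (n0 + 1) → Fin (n0 + 1) → AlgebraicClosure k := fun v' =>
    if v' = v then B else (1 : Matrix _ _ _) with hBB
  have hBB1 : BB v = B := if_pos rfl
  have hBB0 : ∀ v' : Pl k, v' ≠ v → BB v' = (1 : Matrix _ _ _) := fun v' h => if_neg h
  set γ : Pl k → Fin (n0 + 1) → ℝ := fun v' a =>
    if v' = v then (D : ℝ) - ((a : ℕ) : ℝ) / (e : ℝ) else (D : ℝ) with hγ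
  -- the values
  have h2 : ∀ v' : Pl k, ∃ C' : ℝ, v' ∈ G.S → ∀ᶠ n in U, ∀ e,
      av v' (aeval (x (n - j)) (P' e)) ≤ Real.exp (C' + (D : ℝ) * Λ v' n) := by
    intro v'
    by_cases hv : v' ∈ G.S
    · by_cases hb : v' ∈ G.big
      · choose c1 hc1 using fun e => (hX ⟨v', hb⟩).val j D (P' e) (hP'deg e)
        refine ⟨∑ e, |c1 e|, fun _ => ?_⟩
        filter_upwards [eventually_all.2 hc1] with n hn e
        have e1 := hn e
        rw [hWav] at e1
        rw [hΛ1 v' hb]
        refine e1.trans (Real.exp_le_exp.2 ?_)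
        have e2 := Finset.single_le_sum (f := fun e => |c1 e|)
          (fun _ _ => abs_nonneg _) (Finset.mem_univ e)
        have e3 := le_abs_self (c1 e)
        have e4 : |c1 e| ≤ ∑ e, |c1 e| := e2
        linarith
      · choose c1 hc1 using fun e => G.val_bdd v' hv hb j (P' e)
        refine ⟨∑ e, |c1 e|, fun _ => ?_⟩
        filter_upwards [eventually_all.2 hc1] with n hn e
        rw [hΛ0 v' hb, mul_zero, add_zero]
        refine (hn e).trans (Real.exp_le_exp.2 ?_)
        exact (le_abs_self _).trans (Finset.single_le_sum (f := fun e => |c1 e|)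
          (fun _ _ => abs_nonneg _) (Finset.mem_univ e))
    · exact ⟨0, fun h => absurd h hv⟩
  choose C2 hC2 using h2
  -- the forms
  have h1 : ∀ v' : Pl k, ∃ C' : ℝ, v' ∈ G.S → ∀ᶠ n in U, ∀ a,
      G.W v' (∑ e, BB v' a e * algebraMap k _ (aeval (x (n - j)) (P' e))) ≤
        Real.exp (C' + γ v' a * Λ v' n) := by
    intro v'
    by_cases hvv : v' = v
    · refine ⟨Real.log (G.W v (algebraMap k _ s)) + c, fun _ => ?_⟩
      filter_upwards [hC] with n hn a
      have e1 := hn a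
      have hbig : v' ∈ G.big := hvv ▸ v.2
      have e0 : (⟨v', hbig⟩ : G.big) = v := Subtype.ext hvv
      have e2 : ∑ e, BB v' a e * algebraMap k (AlgebraicClosure k) (aeval (x (n - j)) (P' e)) =
          algebraMap k (AlgebraicClosure k) s *
            ∑ l, B a l * algebraMap k _ (aeval (x (n - j)) (P l)) := by
        rw [Finset.mul_sum]
        refine Finset.sum_congr rfl fun l _ => ?_
        rw [hval, map_mul, hvv, hBB1]
        ring
      have e3 : γ v' a = (D : ℝ) - ((a : ℕ) : ℝ) / (e : ℝ) := by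
        rw [hγ]
        simp only [hvv, if_true]
      have e4 : 0 < G.W v (algebraMap k (AlgebraicClosure k) s) := by
        apply (G.W v).pos
        rw [Ne, map_eq_zero]
        exact hs
      rw [e2, hΛ1 v' hbig, e0, e3, hvv, map_mul, add_assoc, Real.exp_add, Real.exp_log e4]
      exact mul_le_mul_of_nonneg_left e1 e4.le
    · refine ⟨C2 v', fun hv => ?_⟩
      filter_upwards [hC2 v' hv] with n hn a
      have e1 := hn a
      have e2 := hBB0 v' hvv
      have e3 : γ v' a = (D : ℝ) := by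
        rw [hγ]
        simp only [hvv, if_false]
      rw [e2, e3, Finset.sum_eq_single a]
      · rw [Matrix.one_apply_eq, one_mul, hWav]
        exact e1
      · intro b _ hb
        rw [Matrix.one_apply_ne (Ne.symm hb), zero_mul]
      · intro h
        exact absurd (Finset.mem_univ _) h
  choose C1 hC1 using h1
  have hΛnn : ∀ᶠ n in U, ∀ v' ∈ G.S, 0 ≤ Λ v' n := by
    rw [Filter.eventually_all_finset]
    intro v' _
    by_cases h : v' ∈ G.big
    · filter_upwards [((G.loc ⟨v', h⟩).hΛ j).eventually_ge_atTop 0] with n hn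
      rw [hΛ1 v' h]
      exact hn
    · filter_upwards with n
      rw [hΛ0 v' h]
  have hγsum1 : ∑ a, γ v a = ((n0 : ℝ) + 1) * D - ((n0 : ℝ) + 1) * n0 / (2 * e) := by
    have e0 : ∀ a, γ v a = (D : ℝ) - ((a : ℕ) : ℝ) / (e : ℝ) := by
      intro a
      rw [hγ]
      simp only [if_true]
    simp_rw [e0]
    rw [Finset.sum_sub_distrib, Finset.sum_const, Finset.card_univ, Fintype.card_fin,
      nsmul_eq_mul, ← Finset.sum_div]
    have h2 : ∑ l : Fin (n0 + 1), ((l : ℕ) : ℝ) = ((n0 : ℝ) + 1) * n0 / 2 := by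
      rw [Fin.sum_univ_eq_sum_range (fun l => (l : ℝ))]
      have h3 := Finset.sum_range_id_mul_two (n0 + 1)
      have h4 : ((∑ i ∈ Finset.range (n0 + 1), i : ℕ) : ℝ) * 2 = ((n0 : ℝ) + 1) * n0 := by
        have : (((∑ i ∈ Finset.range (n0 + 1), i) * 2 : ℕ) : ℝ) =
            (((n0 + 1) * (n0 + 1 - 1) : ℕ) : ℝ) := by rw [h3]
        push_cast at this ⊢
        rw [this]
      push_cast at h4
      linarith
    rw [h2]
    have he0 : (e : ℝ) ≠ 0 := by
      have : e ≠ 0 := by omega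
      exact_mod_cast this
    push_cast
    field_simp
  have hγsum0 : ∀ v' : Pl k, v' ≠ v → ∑ a, γ v' a = ((n0 : ℝ) + 1) * D := by
    intro v' hv'
    have e0 : ∀ a, γ v' a = (D : ℝ) := by
      intro a
      rw [hγ]
      simp only [hv', if_false]
    simp_rw [e0]
    rw [Finset.sum_const, Finset.card_univ, Fintype.card_fin, nsmul_eq_mul]
    push_cast
    ring
  have hvS : (v : Pl k) ∈ G.S := G.hbig v.2
  have hsumΛ : ∀ n, ∑ v' ∈ G.S, wt v' * Λ v' n = ∑ v' : G.big, wt (v' : Pl k) *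
      (G.loc v').Λ j n := by
    intro n
    rw [← Finset.sum_subset G.hbig, ← Finset.sum_coe_sort]
    · refine Finset.sum_congr rfl fun v' _ => ?_
      rw [hΛ1 v' v'.2]
    · intro v' _ hv'
      rw [hΛ0 v' hv', mul_zero]
  refine sub_globG G.S G.hS G.W (fun v _ => G.hW v) U n0 hn0
    (fun n e => aeval (x (n - j)) (P' e))
    (fun n v hv e => G.out v hv (P' e) (fun m v => hsP e m v) _) Λ ?_ BB ?_
    (fun v' => max (C1 v') (C2 v')) (D : ℝ) (Nat.cast_nonneg _) γ ?_ ?_ 1 one_pos ?_ ?_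
  · have h2 : Tendsto (fun n => wt (v : Pl k) * Λ v n) U atTop := by
      apply Tendsto.const_mul_atTop (wt_pos _)
      refine ((G.loc v).hΛ j).congr fun n => ?_
      rw [hΛ1 _ v.2]
    refine tendsto_atTop_mono' _ ?_ h2
    filter_upwards [hΛnn] with n hn
    exact Finset.single_le_sum (f := fun v => wt v * Λ v n)
      (fun v hv => mul_nonneg (wt_nonneg v) (hn v hv)) hvS
  · intro v' _
    by_cases h : v' = v
    · rw [h, hBB1]
      exact hB
    · rw [hBB0 v' h]
      have : (Matrix.of (1 : Matrix (Fin (n0 + 1)) (Fin (n0 + 1))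
          (AlgebraicClosure k))) = 1 := rfl
      rw [this, Matrix.det_one]
      exact one_ne_zero
  · intro v' hv'
    filter_upwards [hC1 v' hv'] with n hn a
    refine (hn a).trans (Real.exp_le_exp.2 ?_)
    have := le_max_left (C1 v') (C2 v')
    linarith
  · intro v' hv'
    filter_upwards [hC2 v' hv'] with n hn a
    refine (hn a).trans (Real.exp_le_exp.2 ?_)
    have := le_max_right (C1 v') (C2 v')
    linarith
  · filter_upwards [hA, hΛnn] with n e1 e2
    rw [hsumΛ n]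
    have e3 : ∑ v' ∈ G.S, wt v' * ((∑ a, γ v' a) * Λ v' n) =
        ((n0 : ℝ) + 1) * D * ∑ v' ∈ G.S, wt v' * Λ v' n -
          ((n0 : ℝ) + 1) * n0 / (2 * e) * (wt (v : Pl k) * Λ v n) := by
      rw [← Finset.add_sum_erase _ _ hvS, ← Finset.add_sum_erase (a := (v : Pl k)) G.S
        (fun v' => wt v' * Λ v' n) hvS, hγsum1, mul_add, Finset.mul_sum]
      have e4 : ∑ v' ∈ G.S.erase v, wt v' * ((∑ a, γ v' a) * Λ v' n) =
          ∑ v' ∈ G.S.erase v, ((n0 : ℝ) + 1) * D * (wt v' * Λ v' n) := by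
        refine Finset.sum_congr rfl fun v' hv' => ?_
        rw [hγsum0 v' (Finset.mem_erase.1 hv').1]
        ring
      rw [e4]
      ring
    rw [e3, hsumΛ n]
    set T := ∑ v' : G.big, wt (v' : Pl k) * (G.loc v').Λ j n with hT
    have hT0 : 0 ≤ T := by
      rw [hT, ← hsumΛ n]
      exact Finset.sum_nonneg fun v' hv' => mul_nonneg (wt_nonneg v') (e2 v' hv')
    have hΛv : Λ v n = (G.loc v).Λ j n := hΛ1 v v.2 n
    rw [hΛv]
    set Q := wt (v : Pl k) * (G.loc v).Λ j n with hQ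
    have hQ0 : 0 ≤ Q := by
      rw [hQ, ← hΛv]
      exact mul_nonneg (wt_nonneg _) (e2 v hvS)
    have hn0r : (0 : ℝ) ≤ n0 := Nat.cast_nonneg _
    have hD0 : (0 : ℝ) ≤ D := Nat.cast_nonneg _
    have a1 : ((n0 : ℝ) + 1) * (D + 1) * T ≤ ((n0 : ℝ) + 1) * (D + 1) * (A * Q) :=
      mul_le_mul_of_nonneg_left e1 (by positivity)
    have a2 : ((n0 : ℝ) + 1) * Q * ((D + 1) * A) ≤ ((n0 : ℝ) + 1) * Q * ((n0 : ℝ) / (2 * e)) :=
      mul_le_mul_of_nonneg_left hDA (by positivity)
    have a3 : ((n0 : ℝ) + 1) * Q * ((n0 : ℝ) / (2 * e)) =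
        ((n0 : ℝ) + 1) * n0 / (2 * e) * Q := by ring
    have a4 : 0 ≤ (n0 : ℝ) * T := mul_nonneg hn0r hT0
    nlinarith
  · intro a ha
    have h3 := hind (fun l => a l * s) (by
      obtain ⟨l, hl⟩ := Function.ne_iff.1 ha
      intro h0
      have := congrFun h0 l
      exact (mul_ne_zero hl hs) this)
    filter_upwards [h3] with n hn h0
    apply hn
    rw [← h0]
    refine Finset.sum_congr rfl fun l _ => ?_
    rw [hval]
    ring

/-- the scales at the places are comparable -/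
lemma scale_cmp (G : Glob d f U x) (hX : ∀ v, LocX (G.loc v)) (hd : 2 ≤ d) (v : G.big) :
    ∃ A : ℝ, 0 ≤ A ∧ ∀ j, ∀ᶠ n in U, ∑ v' : G.big, wt (v' : Pl k) * (G.loc v').Λ j n ≤
      A * (wt (v : Pl k) * (G.loc v).Λ j n) := by
  classical
  have hd0 : (0 : ℝ) < d := by
    have : 0 < d := by omega
    exact_mod_cast this
  have hpow : ∀ (v' : G.big) (j : ℕ), ∀ᶠ n in U, (G.loc v').Λ 0 n =
      (d : ℝ) ^ j * (G.loc v').Λ j n := by
    intro v' j
    induction j with
    | zero =>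
      filter_upwards with n
      rw [pow_zero, one_mul]
    | succ j ih =>
      filter_upwards [ih, (hX v').Λd j] with n e1 e2
      rw [e1, e2, pow_succ]
      ring
  obtain ⟨c, hc, hlow⟩ := (hX v).Λlow
  choose C hC using fun v' => (hX v').Λup
  set A1 : ℝ := ∑ v' : G.big, wt (v' : Pl k) * |C v'| with hA1
  have hA10 : 0 ≤ A1 := Finset.sum_nonneg fun v' _ => mul_nonneg (wt_nonneg _) (abs_nonneg _)
  have hw := wt_pos (v : Pl k)
  refine ⟨A1 / (c * wt (v : Pl k)), by positivity, fun j => ?_⟩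
  filter_upwards [eventually_all.2 fun v' => hpow v' j, hlow, eventually_all.2 hC] with n e1 e2 e3
  have hdn : (0 : ℝ) < (d : ℝ) ^ n := by positivity
  have h1 : ∑ v' : G.big, wt (v' : Pl k) * (G.loc v').Λ 0 n ≤ A1 * (d : ℝ) ^ n := by
    rw [hA1, Finset.sum_mul]
    refine Finset.sum_le_sum fun v' _ => ?_
    rw [mul_assoc]
    apply mul_le_mul_of_nonneg_left _ (wt_nonneg _)
    refine (e3 v').trans ?_
    exact mul_le_mul_of_nonneg_right (le_abs_self _) hdn.le
  have h2 : A1 * (d : ℝ) ^ n ≤ A1 / c * (G.loc v).Λ 0 n := by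
    rw [div_mul_eq_mul_div, le_div_iff₀ hc]
    nlinarith
  have h3 := h1.trans h2
  have h4 : ∑ v' : G.big, wt (v' : Pl k) * (G.loc v').Λ 0 n =
      (d : ℝ) ^ j * ∑ v' : G.big, wt (v' : Pl k) * (G.loc v').Λ j n := by
    rw [Finset.mul_sum]
    refine Finset.sum_congr rfl fun v' _ => ?_
    rw [e1 v']
    ring
  rw [h4, e1 v] at h3
  have h5 : A1 / (c * wt (v : Pl k)) * (wt (v : Pl k) * (G.loc v).Λ j n) =
      A1 / c * (G.loc v).Λ j n := by
    field_simp
  rw [h5]
  have h6 : (d : ℝ) ^ j * ∑ v' : G.big, wt (v' : Pl k) * (G.loc v').Λ j n ≤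
      (d : ℝ) ^ j * (A1 / c * (G.loc v).Λ j n) := by
    refine h3.trans (le_of_eq ?_)
    ring
  exact le_of_mul_le_mul_left h6 (by positivity)

/-- The degrees are bounded. -/
theorem bddK (G : Glob d f U x) (hX : ∀ v, LocX (G.loc v)) (hd : 2 ≤ d) (v : G.big) :
    ∃ B : ℕ, ∀ (j b : ℕ) (ρ : Fin b → AlgebraicClosure k), LinearIndependent k ρ →
      (∀ l, ρ l ∈ Kf ((G.loc v).y j)) → b ≤ B := by
  classical
  obtain ⟨A, hA0, hA⟩ := scale_cmp G hX hd v
  obtain ⟨B, hB⟩ := exists_nat_ge (2 * A + 1)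
  refine ⟨B, fun j b ρ hρ hρK => ?_⟩
  by_contra hlt
  push Not at hlt
  obtain ⟨e, he, c, hc⟩ := (hX v).main j b ρ hρ hρK
  set D := b * c + c + 1 with hD
  have hDc : D - c + 1 = b * c + 2 := by
    generalize b * c = w at hD ⊢
    omega
  have hmain := hc D (by
    generalize b * c = w at hD
    omega)
  have hb1 : 1 ≤ b := by omega
  have hr1 : 2 ≤ e * b * (D - c + 1) := by
    rw [hDc]
    calc 2 = 1 * 1 * 2 := by norm_num
      _ ≤ e * b * (b * c + 2) := Nat.mul_le_mul (Nat.mul_le_mul he hb1) (by omega)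
  have hrc : ((e * b * (D - c + 1) : ℕ) : ℝ) = e * b * (b * c + 2) := by
    rw [hDc]
    push_cast
    ring
  generalize e * b * (D - c + 1) = r at hmain hr1 hrc
  obtain ⟨n0, rfl⟩ : ∃ n0, r = n0 + 1 := ⟨r - 1, by omega⟩
  obtain ⟨P, hP, hind, M, hM, C, hC⟩ := hmain
  refine contra G hX v j n0 D e (by omega) he P hP hind M hM C ?_ A (hA j) ?_
  · filter_upwards [hC] with n hn
    exact hn.1
  · have he1 : (1 : ℝ) ≤ e := by exact_mod_cast he
    have hbA : 2 * A + 1 ≤ (b : ℝ) := hB.trans (by exact_mod_cast hlt.le)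
    have hc0 : (0 : ℝ) ≤ c := Nat.cast_nonneg _
    have hb0 : (1 : ℝ) ≤ b := by exact_mod_cast hb1
    have hDr : (D : ℝ) = b * c + c + 1 := by
      rw [hD]
      push_cast
      ring
    rw [le_div_iff₀ (by positivity), hDr]
    push_cast at hrc
    have hbc : 0 ≤ (b : ℝ) * c := by positivity
    have h1 : (n0 : ℝ) = e * (b * (b * c + 2)) - 1 := by linarith
    rw [h1]
    have h2 : 2 * A ≤ (b : ℝ) - 1 := by linarith
    have h3 : ((b : ℝ) * c + c + 1 + 1) * (2 * A) ≤ ((b : ℝ) * c + c + 1 + 1) * (b - 1) :=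
      mul_le_mul_of_nonneg_left h2 (by positivity)
    have h4 : ((b : ℝ) * c + c + 1 + 1) * (b - 1) = b * (b * c + 2) - c - 2 := by ring
    have h5 : (e : ℝ) * (((b : ℝ) * c + c + 1 + 1) * (2 * A)) ≤ e * (b * (b * c + 2) - c - 2) := by
      rw [← h4]
      exact mul_le_mul_of_nonneg_left h3 (by linarith)
    have h6 : (e : ℝ) * (c + 2) ≥ 1 := by nlinarith
    nlinarith

end Pool.Agent.R847.SB
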