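import Mathlib
import Pool.Agent.R847.SB.BddK
import Pool.Agent.R847.SN.End

/-!
# All the points at infinity of the predecessors are periodic
-/

set_option autoImplicit false

namespace Pool.Agent.R847.SB

open MvPolynomial NumberField IsDedekindDomain Height Module Filter Topology
open Pool.Agent.R847.SN

section

variable {k : Type} [Field k] {N d : ℕ}
  {f : Fin (N + 1) → MvPolynomial (Fin (N + 1)) k}
  {U : Ultrafilter ℕ} {x : ℕ → Fin (N + 1) → k} {W : AbsoluteValue (AlgebraicClosure k) ℝ}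

lemma Kf_fin (y : Fin (N + 1) → AlgebraicClosure k) : FiniteDimensional k (Kf y) := by
  unfold Kf
  have hfin : {t | ∃ i j, y i ≠ 0 ∧ t = y j / y i}.Finite := by
    apply (Set.finite_range (fun p : Fin (N + 1) × Fin (N + 1) => y p.2 / y p.1)).subset
    rintro t ⟨i, j, _, rfl⟩
    exact ⟨(i, j), rfl⟩
  have := hfin.to_subtype
  exact IntermediateField.finiteDimensional_adjoin fun x _ =>
    ((AlgebraicClosure.isAlgebraic k).isAlgebraic x).isIntegral

lemma Kf_rank (y : Fin (N + 1) → AlgebraicClosure k) (B : ℕ)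
    (h : ∀ (b : ℕ) (ρ : Fin b → AlgebraicClosure k), LinearIndependent k ρ →
      (∀ l, ρ l ∈ Kf y) → b ≤ B) : Module.finrank k (Kf y) ≤ B := by
  have := Kf_fin y
  apply h _ (fun l => ((Module.finBasis k (Kf y) l : Kf y) : AlgebraicClosure k))
  · exact (Module.finBasis k (Kf y)).linearIndependent.map'
      (Kf y).val.toLinearMap (LinearMap.ker_eq_bot_of_injective (Kf y).val.toRingHom.injective)
  · intro l
    exact (Module.finBasis k (Kf y) l).2

/-- The quotients of the coordinates of all limits lie in a fixed finite extension. -/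
theorem fixed_field' (T : Loc d f U x W) (B : ℕ)
    (hB : ∀ (j b : ℕ) (ρ : Fin b → AlgebraicClosure k), LinearIndependent k ρ →
      (∀ l, ρ l ∈ Kf (T.y j)) → b ≤ B) :
    ∃ (L : IntermediateField k (AlgebraicClosure k)) (_ : FiniteDimensional k L) (k2 : ℕ),
      ∀ s ≥ k2, ∀ i j, T.y s i ≠ 0 → T.y s j / T.y s i ∈ L := by
  have hrk : ∀ s, Module.finrank k (Kf (T.y s)) ≤ B := fun s => Kf_rank _ B (hB s)
  have hmono : ∀ s s', s ≤ s' → Kf (T.y s) ≤ Kf (T.y s') := by
    intro s s' hss
    induction s', hss using Nat.le_induction with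
    | base => exact le_rfl
    | succ s' _ ih => exact ih.trans (Kf_mono (d := d) (f := f) _ _ (T.hy0 _) (T.hy s'))
  -- an index of maximal degree
  obtain ⟨k2, hmax⟩ : ∃ k2, ∀ s, Module.finrank k (Kf (T.y s)) ≤
      Module.finrank k (Kf (T.y k2)) := by
    by_contra hno
    push Not at hno
    have hstep : ∀ n : ℕ, ∃ s, n ≤ Module.finrank k (Kf (T.y s)) := by
      intro n
      induction n with
      | zero => exact ⟨0, Nat.zero_le _⟩
      | succ n ih =>
        obtain ⟨s, h1⟩ := ih
        obtain ⟨s', h2⟩ := hno s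
        exact ⟨s', by omega⟩
    obtain ⟨s, h1⟩ := hstep (B + 1)
    have := hrk s
    omega
  refine ⟨Kf (T.y k2), Kf_fin _, k2, fun s hs i j hi => ?_⟩
  have h1 := hmono k2 s hs
  have h2 := Kf_fin (T.y s)
  have h3 : Kf (T.y k2) = Kf (T.y s) :=
    IntermediateField.eq_of_le_of_finrank_le h1 (hmax s)
  rw [h3]
  exact mem_Kf _ i j hi

end

variable {k : Type} [Field k] [NumberField k] {N d : ℕ}
  {f : Fin (N + 1) → MvPolynomial (Fin (N + 1)) k}
  {U : Ultrafilter ℕ} {x : ℕ → Fin (N + 1) → k}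

/-- The limits at infinity of the predecessors are periodic. -/
theorem per_all (G : Glob d f U x) (hX : ∀ v, LocX (G.loc v)) (hd : 2 ≤ d) (hreg : Reg d f)
    (v : G.big) : ∃ l ≥ 1, ∀ j, PR ((G.loc v).y (j + l)) ((G.loc v).y j) := by
  obtain ⟨B, hB⟩ := bddK G hX hd v
  obtain ⟨L, hL, k2, hmem⟩ := fixed_field' (G.loc v) B hB
  exact periodic hd hreg _ (G.loc v).hy0 (G.loc v).hy L hL k2 hmem

end Pool.Agent.R847.SB
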