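import Mathlib
import Pool.Agent.R847.SB.PerX
import Pool.Agent.R847.SN.Final

/-!
# Dynamical Mordell-Lang for curves without critical periodic points at infinity
-/

set_option autoImplicit false

open MvPolynomial Filter Topology Asymptotics

namespace Pool.Agent.R847.SB

open Pool.Agent.R847.SN

section det

variable {k : Type} [Field k] {N d : ℕ} {E : Type} [Field E] [Algebra k E]

/-- the map given by the top forms -/
noncomputable def Fs (d : ℕ) (f : Fin (N + 1) → MvPolynomial (Fin (N + 1)) k)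
    (w : Fin (N + 1) → E) : Fin (N + 1) → E := fun i => aeval w (homogeneousComponent d (f i))

lemma Fs_smul (f : Fin (N + 1) → MvPolynomial (Fin (N + 1)) k) (c : E)
    (w : Fin (N + 1) → E) : Fs d f (c • w) = c ^ d • Fs d f w := by
  funext i
  exact aeval_scale _ d (homogeneousComponent_isHomogeneous d (f i)) c w

lemma Fs_iter_smul (f : Fin (N + 1) → MvPolynomial (Fin (N + 1)) k) (c : E)
    (w : Fin (N + 1) → E) (t : ℕ) : (Fs d f)^[t] (c • w) = c ^ d ^ t • (Fs d f)^[t] w := by
  induction t with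
  | zero => simp
  | succ t ih =>
    rw [Function.iterate_succ_apply', Function.iterate_succ_apply', ih, Fs_smul, ← pow_mul,
      ← pow_succ]

lemma Fs_iter (f : Fin (N + 1) → MvPolynomial (Fin (N + 1)) k) (y : ℕ → Fin (N + 1) → E)
    (hy : ∀ j i, aeval (y (j + 1)) (homogeneousComponent d (f i)) = y j i) (j t : ℕ) :
    (Fs d f)^[t] (y (j + t)) = y j := by
  induction t generalizing j with
  | zero => rfl
  | succ t ih =>
    have h1 : (Fs d f) (y (j + t + 1)) = y (j + t) := funext fun i => hy (j + t) i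
    rw [Function.iterate_succ_apply, ← add_assoc, h1, ih]

lemma Dm_scale (f : Fin (N + 1) → MvPolynomial (Fin (N + 1)) k) (c : E)
    (w : Fin (N + 1) → E) : (Dm d f (c • w)).det = c ^ ((d - 1) * (N + 1)) * (Dm d f w).det := by
  have h1 : Dm d f (c • w) = c ^ (d - 1) • Dm d f w := by
    ext i i'
    unfold Dm
    rw [Matrix.smul_apply, Matrix.of_apply, Matrix.of_apply, smul_eq_mul]
    exact aeval_scale _ (d - 1) ((homogeneousComponent_isHomogeneous d (f i)).pderiv) c w
  rw [h1, Matrix.det_smul, Fintype.card_fin, ← pow_mul]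

lemma PR_mul' (y : ℕ → Fin (N + 1) → E) (l : ℕ)
    (h : ∀ j, PR (y (j + l)) (y j)) (t : ℕ) : ∀ j, PR (y (j + l * t)) (y j) := by
  induction t with
  | zero =>
    intro j
    exact ⟨1, one_ne_zero, fun i => by simp⟩
  | succ t ih =>
    intro j
    have h1 := h (j + l * t)
    have h2 : j + l * (t + 1) = j + l * t + l := by ring
    rw [h2]
    obtain ⟨τ, hτ, h⟩ := h1
    obtain ⟨τ', hτ', h'⟩ := ih j
    refine ⟨τ * τ', mul_ne_zero hτ hτ', fun i => ?_⟩
    rw [h i, h' i, mul_assoc]

/-- The points of a periodic backward orbit are the points of the cycle. -/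
lemma cyc_det (f : Fin (N + 1) → MvPolynomial (Fin (N + 1)) k) (y : ℕ → Fin (N + 1) → E)
    (hy : ∀ j i, aeval (y (j + 1)) (homogeneousComponent d (f i)) = y j i) (l : ℕ) (hl : 1 ≤ l)
    (hPR : ∀ j, PR (y (j + l)) (y j))
    (h : ∀ c : E, c ≠ 0 → (Fs d f)^[l] (y 0) = c • y 0 →
      ∀ i, (Dm d f ((Fs d f)^[i] (y 0))).det ≠ 0) (j : ℕ) : (Dm d f (y j)).det ≠ 0 := by
  have h1 : ∃ c : E, c ≠ 0 ∧ (Fs d f)^[l] (y 0) = c • y 0 := by
    obtain ⟨τ, hτ, hτy⟩ := hPR 0
    have e1 : y (0 + l) = τ • y 0 := funext hτy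
    have e2 := Fs_iter f y hy 0 l
    rw [e1, Fs_iter_smul] at e2
    refine ⟨(τ ^ d ^ l)⁻¹, inv_ne_zero (pow_ne_zero _ hτ), ?_⟩
    rw [← e2, smul_smul, inv_mul_cancel₀ (pow_ne_zero _ hτ), one_smul]
    rw [e2]
  obtain ⟨c, hc, hcy⟩ := h1
  obtain ⟨τ, hτ, hτy⟩ := PR_mul' y l hPR j 0
  have e1 : y (0 + l * j) = τ • y 0 := funext hτy
  have e3 : j ≤ l * j := Nat.le_mul_of_pos_left j hl
  have e2 := Fs_iter f y hy j (l * j - j)
  have e4 : j + (l * j - j) = 0 + l * j := by
    generalize l * j = w at e3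
    omega
  rw [e4, e1, Fs_iter_smul] at e2
  rw [← e2, Dm_scale]
  exact mul_ne_zero (pow_ne_zero _ (pow_ne_zero _ hτ)) (h c hc hcy _)

end det

section main

variable {k : Type} [Field k] [NumberField k] [Algebra k ℂ] {N : ℕ}

/-- **Dynamical Mordell-Lang for curves and regular polynomial endomorphisms.** -/
theorem dml_k' (d : ℕ) (hd : 2 ≤ d) (f : Fin (N + 1) → MvPolynomial (Fin (N + 1)) k)
    (hdeg : ∀ i, (f i).totalDegree ≤ d) (hreg : Reg d f)
    (V : Set (MvPolynomial (Fin (N + 1)) ℂ))
    (hV : ∀ i j, ∃ P : MvPolynomial (Fin 2) ℂ, P ≠ 0 ∧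
      ∀ z : Fin (N + 1) → ℂ, (∀ h ∈ V, eval z h = 0) → eval ![z i, z j] P = 0)
    (hper : ∀ z : Fin (N + 1) → ℂ, z ≠ 0 → AtInf V z → ∀ l ≥ 1, ∀ c : ℂ, c ≠ 0 →
      (Fs d f)^[l] z = c • z → ∀ i, (Dm d f ((Fs d f)^[i] z)).det ≠ 0)
    (x : ℕ → Fin (N + 1) → k) (hx : ∀ n i, x (n + 1) i = aeval (x n) (f i)) :
    ∃ T : Finset (ℕ × ℕ), {n : ℕ | ∀ h ∈ V, eval (fun i => algebraMap k ℂ (x n i)) h = 0} =
      {n : ℕ | ∃ q ∈ T, ∃ m : ℕ, n = q.1 * m + q.2} := by
  classical
  set Z : Set ℕ := {n : ℕ | ∀ h ∈ V, eval (fun i => algebraMap k ℂ (x n i)) h = 0} with hZ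
  apply Pool.Agent.R847.SG.compact_AP
  intro U hU hZU
  by_cases hinj : Function.Injective x
  · have hpair : ∀ i j, ∃ P : MvPolynomial (Fin 2) k, P ≠ 0 ∧
        ∀ᶠ n in U, aeval ![x n i, x n j] P = 0 := by
      intro i j
      obtain ⟨P, hP, hP0⟩ := hV i j
      obtain ⟨κ, hκ⟩ := MvPolynomial.support_nonempty.2 hP
      obtain ⟨φ, hφ⟩ : ∃ φ : Module.Dual k ℂ, φ (coeff κ P) ≠ 0 := by
        by_contra hno
        push Not at hno
        exact (mem_support_iff.1 hκ) ((Module.forall_dual_apply_eq_zero_iff k _).1 hno)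
      refine ⟨cmp φ P, ?_, ?_⟩
      · intro h0
        apply hφ
        rw [← coeff_cmp, h0, coeff_zero]
      · filter_upwards [hZU] with n hn
        have h1 := hP0 _ hn
        rw [aeval_cmp]
        have h2 : (fun e => algebraMap k ℂ ((![x n i, x n j] : Fin 2 → k) e)) =
            ![algebraMap k ℂ (x n i), algebraMap k ℂ (x n j)] := by
          funext e
          fin_cases e <;> rfl
        rw [h2, h1, map_zero]
    obtain ⟨G, hX⟩ := exists_globX hd hdeg hreg hx hinj hU hpair
    -- the embedding of the algebraic closure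
    let σ : AlgebraicClosure k →ₐ[k] ℂ :=
      IsAlgClosed.lift (M := ℂ) (R := k) (S := AlgebraicClosure k)
    have hdet : ∀ v : G.big, ∀ j, (Dm d f ((G.loc v).y j)).det ≠ 0 := by
      intro v j
      obtain ⟨l, hl, hPR⟩ := per_all G hX hd hreg v
      set L := G.loc v with hL
      have hinf : AtInf V (fun i => σ (L.y 0 i)) := by
        intro g hg
        apply comp_zero σ
        intro φ
        rw [cmp_comp]
        have h1 := L.top 0 g.totalDegree (cmp φ g) (cmp_deg φ g) (by
          filter_upwards [hZU] with n hn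
          rw [Nat.sub_zero, aeval_cmp, hg _ hn, map_zero])
        rwa [H_zero] at h1
      have hne : (fun i => σ (L.y 0 i)) ≠ 0 := by
        intro h0
        apply L.hy0 0
        funext i
        exact (map_eq_zero σ).1 (congrFun h0 i)
      have h2 := cyc_det f (fun j i => σ (L.y j i)) (by
        intro j i
        rw [← L.hy j i, comp_aeval_apply _ σ]) l hl (by
        intro j
        obtain ⟨τ, hτ, h⟩ := hPR j
        refine ⟨σ τ, (map_ne_zero σ).2 hτ, fun i => ?_⟩
        show σ (L.y (j + l) i) = σ τ * σ (L.y j i)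
        rw [h i, map_mul]) (fun c hc hcy => hper _ hne hinf l hl c hc hcy) j
      intro h3
      apply h2
      rw [← Dm_map σ]
      have h4 := AlgHom.map_det σ (Dm d f (L.y j))
      rw [h3, map_zero] at h4
      exact h4.symm
    obtain ⟨l, hl, h⟩ := G.fin hd hreg 0 (fun v j _ => hdet v j)
    refine ⟨l, hl, ?_⟩
    filter_upwards [h] with n hn t g hg
    apply (Module.forall_dual_apply_eq_zero_iff k _).1
    intro φ
    have h1 := hn t (cmp φ g) (by
      filter_upwards [hZU] with n' hn'
      rw [aeval_cmp, hn' g hg, map_zero])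
    rwa [aeval_cmp] at h1
  · -- a preperiodic orbit
    rw [Function.Injective] at hinj
    push Not at hinj
    obtain ⟨a, b, hab, hne⟩ := hinj
    have key : ∀ a b, a < b → x a = x b →
        ∃ r ≥ 1, ∀ᶠ n in U, ∀ t, n + r * t ∈ Z := by
      intro a b hlt hab
      have h1 : ∀ m, x (a + m) = x (b + m) := by
        intro m
        induction m with
        | zero => exact hab
        | succ m ih =>
          funext i
          rw [← add_assoc, ← add_assoc, hx, hx, ih]
      have h2 : ∀ n ≥ a, ∀ t, x (n + (b - a) * t) = x n := by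
        intro n hn t
        induction t with
        | zero => rfl
        | succ t ih =>
          rw [← ih]
          have h3 := h1 (n + (b - a) * t - a)
          have e1 : a + (n + (b - a) * t - a) = n + (b - a) * t := by
            generalize (b - a) * t = w
            omega
          have e2 : b + (n + (b - a) * t - a) = n + (b - a) * (t + 1) := by
            rw [mul_add, mul_one]
            generalize (b - a) * t = w
            omega
          rw [e1, e2] at h3
          exact h3.symm
      refine ⟨b - a, by omega, ?_⟩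
      have h3 : ∀ᶠ n in U, a ≤ n := hU (eventually_ge_atTop a)
      filter_upwards [h3, hZU] with n h4 h5 t g hg
      rw [h2 n h4 t]
      exact h5 g hg
    rcases lt_or_gt_of_ne hne with h | h
    · exact key a b h hab
    · exact key b a h hab.symm

end main

/-- The same with complex polynomials with algebraic coefficients. -/
theorem dml_alg' {N : ℕ} (d : ℕ) (hd : 2 ≤ d) (f : Fin (N + 1) → MvPolynomial (Fin (N + 1)) ℂ)
    (hdeg : ∀ i, (f i).totalDegree ≤ d) (halg : ∀ i κ, IsAlgebraic ℚ (coeff κ (f i)))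
    (hreg : ∀ z : Fin (N + 1) → ℂ, (∀ i, eval z (homogeneousComponent d (f i)) = 0) → z = 0)
    (V : Set (MvPolynomial (Fin (N + 1)) ℂ))
    (hV : ∀ i j, ∃ P : MvPolynomial (Fin 2) ℂ, P ≠ 0 ∧
      ∀ z : Fin (N + 1) → ℂ, (∀ h ∈ V, eval z h = 0) → eval ![z i, z j] P = 0)
    (hper : ∀ z : Fin (N + 1) → ℂ, z ≠ 0 → AtInf V z → ∀ l ≥ 1, ∀ c : ℂ, c ≠ 0 →
      (fun w i => eval w (homogeneousComponent d (f i)))^[l] z = c • z →
      ∀ i, (Matrix.of fun a b => eval ((fun w i => eval w (homogeneousComponent d (f i)))^[i] z)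
        (pderiv b (homogeneousComponent d (f a)))).det ≠ 0)
    (x : ℕ → Fin (N + 1) → ℂ) (hx : ∀ n i, x (n + 1) i = eval (x n) (f i))
    (hx0 : ∀ i, IsAlgebraic ℚ (x 0 i)) :
    ∃ T : Finset (ℕ × ℕ), {n : ℕ | ∀ h ∈ V, eval (x n) h = 0} =
      {n : ℕ | ∃ q ∈ T, ∃ m : ℕ, n = q.1 * m + q.2} := by
  classical
  -- the field of the coefficients and the coordinates
  set T0 : Set ℂ := (⋃ i, ⋃ κ ∈ (f i).support, {coeff κ (f i)}) ∪ (⋃ i, {x 0 i}) with hT0
  have hT0f : T0.Finite := by
    apply Set.Finite.union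
    · exact Set.finite_iUnion fun i => Set.Finite.biUnion (f i).support.finite_toSet
        fun κ _ => Set.finite_singleton _
    · exact Set.finite_iUnion fun i => Set.finite_singleton _
  have hT0a : ∀ t ∈ T0, IsIntegral ℚ t := by
    intro t ht
    apply IsAlgebraic.isIntegral
    rcases ht with ht | ht
    · simp only [Set.mem_iUnion] at ht
      obtain ⟨i, κ, _, rfl⟩ := ht
      exact halg i κ
    · simp only [Set.mem_iUnion] at ht
      obtain ⟨i, rfl⟩ := ht
      exact hx0 i
  set k : IntermediateField ℚ ℂ := IntermediateField.adjoin ℚ T0 with hk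
  have hfd : FiniteDimensional ℚ k := by
    have := hT0f.to_subtype
    exact IntermediateField.finiteDimensional_adjoin hT0a
  have : NumberField k := { to_charZero := inferInstance, to_finiteDimensional := hfd }
  have hcm : ∀ i κ, coeff κ (f i) ∈ k := by
    intro i κ
    by_cases hκ : κ ∈ (f i).support
    · apply IntermediateField.subset_adjoin
      left
      simp only [Set.mem_iUnion]
      exact ⟨i, κ, hκ, rfl⟩
    · rw [notMem_support_iff.1 hκ]
      exact zero_mem _
  have hx0m : ∀ i, x 0 i ∈ k := by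
    intro i
    apply IntermediateField.subset_adjoin
    right
    simp only [Set.mem_iUnion]
    exact ⟨i, rfl⟩
  have hf' : ∀ i, ∃ g : MvPolynomial (Fin (N + 1)) k, map (algebraMap k ℂ) g = f i := by
    intro i
    refine ⟨∑ κ ∈ (f i).support, monomial κ ⟨coeff κ (f i), hcm i κ⟩, ?_⟩
    rw [map_sum]
    simp_rw [map_monomial]
    conv_rhs => rw [← support_sum_monomial_coeff (f i)]
    rfl
  choose g hg using hf'
  have hinjk : Function.Injective (algebraMap k ℂ) := (algebraMap k ℂ).injective
  have hhc : ∀ i, homogeneousComponent d (f i) =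
      map (algebraMap k ℂ) (homogeneousComponent d (g i)) := by
    intro i
    rw [← hg i]
    ext κ
    rw [coeff_map, coeff_homogeneousComponent, coeff_homogeneousComponent, coeff_map]
    split_ifs
    · rfl
    · rw [map_zero]
  have hev : ∀ (z : Fin (N + 1) → ℂ) (p : MvPolynomial (Fin (N + 1)) k),
      eval z (map (algebraMap k ℂ) p) = aeval z p := by
    intro z p
    rw [aeval_def, eval₂_eq_eval_map]
  -- the orbit
  set x' : ℕ → Fin (N + 1) → k := fun n => (fun z i => aeval z (g i))^[n]
    (fun i => ⟨x 0 i, hx0m i⟩) with hx'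
  have hx'x : ∀ n i, algebraMap k ℂ (x' n i) = x n i := by
    intro n
    induction n with
    | zero =>
      intro i
      rfl
    | succ n ih =>
      intro i
      rw [hx']
      simp only [Function.iterate_succ_apply']
      rw [map_aevalk, hx, ← hg i, hev]
      congr 2
      funext r
      exact ih r
  have hreg' : Reg d g := by
    intro z hz
    let σ : AlgebraicClosure k →ₐ[k] ℂ :=
      IsAlgClosed.lift (M := ℂ) (R := k) (S := AlgebraicClosure k)
    have h1 := hreg (fun i => σ (z i)) fun i => by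
      rw [hhc, hev, ← comp_aeval_apply _ σ, hz i, map_zero]
    funext i
    exact (map_eq_zero σ).1 (congrFun h1 i)
  have hFs : (Fs d g : (Fin (N + 1) → ℂ) → Fin (N + 1) → ℂ) =
      fun w i => eval w (homogeneousComponent d (f i)) := by
    funext w i
    rw [hhc, hev]
    rfl
  obtain ⟨T, hT⟩ := dml_k' d hd g (by
    intro i
    refine le_trans ?_ (hdeg i)
    rw [← hg i]
    unfold totalDegree
    rw [support_map_of_injective _ hinjk]) hreg' V hV (by
      intro z hz hinf l hl c hc hcz i h0
      rw [hFs] at hcz h0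
      apply hper z hz hinf l hl c hc hcz i
      rw [← h0]
      congr 1
      ext a b
      rw [Matrix.of_apply, hhc, pderiv_map, hev]
      rfl) x' (by
      intro n i
      rw [hx']
      simp only [Function.iterate_succ_apply'])
  refine ⟨T, ?_⟩
  rw [← hT]
  ext n
  simp only [Set.mem_ofPred_eq]
  have h1 : (fun i => algebraMap k ℂ (x' n i)) = x n := funext (hx'x n)
  rw [h1]

end Pool.Agent.R847.SB
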