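import Mathlib
import Pool.Agent.R847.SB.FinX

/-!
# Perturbed power maps
-/

set_option autoImplicit false

open MvPolynomial

namespace Pool.Agent.R847.SB

variable {N : ℕ}

lemma pow_top (d : ℕ) (i : Fin (N + 1)) (g : MvPolynomial (Fin (N + 1)) ℂ)
    (hg : g.totalDegree < d) : homogeneousComponent d (X i ^ d + g) = X i ^ d := by
  rw [map_add, homogeneousComponent_of_mem (isHomogeneous_X_pow i d), if_pos rfl,
    homogeneousComponent_eq_zero d g hg, add_zero]

lemma pow_deg (d : ℕ) (i : Fin (N + 1)) (g : MvPolynomial (Fin (N + 1)) ℂ)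
    (hg : g.totalDegree < d) : (X i ^ d + g).totalDegree ≤ d :=
  (totalDegree_add _ _).trans (max_le (isHomogeneous_X_pow i d).totalDegree_le hg.le)

lemma pow_alg (d : ℕ) (i : Fin (N + 1)) (κ : Fin (N + 1) →₀ ℕ) :
    IsAlgebraic ℚ (coeff κ (X i ^ d : MvPolynomial (Fin (N + 1)) ℂ)) := by
  classical
  rw [coeff_X_pow]
  split_ifs
  · exact isAlgebraic_one
  · exact isAlgebraic_zero

theorem dml_pow (d : ℕ) (hd : 2 ≤ d) (g : Fin (N + 1) → MvPolynomial (Fin (N + 1)) ℂ)
    (hg : ∀ i, (g i).totalDegree < d) (halg : ∀ i κ, IsAlgebraic ℚ (coeff κ (g i)))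
    (V : Set (MvPolynomial (Fin (N + 1)) ℂ))
    (hV : ∀ i j, ∃ P : MvPolynomial (Fin 2) ℂ, P ≠ 0 ∧
      ∀ z : Fin (N + 1) → ℂ, (∀ h ∈ V, eval z h = 0) → eval ![z i, z j] P = 0)
    (hinf : ∀ y : Fin (N + 1) → ℂ, y ≠ 0 → Pool.Agent.R847.SN.AtInf V y → (∃ i, y i = 0) →
      ∃ i j, y j ≠ 0 ∧ y i ≠ 0 ∧ ∀ n ≥ 1, (y i / y j) ^ n ≠ 1)
    (x : ℕ → Fin (N + 1) → ℂ) (hx : ∀ n i, x (n + 1) i = eval (x n) (X i ^ d + g i))
    (hx0 : ∀ i, IsAlgebraic ℚ (x 0 i)) :
    ∃ T : Finset (ℕ × ℕ), {n : ℕ | ∀ h ∈ V, eval (x n) h = 0} =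
      {n : ℕ | ∃ q ∈ T, ∃ m : ℕ, n = q.1 * m + q.2} := by
  have htop : ∀ i, homogeneousComponent d (X i ^ d + g i) = X i ^ d :=
    fun i => pow_top d i (g i) (hg i)
  have hit : ∀ (l : ℕ) (z : Fin (N + 1) → ℂ),
      (fun w (i : Fin (N + 1)) => eval w (homogeneousComponent d (X i ^ d + g i)))^[l] z =
        fun i => z i ^ d ^ l := by
    intro l z
    induction l with
    | zero => funext i; simp
    | succ l ih =>
      rw [Function.iterate_succ_apply', ih]
      funext i
      rw [htop, map_pow, eval_X, ← pow_mul, ← pow_succ]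
  apply dml_alg' d hd (fun i => X i ^ d + g i) (fun i => pow_deg d i (g i) (hg i))
    (fun i κ => by
      rw [coeff_add]
      exact (pow_alg d i κ).add (halg i κ)) ?_ V hV ?_ x hx hx0
  · intro z hz
    funext i
    have h1 := hz i
    rw [htop, map_pow, eval_X] at h1
    exact pow_eq_zero_iff (by omega) |>.1 h1
  · intro z hz0 hzinf l hl c hc hcz t hdet
    rw [hit] at hcz hdet
    by_cases hzi : ∃ i, z i = 0
    · obtain ⟨a, b, hb, ha, hab⟩ := hinf z hz0 hzinf hzi
      have e1 : ∀ i, z i ≠ 0 → z i ^ (d ^ l - 1) = c := by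
        intro i hi
        have h1 := congrFun hcz i
        simp only [Pi.smul_apply, smul_eq_mul] at h1
        have h2 : d ^ l = (d ^ l - 1) + 1 := by
          have : 1 ≤ d ^ l := Nat.one_le_pow _ _ (by omega)
          omega
        rw [h2, pow_succ] at h1
        exact mul_right_cancel₀ hi h1
      have h3 : 2 ≤ d ^ l := by
        calc 2 ≤ d := hd
          _ = d ^ 1 := (pow_one d).symm
          _ ≤ d ^ l := Nat.pow_le_pow_right (by omega) hl
      apply hab (d ^ l - 1) (by omega)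
      rw [div_pow, e1 a ha, e1 b hb, div_self hc]
    · push Not at hzi
      have h1 : (Matrix.of fun a b => eval (fun i => z i ^ d ^ t)
          (pderiv b (homogeneousComponent d (X a ^ d + g a)))) =
          Matrix.diagonal (fun a => (d : ℂ) * (z a ^ d ^ t) ^ (d - 1)) := by
        ext a b
        rw [Matrix.of_apply, htop, Derivation.leibniz_pow, pderiv_X, Matrix.diagonal_apply]
        by_cases hab : a = b
        · subst hab
          rw [Pi.single_eq_same, if_pos rfl]
          simp [nsmul_eq_mul]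
        · rw [Pi.single_eq_of_ne hab, if_neg hab]
          simp
      rw [h1, Matrix.det_diagonal, Finset.prod_eq_zero_iff] at hdet
      obtain ⟨a, _, ha⟩ := hdet
      rcases mul_eq_zero.1 ha with h | h
      · have : d = 0 := by exact_mod_cast h
        omega
      · exact hzi a (eq_zero_of_pow_eq_zero (eq_zero_of_pow_eq_zero h))

end Pool.Agent.R847.SB
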